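import Pool.Agent.P.MP_7cb106_nt.BI.Iface

/-! Step FIN. -/

set_option autoImplicit false

namespace Pool.Agent.P.MP_7cb106_nt.BI

open Polynomial Module

theorem p_FIN (hEMB : S_EMB) :
    S_FIN := by
  intro p c _ F V G _ _ _ _ _ Γ D g ρ hW hS h1 j
  induction j with
  | zero => rw [fil_zero]; infer_instance
  | succ k ih =>
    let φ : V →ₗ[F] ((Fin k → Fin D) → V) := LinearMap.pi fun u => Bw ρ g (List.ofFn u)
    refine Module.Finite.iff_fg.2 (Submodule.fg_of_fg_map_of_fg_inf_ker φ ?_ ?_)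
    · have h2 : Module.Finite F (Submodule.pi Set.univ fun _ : Fin k → Fin D => fil ρ 1) :=
        Module.Finite.iff_fg.2 (Submodule.fg_pi fun _ => Module.Finite.iff_fg.1 h1)
      refine Module.Finite.iff_fg.1 (Submodule.finiteDimensional_of_le
        (S₂ := Submodule.pi Set.univ fun _ : Fin k → Fin D => fil ρ 1) ?_)
      rintro _ ⟨w, hw, rfl⟩ u _
      have := Bw_mem (ρ := ρ) g (List.ofFn u) _ w hw
      rwa [List.length_ofFn, Nat.add_sub_cancel_left] at this
    · refine Module.Finite.iff_fg.1 (Submodule.finiteDimensional_of_le (S₂ := fil ρ k) ?_)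
      rintro w ⟨hw, h0⟩
      refine hEMB p c F V G Γ D g ρ hW hS k w hw fun u hu => ?_
      subst hu
      have := congrFun (LinearMap.mem_ker.1 h0) u.get
      rwa [LinearMap.pi_apply, List.ofFn_get] at this

end Pool.Agent.P.MP_7cb106_nt.BI

/-! Step A6. -/

set_option autoImplicit false

namespace Pool.Agent.P.MP_7cb106_nt.BI

open Polynomial Module

theorem p_A6 (hGR : S_GR) (hEXH : S_EXH) (hFIN : S_FIN) :
    S_A6 := by
  intro p c _ F V G _ _ _ _ _ Γ D g ρ hW hS h1 hV l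
  by_contra h
  push Not at h
  have hq : 1 ≤ p ^ l := Nat.one_le_pow _ _ (Fact.out : p.Prime).pos
  have key : ∀ k, D * (p ^ l - 1) + 1 ≤ k → fil ρ k ≤ fil ρ (D * (p ^ l - 1) + 1) := by
    intro k hk
    induction k, hk using Nat.le_induction with
    | base => exact le_rfl
    | succ k hk ih =>
      refine fun w hw => ih (hGR p c F V G Γ D g ρ hW hS _ k w hq hk hw fun i => ?_)
      have := mem_Ssh.1 (h i) _ w hw
      rwa [rho_pow_sub_one p, Nat.add_sub_add_right] at this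
  have top : fil ρ (D * (p ^ l - 1) + 1) = ⊤ := by
    refine eq_top_iff.2 fun v _ => ?_
    obtain ⟨j, hj⟩ := hEXH p c F V G Γ D g ρ hW hS v
    exact key _ (le_max_right j _) (fil_mono (le_max_left _ _) hj)
  have := hFIN p c F V G Γ D g ρ hW hS h1 (D * (p ^ l - 1) + 1)
  rw [top] at this
  exact hV Submodule.topEquiv.finiteDimensional

end Pool.Agent.P.MP_7cb106_nt.BI

/-! Step LDA. -/

set_option autoImplicit false

namespace Pool.Agent.P.MP_7cb106_nt.BI

open Polynomial Module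

theorem lda_word {D : ℕ} (α : Fin D → ℕ) : ∃ u : List (Fin D), ∀ i, u.count i = α i :=
  ⟨(∑ i, Multiset.replicate (α i) i).toList, fun i => by
    rw [← Multiset.coe_count, Multiset.coe_toList, Multiset.count_sum']
    simp [Multiset.count_replicate]⟩

theorem lda_len {D : ℕ} (u : List (Fin D)) : ∑ i, u.count i = u.length := by
  simpa using Multiset.sum_count_eq_card (s := Finset.univ) (m := (u : Multiset (Fin D)))
    fun _ _ => Finset.mem_univ _

theorem p_LDA (hA2 : S_A2) (hEMB : S_EMB) :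
    S_LDA := by
  intro p c _ F V G _ _ _ _ _ Γ D g ρ hW hS hF
  have A2 := (hA2 p c F V G Γ D g ρ hW hS).2
  have b := Module.finBasis F (fil ρ 1)
  choose ψ hψ using fun a => LinearMap.exists_extend (b.coord a)
  have h0 : ∀ w ∈ fil ρ 1, (∀ a, ψ a w = 0) → w = 0 := fun w hw h =>
    congrArg Subtype.val (b.forall_coord_eq_zero_iff (x := ⟨w, hw⟩).1 fun a => by
      rw [← hψ a]; exact h a)
  choose W hW' using lda_word (D := D)
  have hl : ∀ α, (W α).length = ∑ i, α i := fun α => by simp only [← lda_len, hW']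
  have key : ∀ (u : List (Fin D)) α w, (∀ i, u.count i = α i) → w ∈ fil ρ (u.length + 1) →
      Bw ρ g u w = Bw ρ g (W α) w := fun u α w h hw =>
    sub_eq_zero.1 (Esh_apply_eq_zero (A2 u (W α) (List.perm_iff_count.2 fun i => by
      rw [h, hW'])) hw le_rfl)
  refine ⟨_, fun α a => ψ a ∘ₗ Bw ρ g (W α), rfl, fil_mono, fun k w hw α a h => ?_,
    fun k w hw h => hEMB p c F V G Γ D g ρ hW hS k w hw fun u hu => ?_,
    fun i k w hw => by simpa using sub_one_mem_Esh (g i) _ w hw, fun i α a w hw => ?_⟩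
  · rw [LinearMap.comp_apply, Esh_apply_eq_zero (Bw_mem g _) hw (by rwa [hl]), map_zero]
  · subst hu
    refine h0 _ (by simpa using Bw_mem g u _ w hw) fun a => ?_
    rw [key u _ w (fun _ => rfl) hw]
    exact h _ a (lda_len u)
  · rw [LinearMap.comp_apply, LinearMap.comp_apply, ← key (W α ++ [i]) _ w (fun j => ?_)
      (by rwa [List.length_append, hl]), Bw_append, Bw_cons, Bw_nil, mul_one, End.mul_apply]
    rw [List.count_append, hW', Pi.add_apply, Pi.single_apply, List.count_singleton]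
    simp only [beq_iff_eq, @eq_comm _ j i]

end Pool.Agent.P.MP_7cb106_nt.BI

/-! Step LD1. -/

set_option autoImplicit false

namespace Pool.Agent.P.MP_7cb106_nt.BI

open Polynomial Module

theorem ld1_sum {D : ℕ} (β : Fin D → ℕ) (i : Fin D) :
    ∑ j, (β + Pi.single i 1 : Fin D → ℕ) j = ∑ j, β j + 1 := by
  simp only [Pi.add_apply, Finset.sum_add_distrib]
  congr 1
  simp [Finset.sum_pi_single']

theorem ld1_lex {D : ℕ} (β γ e : Fin D → ℕ) (h : toLex β < toLex γ) :
    toLex (β + e) < toLex (γ + e) := by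
  obtain ⟨i, h1, h2⟩ := h
  refine ⟨i, fun j hj => ?_, ?_⟩
  · have := h1 j hj
    simp only [Pi.toLex_apply] at this
    simp only [Pi.toLex_apply, Pi.add_apply, this]
  · simp only [Pi.toLex_apply] at h2
    simp only [Pi.toLex_apply, Pi.add_apply]
    omega

theorem ld1_step {F V : Type} [Field F] [AddCommGroup V] [Module F V] {D d : ℕ}
    {π : ℕ → Submodule F V} {c : (Fin D → ℕ) → Fin d → Module.Dual F V}
    {b : Fin D → Module.End F V} (h : LD π c b) (a : Fin d) (β : Fin D → ℕ) (i : Fin D)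
    (hβ : β + Pi.single i 1 ∈ Ld π c a) : β ∈ Ld π c a := by
  obtain ⟨w, hw, hne, hz⟩ := hβ
  rw [ld1_sum] at hw
  refine ⟨b i w, h.low i _ w hw, ?_, fun γ a' hγ hlt => ?_⟩
  · rw [h.shift i β a w hw]
    exact hne
  · rw [h.shift i γ a' w (by rw [hγ]; exact hw)]
    refine hz _ a' (by rw [ld1_sum, ld1_sum, hγ]) ?_
    rcases hlt with hlt | ⟨h1, h2⟩
    · exact Or.inl hlt
    · exact Or.inr ⟨h1, ld1_lex _ _ _ h2⟩

theorem p_LD1 :
    S_LD1 := by
  intro F V _ _ _ D d π c b h a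
  have key : ∀ n : ℕ, ∀ β δ : Fin D → ℕ, ∑ j, δ j = n → β + δ ∈ Ld π c a → β ∈ Ld π c a := by
    intro n
    induction n with
    | zero =>
      intro β δ hδ hm
      have : δ = 0 := by
        funext j
        exact (Finset.sum_eq_zero_iff.mp hδ) j (Finset.mem_univ j)
      simpa [this] using hm
    | succ n ih =>
      intro β δ hδ hm
      have hex : ∃ i, δ i ≠ 0 := by
        by_contra hcon
        push Not at hcon
        simp [hcon] at hδ
      obtain ⟨i, hi⟩ := hex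
      have hδ' : δ = (δ - Pi.single i 1) + Pi.single i 1 := by
        funext j
        by_cases hj : j = i
        · subst hj
          simp only [Pi.add_apply, Pi.sub_apply, Pi.single_eq_same]
          omega
        · simp [hj]
      have hs : ∑ j, (δ - Pi.single i 1 : Fin D → ℕ) j = n := by
        have := ld1_sum (δ - Pi.single i 1) i
        rw [← hδ', hδ] at this
        omega
      refine ih β (δ - Pi.single i 1) hs (ld1_step h a _ i ?_)
      rw [add_assoc, ← hδ']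
      exact hm
  intro α β hle hα
  refine key _ β (α - β) rfl ?_
  have : β + (α - β) = α := by
    funext j
    have : β j ≤ α j := hle j
    simp only [Pi.add_apply, Pi.sub_apply]
    omega
  rw [this]
  exact hα

end Pool.Agent.P.MP_7cb106_nt.BI

/-! Step LOW. -/

set_option autoImplicit false

namespace Pool.Agent.P.MP_7cb106_nt.BI

open Polynomial Module

theorem low_card {D : ℕ} (J : Finset (Fin D)) (j R n : ℕ) (hJ : J.card ≤ n) :
    (Fintype.piFinset fun i : Fin D =>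
      if i ∈ J then Finset.range (j + 1) else Finset.range R).card ≤ (R + 1) ^ D * (j + 1) ^ n := by
  rw [Fintype.card_piFinset]
  calc ∏ i : Fin D, (if i ∈ J then Finset.range (j + 1) else Finset.range R).card
      ≤ ∏ i : Fin D, (R + 1) * (if i ∈ J then j + 1 else 1) := by
        refine Finset.prod_le_prod' fun i _ => ?_
        split_ifs
        · rw [Finset.card_range]
          exact Nat.le_mul_of_pos_left _ R.succ_pos
        · rw [Finset.card_range]
          omega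
    _ = (R + 1) ^ D * (j + 1) ^ J.card := by
        rw [Finset.prod_mul_distrib, Finset.prod_const, Finset.card_univ, Fintype.card_fin,
          Finset.prod_ite_mem, Finset.univ_inter, Finset.prod_const]
    _ ≤ (R + 1) ^ D * (j + 1) ^ n :=
        Nat.mul_le_mul_left _ (Nat.pow_le_pow_right j.succ_pos hJ)

theorem p_LOW :
    S_LOW := by
  intro D m S hm hS
  refine or_iff_not_imp_left.2 fun h => ?_
  have h1 : ∀ I : Finset (Fin D), ∃ β : Fin D → ℕ,
      I.card = m → (∀ i, i ∉ I → β i = 0) ∧ β ∉ S := fun I => by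
    by_cases hI : I.card = m
    · by_contra h2
      refine h ⟨I, hI, fun α hα => ?_⟩
      by_contra h3
      exact h2 ⟨α, fun _ => ⟨hα, h3⟩⟩
    · exact ⟨0, fun h2 => absurd h2 hI⟩
  choose be hbe using h1
  obtain ⟨R, hR⟩ : ∃ R : ℕ, ∀ I i, be I i ≤ R :=
    ⟨∑ I, ∑ i, be I i, fun I i =>
      (Finset.single_le_sum (f := be I) (fun _ _ => Nat.zero_le _) (Finset.mem_univ i)).trans
        (Finset.single_le_sum (f := fun I => ∑ i, be I i) (fun _ _ => Nat.zero_le _)
          (Finset.mem_univ I))⟩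
  have h2 : ∀ α ∈ S, (Finset.univ.filter fun i => R ≤ α i).card ≤ m - 1 := fun α hα => by
    by_contra h3
    obtain ⟨I, hI, hc⟩ := Finset.exists_subset_card_eq
      (s := Finset.univ.filter fun i => R ≤ α i) (n := m) (by omega)
    refine (hbe I hc).2 (hS (fun i => ?_) hα)
    by_cases hi : i ∈ I
    · exact (hR I i).trans (Finset.mem_filter.1 (hI hi)).2
    · rw [(hbe I hc).1 i hi]
      exact Nat.zero_le _
  refine ⟨Fintype.card (Finset (Fin D)) * (R + 1) ^ D, fun j => ?_⟩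
  have h3 : {α ∈ S | ∑ i, α i ≤ j} ⊆
      ↑((Finset.univ.filter fun J : Finset (Fin D) => J.card ≤ m - 1).biUnion fun J =>
        Fintype.piFinset fun i : Fin D =>
          if i ∈ J then Finset.range (j + 1) else Finset.range R) := by
    rintro α ⟨hα, hj⟩
    rw [Finset.mem_coe, Finset.mem_biUnion]
    refine ⟨_, Finset.mem_filter.2 ⟨Finset.mem_univ _, h2 α hα⟩,
      Fintype.mem_piFinset.2 fun i => ?_⟩
    have h4 : α i ≤ ∑ i, α i :=
      Finset.single_le_sum (f := α) (fun _ _ => Nat.zero_le _) (Finset.mem_univ i)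
    split_ifs with h5
    · exact Finset.mem_range.2 (by omega)
    · rw [Finset.mem_filter] at h5
      exact Finset.mem_range.2 (not_le.1 fun h6 => h5 ⟨Finset.mem_univ _, h6⟩)
  refine (Set.ncard_le_ncard h3 (Finset.finite_toSet _)).trans ?_
  rw [Set.ncard_coe_finset, mul_assoc]
  refine (Finset.card_biUnion_le_card_mul _ _ _ fun J hJ =>
    low_card J j R (m - 1) (Finset.mem_filter.1 hJ).2).trans ?_
  exact Nat.mul_le_mul_right _ (Finset.card_le_univ _)

end Pool.Agent.P.MP_7cb106_nt.BI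

/-! Step CNT. -/

set_option autoImplicit false

namespace Pool.Agent.P.MP_7cb106_nt.BI

open Polynomial Module

theorem p_CNT :
    S_CNT := by
  intro D j I S hS
  classical
  have hfin : {α ∈ S | ∑ i, α i ≤ j}.Finite := by
    refine (Fintype.piFinset fun _ : Fin D => Finset.range (j + 1)).finite_toSet.subset
      fun α hα => ?_
    simp only [Finset.mem_coe, Fintype.mem_piFinset, Finset.mem_range]
    intro i
    have := Finset.single_le_sum (f := α) (fun _ _ => Nat.zero_le _) (Finset.mem_univ i)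
    have h2 := hα.2
    omega
  have hc := Finset.card_finsuppAntidiag_nat_eq_choose (s := I.insertNone) j
  rw [Finset.card_insertNone, show I.card + 1 + j - 1 = j + I.card by omega,
    Nat.choose_symm_add] at hc
  have key : ∀ f ∈ I.insertNone.finsuppAntidiag j,
      (∀ i, i ∉ I → f (some i) = 0) ∧ f none + ∑ i, f (some i) = j := by
    intro f hf
    obtain ⟨h1, h2⟩ := Finset.mem_finsuppAntidiag.1 hf
    have h3 : ∀ i, i ∉ I → f (some i) = 0 := fun i hi => by
      by_contra h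
      exact hi (Finset.some_mem_insertNone.1 (h2 (Finsupp.mem_support_iff.2 h)))
    refine ⟨h3, ?_⟩
    rw [Finset.sum_insertNone] at h1
    rw [← h1, Finset.sum_subset (Finset.subset_univ I) fun i _ hi => h3 i hi]
  rw [← hc, ← Set.ncard_coe_finset]
  refine Set.ncard_le_ncard_of_injOn (fun f i => f (some i)) (fun f hf => ?_)
    (fun f hf g hg e => ?_) hfin
  · obtain ⟨h1, h2⟩ := key f hf
    exact ⟨hS _ h1, h2 ▸ Nat.le_add_left _ _⟩
  · have e1 : ∀ i, f (some i) = g (some i) := congrFun e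
    have h1 := (key f hf).2
    have h2 := (key g hg).2
    simp only [e1] at h1
    ext a
    cases a with
    | none => omega
    | some i => exact e1 i

end Pool.Agent.P.MP_7cb106_nt.BI

/-! Step WUA. -/

set_option autoImplicit false

namespace Pool.Agent.P.MP_7cb106_nt.BI

open Polynomial Module

theorem wua_reps (p : ℕ) [Fact p.Prime] (M : Type) [AddCommGroup M] [Module ℤ_[p] M]
    [Module.Finite ℤ_[p] M] : ∃ (D : ℕ) (X : Fin D → M), ∀ x, ∃ i w, x = X i + p • w := by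
  obtain ⟨k, s, hs⟩ := Module.Finite.exists_fin (R := ℤ_[p]) (M := M)
  let E := Fintype.equivFin (Fin k → Fin (p ^ 1))
  refine ⟨_, fun i => ∑ j, (E.symm i j : ℕ) • s j, fun x => ?_⟩
  have hx : x ∈ Submodule.span ℤ_[p] (Set.range s) := by rw [hs]; trivial
  obtain ⟨a, rfl⟩ := (Submodule.mem_span_range_iff_exists_fun _).1 hx
  have h : ∀ j, ∃ b : ℤ_[p], a j - (a j).appr 1 = (p : ℤ_[p]) ^ 1 * b := fun j =>
    Ideal.mem_span_singleton.1 (PadicInt.appr_spec 1 (a j))
  choose b hb using h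
  refine ⟨E fun j => ⟨(a j).appr 1, PadicInt.appr_lt _ _⟩, ∑ j, b j • s j, ?_⟩
  simp only [Equiv.symm_apply_apply, Finset.smul_sum, ← Finset.sum_add_distrib]
  refine Finset.sum_congr rfl fun j _ => ?_
  rw [← Nat.cast_smul_eq_nsmul ℤ_[p], ← Nat.cast_smul_eq_nsmul ℤ_[p], smul_smul, ← add_smul,
    ← pow_one (p : ℤ_[p]), ← hb j, add_sub_cancel]

theorem wua_left {O n : Type} [CommRing O] [Fintype n] [DecidableEq n] {u x : GL n O} {a : O}
    {Y : Matrix n n O} (h : (x : Matrix n n O) = u + a • Y) :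
    ((u⁻¹ * x : GL n O) : Matrix n n O) = 1 + a • (((u⁻¹ : GL n O) : Matrix n n O) * Y) := by
  rw [Units.val_mul, h, mul_add, Units.inv_mul, Matrix.mul_smul]

theorem wua_com {O n : Type} [CommRing O] [Fintype n] [DecidableEq n] {x y : GL n O} {a b : O}
    {A B : Matrix n n O} (hx : (x : Matrix n n O) = 1 + a • A) (hy : (y : Matrix n n O) = 1 + b • B) :
    ((x * y * x⁻¹ * y⁻¹ : GL n O) : Matrix n n O) =
      1 + (a * b) • ((A * B - B * A) * ((x⁻¹ * y⁻¹ : GL n O) : Matrix n n O)) := by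
  have e : ((x * y : GL n O) : Matrix n n O) =
      ((y * x : GL n O) : Matrix n n O) + (a * b) • (A * B - B * A) := by
    rw [Units.val_mul, Units.val_mul, hx, hy]
    simp only [mul_add, add_mul, one_mul, mul_one, Matrix.smul_mul, Matrix.mul_smul,
      smul_smul, smul_sub, mul_comm b a]
    abel
  rw [mul_assoc (x * y), Units.val_mul, e, add_mul, ← Units.val_mul, Matrix.smul_mul,
    show y * x * (x⁻¹ * y⁻¹) = 1 by group, Units.val_one]

theorem p_WUA (hUNIT : S_UNIT) (hPWR : S_PWR) :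
    S_WUA := by
  intro p _ O n _ _ _ _ _ e he
  have : Module.Finite ℤ_[p] (Matrix n n O) := inferInstanceAs (Module.Finite ℤ_[p] (n → n → O))
  obtain ⟨D, X, hX⟩ := wua_reps p (Matrix n n O)
  obtain ⟨e', rfl⟩ : ∃ e', e = e' + 1 := ⟨e - 1, by
    rcases e with _ | e
    · simp at he
    · rfl⟩
  have hu : ∀ i, IsUnit (1 + (p : O) ^ (e' + 1) • X i) := fun i => by
    rw [pow_succ', mul_smul]; exact hUNIT p O n _
  refine ⟨D, fun i => ⟨(hu i).unit, mem_Cg.2 ⟨X i, rfl⟩⟩, he, ?_, ?_, ?_, ?_, ?_, ?_⟩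
  · exact (Subgroup.eq_top_iff' _).2 fun x => mem_Gam.2 (mem_Cg.1 x.2)
  · intro l l' h x hx
    obtain ⟨d, rfl⟩ := Nat.exists_eq_add_of_le h
    obtain ⟨Y, hY⟩ := mem_Gam.1 hx
    exact mem_Gam.2 ⟨(p : O) ^ d • Y, by rw [hY, smul_smul, ← pow_add, add_assoc (e' + 1)]⟩
  · exact fun l => (MonoidHom.normal_ker _).subgroupOf _
  · intro l x
    obtain ⟨A, hA⟩ := mem_Cg.1 x.2
    obtain ⟨Y, hY⟩ := hPWR p O (Matrix n n O) (e' + 1) l A he
    refine mem_Gam.2 ⟨A + (p : O) • Y, ?_⟩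
    rw [Subgroup.coe_pow, Units.val_pow_eq_pow_val, hA, hY, smul_add, smul_smul, ← pow_succ,
      add_assoc]
  · intro l x hx
    obtain ⟨A, hA⟩ := mem_Gam.1 hx
    obtain ⟨i, W, hW⟩ := hX A
    obtain ⟨Y, hY⟩ := hPWR p O (Matrix n n O) (e' + 1) l (X i) he
    refine ⟨i, mem_Gam.2 ⟨_, wua_left (u := (hu i).unit ^ p ^ l) (x := x) (Y := W - Y) ?_⟩⟩
    rw [Units.val_pow_eq_pow_val, IsUnit.unit_spec, hY, hA, hW, ← Nat.cast_smul_eq_nsmul O,
      smul_add, smul_smul, ← pow_succ, smul_sub, ← add_assoc (e' + 1)]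
    abel
  · intro l x y hy
    obtain ⟨A, hA⟩ := mem_Cg.1 x.2
    obtain ⟨B, hB⟩ := mem_Gam.1 hy
    have h := wua_com hA hB
    rw [← pow_add, show e' + 1 + (e' + 1 + l) = e' + 1 + (l + (e' + 1)) by omega] at h
    exact mem_Gam.2 ⟨_, h⟩

end Pool.Agent.P.MP_7cb106_nt.BI

/-! Step A7. -/

set_option autoImplicit false

namespace Pool.Agent.P.MP_7cb106_nt.BI

open Polynomial Module

section aux
variable {p : ℕ} [Fact p.Prime] {O n : Type} [CommRing O] [Algebra ℤ_[p] O]
  [Module.Finite ℤ_[p] O] [Fintype n] [DecidableEq n] {e : ℕ}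

theorem a7_mk (hUNIT : S_UNIT) (he : 1 ≤ e) {k : ℕ} (hk : e ≤ k) (X : Matrix n n O) :
    ∃ z : Cg O n ((p : O) ^ e), z.1.1 = 1 + (p : O) ^ k • X := by
  obtain ⟨d, rfl⟩ := Nat.exists_eq_add_of_le hk
  obtain ⟨f, rfl⟩ := Nat.exists_eq_add_of_le he
  obtain ⟨u, hu⟩ := hUNIT p O n ((p : O) ^ (f + d) • X)
  rw [smul_smul, ← pow_succ', show f + d + 1 = 1 + f + d by omega] at hu
  exact ⟨⟨u, mem_Cg.2 ⟨(p : O) ^ d • X, by rw [hu, smul_smul, ← pow_add]⟩⟩, hu⟩

omit [Fact p.Prime] [Algebra ℤ_[p] O] [Module.Finite ℤ_[p] O] in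
theorem a7_shift {l : ℕ} {S : Subgroup (Cg O n ((p : O) ^ e))} (hS : Gam p O n e l ≤ S)
    {z u : Cg O n ((p : O) ^ e)} (hz : z ∈ S) (Y : Matrix n n O)
    (h : u.1.1 = z.1.1 + (p : O) ^ (e + l) • Y) : u ∈ S := by
  refine (S.mul_mem_cancel_left (S.inv_mem hz)).1 (hS (mem_Gam.2 ⟨(z⁻¹).1.1 * Y, ?_⟩))
  have : (z⁻¹).1.1 * z.1.1 = 1 := congrArg (fun x : Cg O n ((p : O) ^ e) => x.1.1) (inv_mul_cancel z)
  change (z⁻¹).1.1 * u.1.1 = _
  rw [h, mul_add, this, Matrix.mul_smul]

/-- the logarithms of a subgroup to first order -/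
def a7_s (hUNIT : S_UNIT) (he : 1 ≤ e) {l b : ℕ} (hb : e ≤ b) (hl : e + l ≤ b + b)
    {S : Subgroup (Cg O n ((p : O) ^ e))} (hS : Gam p O n e l ≤ S) :
    AddSubgroup (Matrix n n O) where
  carrier := {X | (∃ X', X = (p : O) ^ b • X') ∧ ∃ z ∈ S, z.1.1 = 1 + X}
  zero_mem' := ⟨⟨0, by simp⟩, 1, S.one_mem, by simp⟩
  add_mem' := by
    rintro _ _ ⟨⟨X, rfl⟩, z, hz, ez⟩ ⟨⟨Y, rfl⟩, w, hw, ew⟩
    obtain ⟨u, hu⟩ := a7_mk (p := p) hUNIT he hb (X + Y)
    obtain ⟨d, hd⟩ := Nat.exists_eq_add_of_le hl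
    refine ⟨⟨X + Y, (smul_add _ _ _).symm⟩, u, a7_shift hS (S.mul_mem hz hw)
      (-((p : O) ^ d • (X * Y))) ?_, by rw [hu, smul_add]⟩
    change _ = z.1.1 * w.1.1 + _
    rw [hu, ez, ew, smul_neg, smul_smul, ← pow_add, ← hd, pow_add]
    simp only [mul_add, add_mul, mul_one, one_mul, smul_add, Matrix.mul_smul, Matrix.smul_mul,
      smul_smul]
    abel
  neg_mem' := by
    rintro _ ⟨⟨X, rfl⟩, z, hz, ez⟩
    obtain ⟨u, hu⟩ := a7_mk (p := p) hUNIT he hb (-X)
    obtain ⟨d, hd⟩ := Nat.exists_eq_add_of_le hl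
    refine ⟨⟨-X, (smul_neg _ _).symm⟩, u, (S.mul_mem_cancel_left hz).1
      (a7_shift hS S.one_mem (-((p : O) ^ d • (X * X))) ?_), by rw [hu, smul_neg]⟩
    change z.1.1 * u.1.1 = 1 + _
    rw [hu, ez, smul_neg, smul_neg, smul_smul, ← pow_add, ← hd, pow_add]
    simp only [mul_add, add_mul, mul_one, one_mul, mul_neg, Matrix.mul_smul, Matrix.smul_mul,
      smul_smul]
    abel

end aux

theorem a7_val (p : ℕ) [Fact p.Prime] (r : ℕ) :
    ∃ (v : ℕ) (a : ℤ_[p]), ((r + 1 : ℕ) : ℤ_[p]) * a = p ^ v := by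
  have h : ((r + 1 : ℕ) : ℤ_[p]) ≠ 0 := Nat.cast_ne_zero.2 (by omega)
  refine ⟨((r + 1 : ℕ) : ℤ_[p]).valuation, ((PadicInt.unitCoeff h)⁻¹ : ℤ_[p]ˣ), ?_⟩
  rw [Units.mul_inv_eq_iff_eq_mul, mul_comm]
  exact PadicInt.unitCoeff_spec h

theorem p_A7 (hUNIT : S_UNIT) (hA7A : S_A7A) :
    S_A7 := by
  intro p _ O _ _ _ r e he
  obtain ⟨v, a0, ha⟩ := a7_val p r
  have ha' : ((r + 1 : ℕ) : O) * algebraMap ℤ_[p] O a0 = (p : O) ^ v := by
    simpa using congrArg (algebraMap ℤ_[p] O) ha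
  refine ⟨2 * e + 1 + v, 2 * (2 * e + 1 + v) + 1, by omega, fun l hl S hn hS hsc hcol z hz => ?_⟩
  obtain ⟨b, hb⟩ : ∃ b, b = e + (l - (2 * e + 1 + v)) := ⟨_, rfl⟩
  rw [← hb] at hcol
  have h1 : e ≤ b := by omega
  have h2 : e + (l + 1) ≤ b + b := by omega
  have key := hA7A p O r e b (a7_s hUNIT he h1 h2 hS) (fun a t X hX => ?_) (fun x => ?_)
  · obtain ⟨X, hX⟩ := mem_Gam.1 hz
    have k1 := key ((p : O) ^ v • X - (algebraMap ℤ_[p] O a0 * X.trace) • 1) (by
      rw [Matrix.trace_sub, Matrix.trace_smul, Matrix.trace_smul, Matrix.trace_one,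
        Fintype.card_fin, ← ha', smul_eq_mul, smul_eq_mul]
      ring)
    have k2 : (p : O) ^ (b + 2 * e + 1) • ((algebraMap ℤ_[p] O a0 * X.trace) • 1) ∈
        a7_s hUNIT he h1 h2 hS := by
      obtain ⟨u, hu⟩ := a7_mk (p := p) hUNIT he (k := b + 2 * e + 1) (by omega)
        ((algebraMap ℤ_[p] O a0 * X.trace) • (1 : Matrix (Fin (r + 1)) (Fin (r + 1)) O))
      refine ⟨⟨_, by rw [add_assoc, pow_add, mul_smul]⟩, u, hsc u
        (1 + (p : O) ^ (b + 2 * e + 1) * (algebraMap ℤ_[p] O a0 * X.trace)) ?_, hu⟩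
      rw [hu, map_add, map_one, smul_smul, Matrix.scalar_apply, Matrix.smul_one_eq_diagonal]
    obtain ⟨-, w, hw, ew⟩ := add_mem k1 k2
    rw [← smul_add, sub_add_cancel, smul_smul, ← pow_add,
      show b + 2 * e + 1 + v = e + l by omega, ← hX] at ew
    obtain rfl : w = z := Subtype.ext (Units.ext ew)
    exact hw
  · obtain ⟨⟨X, rfl⟩, w, hw, ew⟩ := hX
    obtain ⟨g, hg⟩ := a7_mk (p := p) hUNIT he le_rfl
      (Matrix.single (0 : Fin (r + 1)) t.succ a)
    rw [Matrix.smul_single, smul_eq_mul] at hg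
    have hN : Matrix.single (0 : Fin (r + 1)) t.succ ((p : O) ^ e * a) *
        Matrix.single (0 : Fin (r + 1)) t.succ ((p : O) ^ e * a) = 0 :=
      Matrix.single_mul_single_of_ne _ _ _ _ (Fin.succ_ne_zero t) _
    generalize Matrix.single (0 : Fin (r + 1)) t.succ ((p : O) ^ e * a) = N at hg hN ⊢
    have hi : (1 + N) * (1 - N) = 1 := by
      rw [mul_sub, mul_one, add_mul, one_mul, hN, add_zero, add_sub_cancel_right]
    have hg' : (g⁻¹).1.1 = 1 - N := Units.inv_eq_of_mul_eq_one_right (by rw [hg, hi])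
    refine ⟨⟨(1 + N) * X * (1 - N), by rw [Matrix.mul_smul, Matrix.smul_mul]⟩, g * w * g⁻¹,
      hn.conj_mem w hw g, ?_⟩
    change g.1.1 * w.1.1 * (g⁻¹).1.1 = _
    rw [hg, hg', ew, mul_add (1 + N), mul_one, add_mul (1 + N), hi]
  · obtain ⟨u, hu⟩ := a7_mk (p := p) hUNIT he h1 (col x)
    exact ⟨⟨_, rfl⟩, u, hcol u x hu, hu⟩

end Pool.Agent.P.MP_7cb106_nt.BI

/-! Step YEL. -/

set_option autoImplicit false

namespace Pool.Agent.P.MP_7cb106_nt.BI

open Polynomial Module

theorem yel_col {O : Type} [CommRing O] {r : ℕ} (a : O) (x : Fin r → O) :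
    col (a • x) = a • col x := by
  ext i j
  simp only [col, Matrix.of_apply, Matrix.smul_apply, smul_eq_mul]
  split_ifs
  · refine Fin.cases ?_ (fun i => ?_) i <;> simp
  · simp

theorem yel_up {F V G : Type} [Field F] [AddCommGroup V] [Module F V] [Group G]
    {ρ : G →* Module.End F V} {p c j J : ℕ} (hp : 1 ≤ p) {y : Module.End F V}
    (h : y ^ p ^ j ∈ Esh ρ (p ^ (j + c) + 1)) (hJ : j ≤ J) :
    y ^ p ^ J ∈ Esh ρ (p ^ (J + c) + 1) := by
  induction J, hJ using Nat.le_induction with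
  | base => exact h
  | succ n _ ih =>
    have h1 := Esh_pow ih p
    rw [← pow_mul, ← pow_succ] at h1
    refine Esh_anti ?_ h1
    rw [show n + 1 + c = n + c + 1 by ring, pow_succ, mul_add, mul_comm p]
    omega

theorem yel_top (p : ℕ) [Fact p.Prime] (O : Type) [CommRing O] [Algebra ℤ_[p] O] {f : ℕ}
    (ω : Basis (Fin f) ℤ_[p] O) {r : ℕ} (m : ℕ) (T : AddSubgroup (Fin r → O))
    (h1 : ∀ s k, Pi.single s (ω k) ∈ T) (h2 : ∀ x, (p : O) ^ m • x ∈ T) (x : Fin r → O) :
    x ∈ T := by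
  have e : x = ∑ s, ∑ k, ω.repr (x s) k • (Pi.single s (ω k) : Fin r → O) := by
    conv_lhs => rw [← Finset.univ_sum_single x]
    refine Finset.sum_congr rfl fun s _ => ?_
    conv_lhs => rw [← ω.sum_repr (x s)]
    ext t
    by_cases h : t = s
    · subst h; simp
    · simp [Pi.single_eq_of_ne h]
  rw [e]
  refine T.sum_mem fun s _ => T.sum_mem fun k _ => ?_
  obtain ⟨a', ha⟩ := Ideal.mem_span_singleton'.1 (PadicInt.appr_spec m (ω.repr (x s) k))
  have e2 : ω.repr (x s) k = ((ω.repr (x s) k).appr m : ℤ_[p]) + (p : ℤ_[p]) ^ m * a' := by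
    rw [mul_comm, ha]; ring
  rw [e2, add_smul, Nat.cast_smul_eq_nsmul, mul_smul, ← algebraMap_smul O ((p : ℤ_[p]) ^ m),
    map_pow, map_natCast]
  exact T.add_mem (T.nsmul_mem (h1 s k) _) (h2 _)

theorem p_YEL (hA1 : S_A1) (hA6 : S_A6) (hA7 : S_A7) :
    S_YEL := by
  intro p _ O _ _ _ f ω r e F V _ _ _ _ ρ D g u hW hS hsc hfin hV hu u0 uadd
  have pp : p.Prime := Fact.out
  have he : 1 ≤ e := by
    have := hW.hc
    rcases e with _ | e
    · simp at this
    · omega
  obtain ⟨c, l0, -, h7⟩ := hA7 p O r e he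
  by_contra hcon
  push Not at hcon
  choose j hj using hcon c
  obtain ⟨J, hJ0, hJ⟩ : ∃ J, l0 ≤ J ∧ ∀ s k, j s k ≤ J :=
    ⟨l0 + Finset.univ.sup fun y : Fin r × Fin f => j y.1 y.2, Nat.le_add_right _ _, fun s k =>
      (Finset.le_sup (f := fun y : Fin r × Fin f => j y.1 y.2) (Finset.mem_univ (s, k))).trans
        (Nat.le_add_left _ _)⟩
  have un : ∀ (n : ℕ) (x : Fin r → O), u (n • x) = u x ^ n := by
    intro n x
    induction n with
    | zero => rw [zero_nsmul, u0, pow_zero]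
    | succ n ih => rw [succ_nsmul, uadd, ih, pow_succ]
  have uneg : ∀ x, u (-x) = (u x)⁻¹ := fun x =>
    eq_inv_of_mul_eq_one_left (by rw [← uadd, neg_add_cancel, u0])
  have hG : Gam p O (Fin (r + 1)) e (J + c + 1) ≤ Ssh ρ (p ^ (J + c) + 1) := fun x hx =>
    Esh_anti (Nat.pow_lt_pow_right pp.one_lt (Nat.lt_succ_self _))
      (hA1 p e F V _ _ D g ρ hW hS (J + c + 1) hx)
  let T : AddSubgroup (Fin r → O) :=
    { carrier := {x | u ((p : O) ^ J • x) ∈ Ssh ρ (p ^ (J + c) + 1)}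
      add_mem' := fun {a b} ha hb => by
        change u ((p : O) ^ J • (a + b)) ∈ Ssh ρ (p ^ (J + c) + 1)
        rw [smul_add, uadd]
        exact mul_mem ha hb
      zero_mem' := by
        change u ((p : O) ^ J • (0 : Fin r → O)) ∈ Ssh ρ (p ^ (J + c) + 1)
        rw [smul_zero, u0]
        exact one_mem _
      neg_mem' := fun {a} ha => by
        change u ((p : O) ^ J • (-a)) ∈ Ssh ρ (p ^ (J + c) + 1)
        rw [smul_neg, uneg]
        exact inv_mem ha }
  have hT : ∀ x, x ∈ T := yel_top p O ω (c + 1) T (fun s k => by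
      change u ((p : O) ^ J • (Pi.single s (ω k) : Fin r → O)) ∈ Ssh ρ _
      rw [← Nat.cast_pow p J, Nat.cast_smul_eq_nsmul, un, mem_Ssh, rho_pow_sub_one]
      exact yel_up pp.one_le (hj s k) (hJ s k))
    fun x => by
      change u ((p : O) ^ J • (p : O) ^ (c + 1) • x) ∈ Ssh ρ _
      refine hG (mem_Gam.2 ⟨col x, ?_⟩)
      refine (hu _).trans ?_
      rw [yel_col, yel_col, smul_smul, smul_smul, ← pow_add, ← pow_add, add_assoc, add_assoc]
  have h8 := h7 (J + c) (hJ0.trans (Nat.le_add_right _ _)) (Ssh ρ (p ^ (J + c) + 1))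
    (Ssh_normal _) hG (fun z a hz => by rw [mem_Ssh, hsc z a hz, sub_self]; exact zero_mem _)
    fun z x hz => by
      have e1 : z = u ((p : O) ^ J • x) := by
        refine Subtype.ext (Units.ext ?_)
        refine hz.trans (Eq.trans ?_ (hu _).symm)
        rw [yel_col, smul_smul, ← pow_add, Nat.add_sub_cancel]
      rw [e1]
      exact hT x
  obtain ⟨i, hi⟩ := hA6 p e F V _ _ D g ρ hW hS hfin hV (J + c)
  exact hi (h8 (hW.pow _ _))

end Pool.Agent.P.MP_7cb106_nt.BI

/-! Step ZS2. -/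

set_option autoImplicit false

namespace Pool.Agent.P.MP_7cb106_nt.BI

open Polynomial Module

theorem zs2_step {A : Type} [CommRing A] (g : RingSeminorm A) (h1 : g 1 ≤ 1) (hp : IsPowMul g)
    (c : A) : ∃ g' : RingSeminorm A, (∀ a, g' a ≤ g a) ∧ IsPowMul g' ∧ g' c = g c ∧
      (∀ a, g' (c * a) = g' c * g' a) ∧
      ∀ x, (∀ a, g (x * a) = g x * g a) → g' x = g x ∧ ∀ a, g' (x * a) = g' x * g' a := by
  by_cases hc : g c = 0
  · refine ⟨g, fun _ => le_rfl, hp, rfl, fun a => le_antisymm (map_mul_le_mul g _ _) ?_,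
      fun x hx => ⟨rfl, hx⟩⟩
    rw [hc, zero_mul]; exact apply_nonneg g _
  · exact ⟨seminormFromConst h1 hc hp, seminormFromConst_le_seminorm h1 hc hp,
      seminormFromConst_isPowMul h1 hc hp, seminormFromConst_apply_c h1 hc hp,
      seminormFromConst_const_mul h1 hc hp, fun x hx =>
        ⟨seminormFromConst_apply_of_isMul h1 hc hp hx, seminormFromConst_isMul_of_isMul h1 hc hp hx⟩⟩

theorem zs2_fin {A : Type} [CommRing A] (f : RingSeminorm A) (y : A) (hp : IsPowMul f)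
    (h1 : f 1 ≤ 1) (u : Finset A) : ∃ g : RingSeminorm A, (∀ a, g a ≤ f a) ∧ IsPowMul g ∧
      g y = f y ∧ (∀ a, g (y * a) = g y * g a) ∧ ∀ c ∈ u, ∀ a, g (c * a) = g c * g a := by
  classical
  induction u using Finset.induction_on with
  | empty =>
    obtain ⟨g, a, b, c, d, -⟩ := zs2_step f h1 hp y
    exact ⟨g, a, b, c, d, by simp⟩
  | insert c u _ ih =>
    obtain ⟨g, a1, a2, a3, a4, a5⟩ := ih
    obtain ⟨g', b1, b2, -, b4, b5⟩ := zs2_step g ((a1 1).trans h1) a2 c
    refine ⟨g', fun a => (b1 a).trans (a1 a), b2, (b5 y a4).1.trans a3, (b5 y a4).2, fun x hx => ?_⟩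
    rcases Finset.mem_insert.1 hx with rfl | hx
    · exact b4
    · exact (b5 x (a5 x hx)).2

theorem p_ZS2 :
    S_ZS2 := by
  intro A _ f y hp h1 hy
  have hK : IsCompact (Set.univ.pi fun a : A => Set.Icc (0 : ℝ) (f a)) :=
    isCompact_univ_pi fun _ => isCompact_Icc
  let t : A → Set (A → ℝ) := fun c => {g | g y = f y} ∩ ({g | ∀ a, g (c + a) ≤ g c + g a} ∩
    ({g | g (-c) = g c} ∩ {g | ∀ a, g (c * a) = g c * g a}))
  have ht : ∀ c, IsClosed (t c) := fun c => by
    refine (isClosed_eq (by fun_prop) (by fun_prop)).inter (IsClosed.inter ?_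
      ((isClosed_eq (by fun_prop) (by fun_prop)).inter ?_))
    · rw [Set.ofPred_forall]
      exact isClosed_iInter fun a => isClosed_le (by fun_prop) (by fun_prop)
    · rw [Set.ofPred_forall]
      exact isClosed_iInter fun a => isClosed_eq (by fun_prop) (by fun_prop)
  obtain ⟨g, hg, hg'⟩ := hK.inter_iInter_nonempty t ht fun u => by
    obtain ⟨g, a1, -, a3, -, a5⟩ := zs2_fin f y hp h1 u
    refine ⟨g, fun a _ => ⟨apply_nonneg g a, a1 a⟩, Set.mem_iInter₂.2 fun c hc => ?_⟩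
    exact ⟨a3, fun a => map_add_le_add g c a, map_neg_eq_map g c, a5 c hc⟩
  have h := Set.mem_iInter.1 hg'
  refine ⟨{ toFun := g
            map_zero' := le_antisymm ((hg 0 trivial).2.trans_eq (map_zero f)) (hg 0 trivial).1
            add_le' := fun a b => (h a).2.1 b
            neg' := fun a => (h a).2.2.1
            mul_le' := fun a b => ((h a).2.2.2 b).le }, fun a => (hg a trivial).2, ?_,
    fun a b => (h a).2.2.2 b⟩
  exact fun e => hy ((h y).1.symm.trans e)

end Pool.Agent.P.MP_7cb106_nt.BI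

/-! Step FLD. -/

set_option autoImplicit false

namespace Pool.Agent.P.MP_7cb106_nt.BI

open Polynomial Module

theorem fld_compl (K : Type) [NormedField K] (h : ∀ x y : K, ‖x + y‖ ≤ max ‖x‖ ‖y‖) :
    IsUltrametricDist (UniformSpace.Completion K) := by
  refine IsUltrametricDist.isUltrametricDist_of_forall_norm_add_le_max_norm fun x y => ?_
  refine UniformSpace.Completion.induction_on₂ x y (isClosed_le (by fun_prop) (by fun_prop))
    fun a b => ?_
  rw [← UniformSpace.Completion.coe_add]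
  simpa only [UniformSpace.Completion.norm_coe] using h a b

theorem fld_two (A K : Type) [CommRing A] [Field K] (j : A →+* K) (w : Valuation K NNReal)
    (hs : ∀ z : K, ∃ x y, j y ≠ 0 ∧ z = j x / j y) :
    ∃ (L : Type) (_ : NormedField L) (_ : IsUltrametricDist L) (_ : CompleteSpace L)
      (i : A →+* L), (∀ a, ‖i a‖ = (w (j a) : ℝ)) ∧
      ∀ (z : L) (ε : ℝ), 0 < ε → ∃ x y, i y ≠ 0 ∧ ‖z - i x / i y‖ < ε := by
  have hadd : ∀ x y : K, (w (x + y) : ℝ) ≤ max (w x : ℝ) (w y) := fun x y => by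
    exact_mod_cast w.map_add x y
  let ab : AbsoluteValue K ℝ :=
    { toFun := fun x => (w x : ℝ)
      map_mul' := fun x y => by simp
      nonneg' := fun x => (w x).2
      eq_zero' := fun x => by simp
      add_le' := fun x y => (hadd x y).trans (max_le (by simp) (by simp)) }
  letI : NormedField K := ab.toNormedField
  have hn : ∀ x : K, ‖x‖ = (w x : ℝ) := fun x => rfl
  refine ⟨UniformSpace.Completion K, inferInstance, fld_compl K hadd, inferInstance,
    (UniformSpace.Completion.coeRingHom : K →+* _).comp j, fun a => ?_, fun z ε hε => ?_⟩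
  · exact UniformSpace.Completion.norm_coe _
  · obtain ⟨k, hk⟩ := (UniformSpace.Completion.denseRange_coe (α := K)).exists_dist_lt z hε
    obtain ⟨x, y, hy, rfl⟩ := hs k
    refine ⟨x, y, ?_, ?_⟩
    · exact (map_ne_zero (UniformSpace.Completion.coeRingHom : K →+* _)).2 hy
    · rw [RingHom.comp_apply, RingHom.comp_apply, ← map_div₀, ← dist_eq_norm]
      exact hk

theorem p_FLD :
    S_FLD := by
  intro A _ g hg
  let v : Valuation A NNReal :=
    { toFun := fun a => ⟨g a, hg.nonneg a⟩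
      map_zero' := Subtype.ext hg.zero
      map_one' := Subtype.ext hg.one
      map_mul' := fun a b => Subtype.ext (hg.mul a b)
      map_add_le_max' := fun a b => le_max_iff.2 (le_max_iff.1 (hg.add_le a b)) }
  have hv : ∀ a, (v a : ℝ) = g a := fun a => rfl
  haveI : v.supp.IsPrime := inferInstance
  let u : Valuation (A ⧸ v.supp) NNReal := v.onQuot le_rfl
  have hu0 : ∀ b, u b = 0 → b = 0 := fun b hb => by
    have h1 : b ∈ u.supp := hb
    rwa [show u.supp = 0 from v.supp_quot_supp] at h1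
  have hS : nonZeroDivisors (A ⧸ v.supp) ≤ u.supp.primeCompl := fun b hb h =>
    nonZeroDivisors.ne_zero hb (hu0 b h)
  let K := FractionRing (A ⧸ v.supp)
  let w : Valuation K NNReal := u.extendToLocalization hS K
  obtain ⟨L, h1, h2, h3, i, hi, hd⟩ := fld_two A K
    ((algebraMap (A ⧸ v.supp) K).comp (Ideal.Quotient.mk v.supp)) w
    (fun z => by
      obtain ⟨x, y, hy, rfl⟩ := IsFractionRing.div_surjective (A := A ⧸ v.supp) z
      obtain ⟨a, rfl⟩ := Ideal.Quotient.mk_surjective x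
      obtain ⟨b, rfl⟩ := Ideal.Quotient.mk_surjective y
      exact ⟨a, b, IsFractionRing.to_map_ne_zero_of_mem_nonZeroDivisors (K := K) (R := A ⧸ v.supp) hy,
        rfl⟩)
  refine ⟨L, h1, h2, h3, i, fun a => ?_, hd⟩
  rw [hi, RingHom.comp_apply, Valuation.extendToLocalization_apply_map_apply]
  rfl

end Pool.Agent.P.MP_7cb106_nt.BI

/-! Step ACL. -/

set_option autoImplicit false

namespace Pool.Agent.P.MP_7cb106_nt.BI

open Polynomial Module

theorem p_ACL :
    S_ACL := by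
  intro L _ _ _ ⟨x, x0, x1⟩
  letI : NontriviallyNormedField L :=
    { ‹NormedField L› with
      non_trivial := ⟨x⁻¹, by rw [norm_inv]; exact (one_lt_inv₀ (norm_pos_iff.2 x0)).2 x1⟩ }
  letI : NormedField (AlgebraicClosure L) := spectralNorm.normedField L (AlgebraicClosure L)
  exact ⟨AlgebraicClosure L, this,
    IsUltrametricDist.isUltrametricDist_of_forall_norm_add_le_max_norm
      (isNonarchimedean_spectralNorm (K := L) (L := AlgebraicClosure L)), inferInstance,
    algebraMap L (AlgebraicClosure L), fun y => spectralNorm_extends y⟩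

end Pool.Agent.P.MP_7cb106_nt.BI

/-! Step IN1. -/

set_option autoImplicit false

namespace Pool.Agent.P.MP_7cb106_nt.BI

open Polynomial Module

theorem in1_mul {C : Type} [NormedField C] [IsUltrametricDist C] {a a' b b' : C} {ε : ℝ}
    (ha : ‖a‖ ≤ 1) (hb' : ‖b'‖ ≤ 1) (h1 : ‖a - a'‖ ≤ ε) (h2 : ‖b - b'‖ ≤ ε) :
    ‖a * b - a' * b'‖ ≤ ε := by
  have : a * b - a' * b' = a * (b - b') + (a - a') * b' := by ring
  rw [this]
  refine (IsUltrametricDist.norm_add_le_max _ _).trans (max_le ?_ ?_)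
  · rw [norm_mul]; exact (mul_le_of_le_one_left (norm_nonneg _) ha).trans h2
  · rw [norm_mul]; exact (mul_le_of_le_one_right (norm_nonneg _) hb').trans h1

theorem in1_prod {C ι : Type} [NormedField C] [IsUltrametricDist C] {a b : ι → C} {ε : ℝ}
    (hε : 0 ≤ ε) (ha : ∀ i, ‖a i‖ ≤ 1) (hb : ∀ i, ‖b i‖ ≤ 1) (h : ∀ i, ‖a i - b i‖ ≤ ε)
    (s : Finset ι) : ‖∏ i ∈ s, a i - ∏ i ∈ s, b i‖ ≤ ε := by
  classical
  induction s using Finset.induction_on with
  | empty => simpa using hε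
  | insert i s hi ih =>
    rw [Finset.prod_insert hi, Finset.prod_insert hi]
    refine in1_mul (ha i) ?_ (h i) ih
    rw [norm_prod]
    exact Finset.prod_le_one (fun _ _ => norm_nonneg _) fun j _ => hb j

theorem in1_sub {C : Type} [NormedField C] [IsUltrametricDist C] {a b : C}
    (ha : ‖a‖ ≤ 1) (hb : ‖b‖ ≤ 1) : ‖a - b‖ ≤ 1 := by
  rw [sub_eq_add_neg]
  exact (IsUltrametricDist.norm_add_le_max _ _).trans (max_le ha (by rwa [norm_neg]))

theorem in1_red_pow (p : ℕ) [Fact p.Prime] (C : Type) [CommRing C] [CharP C p] (a : ℤ_[p])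
    (j : ℕ) : red p C a ^ p ^ j = red p C a := by
  simp only [red, RingHom.comp_apply]
  rw [← map_pow, ZMod.pow_card_pow]

theorem in1_red_norm (p : ℕ) [Fact p.Prime] (C : Type) [NormedField C] [IsUltrametricDist C]
    [CharP C p] (a : ℤ_[p]) : ‖red p C a‖ ≤ 1 := by
  simp only [red, RingHom.comp_apply]
  rw [← ZMod.natCast_zmod_val (PadicInt.toZMod a), map_natCast]
  exact IsUltrametricDist.norm_natCast_le_one C _

theorem in1_norm (p : ℕ) [Fact p.Prime] {O C : Type} [CommRing O] [NormedField C]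
    [IsUltrametricDist C] [CharP C p] {μ : O → C} (h : Chr (fun c : C => ‖c‖) μ) (a : O → ℤ_[p])
    {T T0 : ℝ} (hT : 1 < T) (hT0 : T ≤ T0) {M : ℕ} {Φ : O → C} (hΦ : Φ ∈ Sp (Ch μ 1) T)
    (he : ∀ x, ‖red p C (a x) - Φ x‖ ≤ (T ^ M)⁻¹) :
    ∃ Ψ ∈ Sp (Ch μ 1) (T0 ^ p), ∀ x, ‖red p C (a x) - Ψ x‖ ≤ (T0 ^ M)⁻¹ := by
  classical
  have hp : p.Prime := Fact.out
  have hex : ∃ j : ℕ, T0 ≤ T ^ p ^ j := by
    obtain ⟨n, hn⟩ := pow_unbounded_of_one_lt T0 hT
    exact ⟨n, hn.le.trans (pow_le_pow_right₀ hT.le (Nat.lt_pow_self hp.one_lt).le)⟩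
  have h1 : T0 ≤ T ^ p ^ Nat.find hex := Nat.find_spec hex
  have h2 : T ^ p ^ Nat.find hex ≤ T0 ^ p := by
    rcases hj : Nat.find hex with _ | k
    · simpa using hT0.trans (le_self_pow₀ (hT.le.trans hT0) hp.ne_zero)
    · have := Nat.find_min hex (m := k) (by omega)
      rw [pow_succ, pow_mul]
      exact pow_le_pow_left₀ (by positivity) (not_le.1 this).le _
  refine ⟨Φ ^ p ^ Nat.find hex, Sp_mono h2 (Sp_pow h hΦ _), fun x => ?_⟩
  rw [← in1_red_pow p C (a x) (Nat.find hex), Pi.pow_apply, ← sub_pow_char_pow, norm_pow]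
  refine (pow_le_pow_left₀ (norm_nonneg _) (he x) _).trans ?_
  rw [inv_pow, ← pow_mul, mul_comm, pow_mul]
  have h0 : 0 < T0 := by linarith
  exact inv_anti₀ (by positivity) (pow_le_pow_left₀ h0.le h1 _)

theorem in1_ind (p : ℕ) [Fact p.Prime] {O : Type} (C : Type) [CommRing O] [Algebra ℤ_[p] O]
    [CommRing C] [CharP C p] {f : ℕ} (ω : Basis (Fin f) ℤ_[p] O) (x : O) :
    ∏ i, (1 - red p C (ω.coord i x) ^ (p - 1)) = ind C (p : O) x := by
  have hp : p.Prime := Fact.out
  have hp1 : p - 1 ≠ 0 := by have := hp.one_lt; omega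
  unfold ind
  split_ifs with hx
  · obtain ⟨y, rfl⟩ := hx
    refine Finset.prod_eq_one fun i _ => ?_
    have : (p : O) * y = (p : ℤ_[p]) • y := by rw [Algebra.smul_def, map_natCast]
    rw [this, map_smul, smul_eq_mul, map_mul, map_natCast, CharP.cast_eq_zero, zero_mul,
      zero_pow hp1, sub_zero]
  · by_contra hne
    apply hx
    have : ∀ i, ∃ c, ω.repr x i = (p : ℤ_[p]) * c := by
      intro i
      have h0 : PadicInt.toZMod (ω.repr x i) = 0 := by
        by_contra h0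
        refine hne (Finset.prod_eq_zero (Finset.mem_univ i) ?_)
        simp only [red, RingHom.comp_apply, Basis.coord_apply]
        rw [← map_pow, ZMod.pow_card_sub_one_eq_one h0, map_one, sub_self]
      have h1 : ω.repr x i ∈ RingHom.ker (PadicInt.toZMod (p := p)) := h0
      rw [PadicInt.ker_toZMod, PadicInt.maximalIdeal_eq_span_p] at h1
      exact Ideal.mem_span_singleton.1 h1
    choose c hc using this
    refine ⟨∑ i, c i • ω i, ?_⟩
    conv_lhs => rw [← ω.sum_repr x]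
    rw [Finset.mul_sum]
    refine Finset.sum_congr rfl fun i _ => ?_
    rw [hc i, mul_smul, Algebra.smul_def (p : ℤ_[p]), map_natCast]

theorem p_IN1 :
    S_IN1 := by
  intro p _ O C _ _ _ _ _ μ f ω h hD M
  classical
  have hp : p.Prime := Fact.out
  set n0 := p * (p - 1) * f + 1 with hn0
  choose T hT φ hφ he using fun i => hD (ω.coord i) (n0 * M)
  set T0 : ℝ := 2 + ∑ i, T i with hT0
  have hs : 0 ≤ ∑ i, T i := Finset.sum_nonneg fun i _ => by linarith [hT i]
  have h1 : 1 < T0 := by linarith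
  have hle : ∀ i, T i ≤ T0 := fun i => by
    have := Finset.single_le_sum (f := T) (fun i _ => by linarith [hT i]) (Finset.mem_univ i)
    linarith
  choose ψ hψ hψe using fun i => in1_norm p h (fun x => ω.coord i x) (hT i) (hle i) (hφ i) (he i)
  have hS : 1 ≤ (T0 ^ p) ^ (p - 1) := one_le_pow₀ (one_le_pow₀ h1.le)
  have hmem : ∀ s : Finset (Fin f), ∏ i ∈ s, (1 - ψ i ^ (p - 1)) ∈
      Sp (Ch μ 1) (((T0 ^ p) ^ (p - 1)) ^ s.card) := by
    intro s
    induction s using Finset.induction_on with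
    | empty => simpa using one_mem_Sp h
    | insert i s hi ih =>
      rw [Finset.prod_insert hi, Finset.card_insert_of_notMem hi, pow_succ']
      exact Sp_mul h (sub_mem (Sp_mono hS (one_mem_Sp h)) (Sp_pow h (hψ i) _)) ih
  refine ⟨T0 ^ n0, one_lt_pow₀ h1 (by omega), ∏ i, (1 - ψ i ^ (p - 1)),
    Sp_mono ?_ (hmem Finset.univ), fun x => ?_⟩
  · rw [Finset.card_univ, Fintype.card_fin, ← pow_mul, ← pow_mul]
    exact pow_le_pow_right₀ h1.le (by rw [hn0, mul_assoc]; omega)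
  · have hε : (T0 ^ (n0 * M))⁻¹ ≤ 1 := inv_le_one_of_one_le₀ (one_le_pow₀ h1.le)
    have hψ1 : ∀ i, ‖ψ i x‖ ≤ 1 := fun i => by
      have := in1_sub (in1_red_norm p C (ω.coord i x)) ((hψe i x).trans hε)
      rwa [sub_sub_cancel] at this
    have hpw : ∀ (a : C), ‖a‖ ≤ 1 → ‖1 - a ^ (p - 1)‖ ≤ 1 := fun a ha =>
      in1_sub norm_one.le (by rw [norm_pow]; exact pow_le_one₀ (norm_nonneg _) ha)
    rw [← in1_ind p C ω x, Finset.prod_apply, ← pow_mul]
    refine in1_prod (by positivity) (fun i => hpw _ (hψ1 i))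
      (fun i => hpw _ (in1_red_norm p C _)) (fun i => ?_) _
    have := in1_prod (ι := ℕ) (a := fun _ => red p C (ω.coord i x)) (b := fun _ => ψ i x)
      (by positivity) (fun _ => in1_red_norm p C _) (fun _ => hψ1 i) (fun _ => hψe i x)
      (Finset.range (p - 1))
    rw [Finset.prod_const, Finset.prod_const, Finset.card_range] at this
    simpa using this

end Pool.Agent.P.MP_7cb106_nt.BI

/-! Step VAND. -/

set_option autoImplicit false

namespace Pool.Agent.P.MP_7cb106_nt.BI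

open Polynomial Module

theorem p_VAND (hVA2 : S_VA2) (hVA3 : S_VA3) :
    S_VAND := by
  intro p _ F ι _ _ _ _ a e g c hc
  by_contra hn
  push Not at hn
  apply hc
  let σ := Fintype.equivFin ι
  have h := hVA3 (PowerSeries F) PowerSeries.X (p ^ g) (p ^ e * (g * p ^ g)) (Fintype.card ι)
    (fun i j => (1 + PowerSeries.X : PowerSeries F) ^ (a (σ.symm i) + p ^ e * (j : ℕ)))
    PowerSeries.X_ne_zero (fun i j => hVA2 p F _ e g j) 1
    (fun w => PowerSeries.C (c fun i => w (σ i))) fun j => by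
      have h1 := map_dvd (aeval (1 + PowerSeries.X : PowerSeries F)) (hn fun i => j (σ i))
      simp only [map_pow, map_sub, aeval_X, map_one, add_sub_cancel_left, map_sum, map_mul,
        aeval_C] at h1
      rw [add_comm 1]
      convert h1 using 1
      refine Fintype.sum_equiv (Equiv.arrowCongr σ.symm (Equiv.refl _)) _ _ fun w => ?_
      simp only [← pow_mul]
      rw [Finset.prod_pow_eq_pow_sum, ← σ.sum_comp]
      simp only [Equiv.symm_apply_apply]
      rfl
  funext w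
  have h2 := h fun i => w (σ.symm i)
  simp only [Equiv.symm_apply_apply, pow_one, PowerSeries.X_dvd_iff,
    PowerSeries.constantCoeff_C] at h2
  exact h2

end Pool.Agent.P.MP_7cb106_nt.BI

/-! Step NUM. -/

set_option autoImplicit false

namespace Pool.Agent.P.MP_7cb106_nt.BI

open Polynomial Module

theorem p_NUM :
    S_NUM := by
  intro p m D C c N hp hm
  obtain ⟨m, rfl⟩ := Nat.exists_eq_add_of_le' hm
  have hl : ∀ x, x ≤ p ^ x := fun x => (Nat.lt_pow_self hp).le
  have h0 : ∀ x, 0 < p ^ x := fun x => Nat.pow_pos (by omega)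
  obtain ⟨c3, h3⟩ : ∃ c3, 16 * (m + 1) ^ 2 * p ^ c + 2 ≤ p ^ c3 := ⟨_, hl _⟩
  obtain ⟨t, ht⟩ : ∃ t, 1 + 2 * C + 2 * m + (3 * m + 1) * (N + (D + 1)) + 2 * (m + 1) * c3 < t :=
    ⟨_, Nat.lt_succ_self _⟩
  obtain ⟨s, hs⟩ : ∃ s, s = c3 + t := ⟨_, rfl⟩
  obtain ⟨g, hg⟩ : ∃ g, g = (4 * m + 3) * t + (4 * m + 2) * c3 := ⟨_, rfl⟩
  have e1 : 4 * (m + 1) * s = s + g + c3 := by rw [hs, hg]; ring
  have a2 : (D + 1) * p ^ ((4 * (m + 1) + 2) * s + N) ≤
      p ^ ((4 * (m + 1) + 2) * s + N + (D + 1)) := by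
    rw [pow_add _ _ (D + 1), mul_comm]
    exact Nat.mul_le_mul_left _ (hl _)
  refine ⟨s, g, (4 * (m + 1) + 2) * s + N + (D + 1), ?_, a2, ?_⟩
  · have a1 : g ≤ 4 * (m + 1) * p ^ s := le_trans (by omega) (Nat.mul_le_mul_left _ (hl s))
    have a3 : 1 ≤ p ^ s * p ^ g := Nat.mul_pos (h0 _) (h0 _)
    rw [e1, pow_add, pow_add]
    calc 2 * (2 * (m + 1) * (p ^ c * (g * p ^ g)) + 1)
        ≤ 2 * (2 * (m + 1) * (p ^ c * (4 * (m + 1) * p ^ s * p ^ g)) + p ^ s * p ^ g) := by gcongr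
      _ = p ^ s * p ^ g * (16 * (m + 1) ^ 2 * p ^ c + 2) := by ring
      _ ≤ _ := Nat.mul_le_mul_left _ h3
  · generalize hn : (4 * (m + 1) + 2) * s + N + (D + 1) = n at a2
    have a1 : (D + 1) * p ^ ((4 * (m + 1) + 2) * s + N) + 1 ≤ p ^ (n + 1) := by
      have := h0 n
      have := Nat.mul_le_mul_left (p ^ n) hp
      rw [pow_succ]; omega
    calc 2 * p ^ ((m + 1) * n) *
          (C * ((D + 1) * p ^ ((4 * (m + 1) + 2) * s + N) + 1) ^ (m + 1 - 1)) ^ 2
        ≤ p * p ^ ((m + 1) * n) * (p ^ C * (p ^ (n + 1)) ^ (m + 1 - 1)) ^ 2 := by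
          gcongr
          exact hl C
      _ = p ^ (1 + (m + 1) * n + 2 * C + 2 * m * (n + 1)) := by
          rw [Nat.add_sub_cancel]; ring
      _ < _ := by
          rw [← pow_add]
          refine Nat.pow_lt_pow_right hp ?_
          have e2 : 2 * (m + 1) * g + (m + 1) * (4 * (m + 1) * s) + 2 * (m + 1) * c3 =
              (12 * m ^ 2 + 22 * m + 6) * s + 4 * s := by rw [hs, hg]; ring
          have e3 : 1 + (m + 1) * n + 2 * C + 2 * m * (n + 1) = (12 * m ^ 2 + 22 * m + 6) * s +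
              (1 + 2 * C + 2 * m + (3 * m + 1) * (N + (D + 1))) := by rw [← hn]; ring
          omega

end Pool.Agent.P.MP_7cb106_nt.BI

/-! Step CO1. -/

set_option autoImplicit false

namespace Pool.Agent.P.MP_7cb106_nt.BI

open Polynomial Module

theorem co1_dp (hDP5 : S_DP5) (p : ℕ) [Fact p.Prime] (O : Type) [CommRing O] [IsDomain O]
    [Algebra ℤ_[p] O] [Module.Finite ℤ_[p] O] [Module.Free ℤ_[p] O] (C : Type) [NormedField C]
    [IsUltrametricDist C] [IsAlgClosed C] [CharP C p] (μ : O → C)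
    (h : Chr (fun a : C => ‖a‖) μ) (h1 : ∃ x, μ x ≠ 1) : DP p μ := by
  intro l M
  obtain ⟨T, hT, n, th, s, hth, hs⟩ := hDP5 p O C μ h.zero h.add h.near h1 l M
  refine ⟨T, hT, ∑ k, th k • fun x => μ (1 * s k * x),
    sum_mem fun k _ => smul_mem_Sp (hth k) ⟨s k, rfl⟩, fun x => ?_⟩
  simpa [red] using hs x

theorem co1_h (hUNIT : S_UNIT) (p : ℕ) [Fact p.Prime] (O : Type) [CommRing O] [Algebra ℤ_[p] O]
    [Module.Finite ℤ_[p] O] (r e : ℕ) (he : 1 ≤ e) (s : Fin r) (σ : Fin r → O) :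
    ∃ h ∈ Cg O (Fin r) ((p : O) ^ e), ∀ x, (h : Matrix (Fin r) (Fin r) O).mulVec x =
      x + Pi.single s ((p : O) ^ e * ∑ i, σ i * x i) := by
  obtain ⟨e', rfl⟩ := Nat.exists_eq_add_of_le he
  let M : Matrix (Fin r) (Fin r) O := Matrix.of fun i j => if i = s then σ j else 0
  obtain ⟨h, hh⟩ := hUNIT p O (Fin r) ((p : O) ^ e' • M)
  have hh' : (h : Matrix (Fin r) (Fin r) O) = 1 + (p : O) ^ (1 + e') • M := by
    rw [hh, smul_smul, pow_add, pow_one]
  refine ⟨h, mem_Cg.2 ⟨M, hh'⟩, fun x => ?_⟩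
  rw [hh', Matrix.add_mulVec, Matrix.one_mulVec, Matrix.smul_mulVec]
  congr 1
  funext i
  by_cases hi : i = s
  · subst hi; simp [M, Matrix.mulVec, dotProduct]
  · simp [M, Matrix.mulVec, dotProduct, hi]

theorem p_CO1 (hCO0 : S_CO0) (hA5 : S_A5) (hDP5 : S_DP5) (hIND : S_IND) (hANN : S_ANN) (hPRK : S_PRK) (hUNIT : S_UNIT) :
    S_CO1 := by
  intro p hp O _ _ _ f ω r e F V G _ _ _ _ _ Γ D g ρ u hWU hSm h0 hadd hH ⟨c, s0, k0, hy⟩ γ
  have := Module.Finite.of_basis ω
  have := Module.Free.of_basis ω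
  have he : 1 ≤ e := by
    rcases Nat.eq_zero_or_pos e with h | h
    · have := hWU.hc; rw [h, pow_zero] at this; omega
    · exact h
  obtain ⟨C, i1, i2, i3, i4, j, lam, hj, hlam, hne, hb⟩ := hCO0 p F V G _ ρ u _ c h0 hadd hy
  have hμ : Chr (fun a : C => ‖a‖) fun a : O => lam (Pi.single s0 a) :=
    ⟨by simp [hlam.zero], fun a b => by rw [Pi.single_add, hlam.add], fun a => hlam.near _⟩
  obtain ⟨N, hN⟩ := hIND p O C _ f ω hμ (co1_dp hDP5 p O C _ hμ ⟨_, hne⟩) γ e
  refine ⟨N + r, fun s z hz => ?_⟩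
  obtain ⟨Ψ, hΨ, hΨ'⟩ := hN s
  have ha : Finsupp.linearCombination F (fun x => ρ (u x)) z ∈
      Esh ρ (p ^ ((γ + 2) * s + (N + r))) := by
    refine hA5 p e F V G Γ D g ρ hWU hSm _ _ ?_ hz
    rw [Finsupp.linearCombination_apply]
    exact Submodule.finsuppSum_mem _ _ _ _ fun x _ =>
      Submodule.smul_mem _ _ (Submodule.subset_span ⟨_, rfl⟩)
  refine (hPRK p O f ω r (γ * s)).2.2 F z (hANN F O C r j lam _ _ _ Ψ _
    ((1 / 2) ^ p ^ ((γ + 2) * s + (N + r))) z hj hlam hμ hΨ hΨ' (by positivity) ?_ fun σ => ?_)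
  · have h1 : p ^ ((γ + 2) * s + N) * r < p ^ ((γ + 2) * s + (N + r)) := by
      rw [← add_assoc, pow_add p _ r]
      exact Nat.mul_lt_mul_of_pos_left (Nat.lt_pow_self hp.out.one_lt) (pow_pos hp.out.pos _)
    rw [← pow_mul, one_div, inv_pow, ← div_eq_mul_inv, div_lt_one (by positivity)]
    exact pow_lt_pow_right₀ one_lt_two h1
  · obtain ⟨h, hh, hx⟩ := co1_h hUNIT p O r e he s0 σ
    obtain ⟨d, hd⟩ := hH h hh
    have := hb _ z _ d hd ha
    simpa only [hx, hlam.add] using this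

end Pool.Agent.P.MP_7cb106_nt.BI

/-! Step INT. -/

set_option autoImplicit false

namespace Pool.Agent.P.MP_7cb106_nt.BI

open Polynomial Module

theorem p_INT :
    S_INT := by
  intro p _ K _ _ _ _ _
  have : FaithfulSMul ℤ_[p] K := (faithfulSMul_iff_algebraMap_injective ℤ_[p] K).2 (by
    rw [IsScalarTower.algebraMap_eq ℤ_[p] ℚ_[p] K]
    exact (algebraMap ℚ_[p] K).injective.comp (IsFractionRing.injective ℤ_[p] ℚ_[p]))
  exact ⟨IsIntegralClosure.finite ℤ_[p] ℚ_[p] K _, IsIntegralClosure.module_free ℤ_[p] ℚ_[p] K _,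
    IsIntegralClosure.rank ℤ_[p] ℚ_[p] K _⟩

end Pool.Agent.P.MP_7cb106_nt.BI
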