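import Pool.Agent.P.MP_7cb106_nt.BI.Iface

/-! Step A2. -/

set_option autoImplicit false

namespace Pool.Agent.P.MP_7cb106_nt.BI

open Polynomial Module

theorem p_A2 (hA1 : S_A1) :
    S_A2 := by
  intro p c _ F V G _ _ _ _ _ Γ D g ρ hW hS
  have h1 := hA1 p c F V G Γ D g ρ hW hS
  refine ⟨fun x => ?_, fun u v h => ?_⟩
  · obtain ⟨i, hi⟩ := hW.gen 0 x (by rw [hW.top]; trivial)
    rw [pow_zero, pow_one] at hi
    refine ⟨i, ?_⟩
    have e : ρ x - ρ (g i) = ρ (g i) * (ρ ((g i)⁻¹ * x) - 1) := by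
      rw [mul_sub, ← map_mul, mul_inv_cancel_left, mul_one]
    rw [e]
    refine Esh_mul_left _ (Esh_anti ?_ (mem_Ssh.1 (h1 _ hi)))
    simpa using (Fact.out : p.Prime).two_le
  · induction h with
    | nil => simp
    | cons i _ ih =>
      rw [Bw_cons, Bw_cons, ← mul_sub, List.length_cons, add_comm]
      exact Esh_mul (sub_one_mem_Esh _) ih
    | swap i j u =>
      have e : Bw ρ g (j :: i :: u) - Bw ρ g (i :: j :: u) =
          (ρ (g j * g i * (g j)⁻¹ * (g i)⁻¹) - 1) * ρ (g i * g j) * Bw ρ g u := by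
        rw [sub_mul, ← map_mul, show g j * g i * (g j)⁻¹ * (g i)⁻¹ * (g i * g j) = g j * g i by
          group, map_mul, map_mul, Bw_cons, Bw_cons, Bw_cons, Bw_cons]
        noncomm_ring
      rw [e, show (j :: i :: u).length + 1 = 3 + u.length by simp only [List.length_cons]; omega]
      refine Esh_mul (Esh_mul_right (Esh_anti ?_ (mem_Ssh.1 (h1 _
        (hW.com 0 (g j) (g i) (by rw [hW.top]; trivial))))) _) (Bw_mem g u)
      simpa using hW.hc
    | trans h _ ih ih' =>
      rw [← h.length_eq] at ih'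
      simpa using (Esh ρ _).add_mem ih ih'

end Pool.Agent.P.MP_7cb106_nt.BI

/-! Step EMB. -/

set_option autoImplicit false

namespace Pool.Agent.P.MP_7cb106_nt.BI

open Polynomial Module

theorem p_EMB (hA2 : S_A2) :
    S_EMB := by
  intro p c _ F V G _ _ _ _ _ Γ D g ρ hW hS k
  have h2 := (hA2 p c F V G Γ D g ρ hW hS).1
  induction k with
  | zero =>
    intro w _ h
    have := h [] rfl
    rw [Bw_nil, Module.End.one_apply] at this
    rw [this]
    exact zero_mem _
  | succ k ih =>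
    intro w hw h
    refine mem_fil_succ.2 fun x => ?_
    obtain ⟨i, hi⟩ := h2 x
    have k1 : ρ (g i) w - w ∈ fil ρ k := ih _ (mem_fil_succ.1 hw _) fun u hu => by
      have := h (u ++ [i]) (by simp [hu])
      rw [Bw_append, Bw_cons, Bw_nil, mul_one, Module.End.mul_apply] at this
      simpa using this
    have k2 : (ρ x - ρ (g i)) w ∈ fil ρ k := hi (k + 2) w hw
    have := add_mem k2 k1
    rwa [LinearMap.sub_apply, sub_add_sub_cancel] at this

end Pool.Agent.P.MP_7cb106_nt.BI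

/-! Step GR. -/

set_option autoImplicit false

namespace Pool.Agent.P.MP_7cb106_nt.BI

open Polynomial Module

theorem gr_word {D q : ℕ} (u : List (Fin D)) (h : D * (q - 1) + 1 ≤ u.length) :
    ∃ i u', u.Perm (u' ++ List.replicate q i) := by
  have : ∃ i, q ≤ u.count i := by
    by_contra! hc
    have h1 : ∑ i, u.count i = u.length := by
      rw [← List.sum_toFinset_count_eq_length]
      exact (Finset.sum_subset (Finset.subset_univ _) fun i _ hi =>
        List.count_eq_zero_of_not_mem fun k => hi (List.mem_toFinset.2 k)).symm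
    have h2 := Finset.sum_le_card_nsmul Finset.univ (fun i => u.count i) (q - 1)
      fun i _ => Nat.le_sub_one_of_lt (hc i)
    rw [h1, Finset.card_univ, Fintype.card_fin, smul_eq_mul] at h2
    omega
  obtain ⟨i, hi⟩ := this
  obtain ⟨u', hu⟩ := (List.replicate_sublist_iff.2 hi).exists_perm_append
  exact ⟨i, u', hu.trans List.perm_append_comm⟩

theorem p_GR (hA2 : S_A2) (hEMB : S_EMB) :
    S_GR := by
  intro p c _ F V G _ _ _ _ _ Γ D g ρ hW hS q k w _ hk hw h
  refine hEMB p c F V G Γ D g ρ hW hS k w hw fun u hu => ?_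
  subst hu
  obtain ⟨i, u', e⟩ := gr_word u hk
  have h1 := Esh_apply_eq_zero ((hA2 p c F V G Γ D g ρ hW hS).2 _ _ e) hw le_rfl
  have h2 := e.length_eq
  rw [List.length_append, List.length_replicate] at h2
  rw [LinearMap.sub_apply, sub_eq_zero] at h1
  rw [h1, Bw_append, Module.End.mul_apply]
  refine Esh_apply_eq_zero (Bw_mem g u') (j := u.length - q) ?_ (by omega)
  simpa [Bw] using h i

end Pool.Agent.P.MP_7cb106_nt.BI

/-! Step LD3. -/

set_option autoImplicit false

namespace Pool.Agent.P.MP_7cb106_nt.BI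

open Polynomial Module

theorem ld3_fin (D j : ℕ) : {α : Fin D → ℕ | ∑ i, α i ≤ j}.Finite :=
  (Set.finite_Iic (fun _ : Fin D => j)).subset fun α hα i =>
    (Finset.single_le_sum (f := α) (fun _ _ => Nat.zero_le _) (Finset.mem_univ i)).trans hα

theorem ld3_key {F V : Type} [Field F] [AddCommGroup V] [Module F V] {D d : ℕ}
    {π : ℕ → Submodule F V} {c : (Fin D → ℕ) → Fin d → Module.Dual F V}
    {b : Fin D → Module.End F V} (h : LD π c b) (k : ℕ) :
    ∀ w ∈ π k, w ≠ 0 → ∃ a α, α ∈ Ld π c a ∧ ∑ i, α i < k ∧ c α a w ≠ 0 := by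
  induction k with
  | zero =>
    intro w hw h0
    rw [h.bot] at hw
    exact absurd ((Submodule.mem_bot F).1 hw) h0
  | succ k ih =>
    intro w hw h0
    by_cases hk : w ∈ π k
    · obtain ⟨a, α, h1, h2, h3⟩ := ih w hk h0
      exact ⟨a, α, h1, h2.trans (Nat.lt_succ_self k), h3⟩
    · have hex : ∃ α a, ∑ i, α i = k ∧ c α a w ≠ 0 := by
        by_contra hn
        push Not at hn
        exact hk (h.emb k w hw hn)
      let S : Set (Fin d × (Fin D → ℕ)) := {x | ∑ i, x.2 i = k ∧ c x.2 x.1 w ≠ 0}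
      have hS : S.Finite := by
        refine ((Set.finite_univ (α := Fin d)).prod (ld3_fin D k)).subset ?_
        intro x hx
        exact ⟨Set.mem_univ _, hx.1.le⟩
      have hne : S.Nonempty := by
        obtain ⟨α, a, h1, h2⟩ := hex
        exact ⟨(a, α), h1, h2⟩
      obtain ⟨x, hx, hmax⟩ := Set.exists_max_image S
        (fun x => (toLex (x.1, toLex x.2) : Fin d ×ₗ Lex (Fin D → ℕ))) hS hne
      refine ⟨x.1, x.2, ⟨w, ?_, hx.2, ?_⟩, ?_, hx.2⟩
      · rw [hx.1]; exact hw
      · intro β a' hβ hlt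
        by_contra hn
        have h1 := hmax (a', β) ⟨hβ.trans hx.1, hn⟩
        refine absurd h1 (not_le.2 ?_)
        rw [Prod.Lex.toLex_lt_toLex]
        exact hlt
      · rw [hx.1]; exact Nat.lt_succ_self k

theorem p_LD3 :
    S_LD3 := by
  intro F V _ _ _ D d π c b h j
  have hfin : ∀ a, {α ∈ Ld π c a | ∑ i, α i ≤ j}.Finite := fun a =>
    (ld3_fin D j).subset fun _ hα => hα.2
  let T := Σ a : Fin d, (hfin a).toFinset
  let f : π (j + 1) →ₗ[F] (T → F) :=
    LinearMap.pi fun t => (c t.2.1 t.1).comp (π (j + 1)).subtype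
  have hf : Function.Injective f := by
    rw [injective_iff_map_eq_zero]
    intro w hw
    by_contra h0
    obtain ⟨a, α, h1, h2, h3⟩ := ld3_key h (j + 1) w.1 w.2 fun h1 => h0 (Subtype.ext h1)
    have hm : α ∈ (hfin a).toFinset := by
      rw [Set.Finite.mem_toFinset]
      exact ⟨h1, Nat.lt_succ_iff.1 h2⟩
    exact h3 (congrFun hw ⟨a, α, hm⟩)
  refine ⟨Module.Finite.of_injective f hf, ?_⟩
  refine (LinearMap.finrank_le_finrank_of_injective hf).trans (le_of_eq ?_)
  rw [Module.finrank_pi, Fintype.card_sigma]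
  refine Finset.sum_congr rfl fun a _ => ?_
  rw [Fintype.card_coe, Set.ncard_eq_toFinset_card _ (hfin a)]

end Pool.Agent.P.MP_7cb106_nt.BI

/-! Step A7A. -/

set_option autoImplicit false

namespace Pool.Agent.P.MP_7cb106_nt.BI

open Polynomial Module

theorem a7a_col {O : Type} [CommRing O] {r : ℕ} (t : Fin r) (c x : O) :
    c • col (Pi.single t x) = Matrix.single t.succ (0 : Fin (r + 1)) (c * x) := by
  ext i j
  rw [Matrix.smul_apply, col, Matrix.of_apply, Matrix.single_apply, smul_eq_mul]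
  by_cases hj : j = 0
  · subst hj
    refine Fin.cases ?_ (fun k => ?_) i
    · simp [Fin.succ_ne_zero]
    · by_cases h : t = k
      · subst h; simp
      · simp [h, Ne.symm h]
  · simp [hj, Ne.symm hj]

theorem a7a_conj {R : Type} [Ring R] (X Y : R) :
    (1 + Y) * X * (1 - Y) - X = Y * X - X * Y - Y * X * Y := by noncomm_ring

theorem p_A7A :
    S_A7A := by
  intro p _ O _ _ r e b s h1 h2 Y hY
  have hA : ∀ (t : Fin r) (x : O), Matrix.single t.succ (0 : Fin (r + 1)) ((p : O) ^ b * x) ∈ s :=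
    fun t x => a7a_col t ((p : O) ^ b) x ▸ h2 _
  have hK := fun (a x : O) (t u : Fin r) => s.sub_mem (h1 a t _ (hA u x)) (hA u x)
  simp only [a7a_conj] at hK
  have hB : ∀ (u t : Fin r) (x : O), u ≠ t →
      Matrix.single u.succ t.succ ((p : O) ^ (b + e) * x) ∈ s := fun u t x h => by
    have := s.neg_mem (hK 1 x t u)
    rw [Matrix.single_mul_single_of_ne _ _ _ _ (fun k => h (Fin.succ_injective _ k).symm),
      Matrix.single_mul_single_same, zero_mul, sub_zero, zero_sub, neg_neg] at this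
    convert this using 2
    ring
  have hC : ∀ (t : Fin r) (a x : O),
      Matrix.single (0 : Fin (r + 1)) (0 : Fin (r + 1)) ((p : O) ^ (b + e) * (a * x)) -
        Matrix.single t.succ t.succ ((p : O) ^ (b + e) * (a * x)) -
        Matrix.single 0 t.succ ((p : O) ^ (b + 2 * e) * (a ^ 2 * x)) ∈ s := fun t a x => by
    have := hK a x t t
    simp only [Matrix.single_mul_single_same] at this
    rw [show (p : O) ^ (b + e) * (a * x) = p ^ e * a * (p ^ b * x) by ring,
      show (p : O) ^ (b + 2 * e) * (a ^ 2 * x) = p ^ e * a * (p ^ b * x) * (p ^ e * a) by ring]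
    rwa [mul_comm ((p : O) ^ b * x)] at this
  have hu : IsUnit ((p : O) - 1) := by
    have h3 : IsUnit ((p : ℤ_[p]) - 1) := by
      rw [← IsUnit.neg_iff, neg_sub]
      exact IsLocalRing.isUnit_one_sub_self_of_mem_nonunits _ PadicInt.p_nonunit
    simpa using h3.map (algebraMap ℤ_[p] O)
  have hD : ∀ (t : Fin r) (y : O),
      Matrix.single (0 : Fin (r + 1)) t.succ ((p : O) ^ (b + 2 * e + 1) * y) ∈ s := fun t y => by
    obtain ⟨x, rfl⟩ := hu.dvd (a := y)
    have := s.sub_mem (hC t 1 (p * x)) (hC t p x)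
    rw [one_mul, sub_sub_sub_cancel_left,
      show (p : O) ^ (b + 2 * e) * (p ^ 2 * x) = (p : O) ^ (b + 2 * e + 1) * ((p - 1) * x) +
        (p : O) ^ (b + 2 * e) * (1 ^ 2 * (p * x)) by ring, Matrix.single_add,
      add_sub_cancel_right] at this
    exact this
  have hE : ∀ (t : Fin r) (y : O),
      Matrix.single t.succ t.succ ((p : O) ^ (b + 2 * e + 1) * y) -
        Matrix.single (0 : Fin (r + 1)) (0 : Fin (r + 1)) ((p : O) ^ (b + 2 * e + 1) * y) ∈ s :=
    fun t y => by
    have := s.neg_mem (s.add_mem (hC t 1 ((p : O) ^ (e + 1) * y)) (hD t ((p : O) ^ e * y)))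
    rw [show (p : O) ^ (b + 2 * e) * (1 ^ 2 * ((p : O) ^ (e + 1) * y)) =
        (p : O) ^ (b + 2 * e + 1) * ((p : O) ^ e * y) by ring, sub_add_cancel, neg_sub,
      show (p : O) ^ (b + e) * (1 * ((p : O) ^ (e + 1) * y)) = (p : O) ^ (b + 2 * e + 1) * y by
        ring] at this
    exact this
  have hF : ∀ (i j : Fin (r + 1)) (y : O), Matrix.single i j ((p : O) ^ (b + 2 * e + 1) * y) -
      (if i = j then Matrix.single 0 0 ((p : O) ^ (b + 2 * e + 1) * y) else 0) ∈ s := by
    intro i j y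
    refine Fin.cases ?_ (fun u => ?_) i <;> refine Fin.cases ?_ (fun t => ?_) j
    · rw [if_pos rfl, sub_self]; exact s.zero_mem
    · rw [if_neg (Fin.succ_ne_zero t).symm, sub_zero]; exact hD t y
    · rw [if_neg (Fin.succ_ne_zero u), sub_zero, add_assoc, pow_add, mul_assoc]; exact hA u _
    · by_cases h : u = t
      · subst h; rw [if_pos rfl]; exact hE u y
      · rw [if_neg (fun k => h (Fin.succ_injective _ k)), sub_zero,
          show b + 2 * e + 1 = b + e + (e + 1) by ring, pow_add, mul_assoc]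
        exact hB u t _ h
  have h4 := s.sum_mem fun i (_ : i ∈ Finset.univ) =>
    s.sum_mem fun j (_ : j ∈ Finset.univ) => hF i j (Y i j)
  have h5 : ∑ i, Matrix.single (0 : Fin (r + 1)) (0 : Fin (r + 1))
      ((p : O) ^ (b + 2 * e + 1) * Y i i) = 0 := by
    have := map_sum (Matrix.singleAddMonoidHom (α := O) (0 : Fin (r + 1)) (0 : Fin (r + 1)))
      (fun i => (p : O) ^ (b + 2 * e + 1) * Y i i) Finset.univ
    rw [← Finset.mul_sum, show ∑ i, Y i i = 0 from hY, mul_zero, map_zero] at this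
    exact this.symm
  simp only [Finset.sum_sub_distrib, Finset.sum_ite_eq, Finset.mem_univ, if_true] at h4
  rw [h5, sub_zero] at h4
  rw [Matrix.matrix_eq_sum_single ((p : O) ^ (b + 2 * e + 1) • Y)]
  exact h4

end Pool.Agent.P.MP_7cb106_nt.BI

/-! Step ZS1. -/

set_option autoImplicit false

namespace Pool.Agent.P.MP_7cb106_nt.BI

open Polynomial Module

theorem zs1_ex {A : Type} [CommRing A] (I : ℕ → Ideal A) (h0 : I 0 = ⊤) (hI : Antitone I) :
    ∃ m : A → ℝ, (∀ a, 0 ≤ m a) ∧ (∀ i a, a ∈ I i → m a ≤ (1 / 2) ^ i) ∧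
      (∀ n a, a ∉ I (n + 1) → (1 / 2) ^ n ≤ m a) ∧
      ∀ a, (m a = 0 ∧ ∀ i, a ∈ I i) ∨ ∃ n, a ∈ I n ∧ a ∉ I (n + 1) ∧ m a = (1 / 2) ^ n := by
  classical
  refine ⟨fun a => if h : ∃ n, a ∉ I (n + 1) then (1 / 2) ^ Nat.find h else 0, fun a => ?_,
    fun i a ha => ?_, fun n a ha => ?_, fun a => ?_⟩ <;> beta_reduce
  · split_ifs <;> positivity
  · split_ifs with h
    · refine pow_le_pow_of_le_one (by norm_num) (by norm_num) (not_lt.1 fun hl => ?_)
      exact Nat.find_spec h (hI hl ha)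
    · positivity
  · rw [dif_pos (⟨n, ha⟩ : ∃ n, a ∉ I (n + 1))]
    exact pow_le_pow_of_le_one (by norm_num) (by norm_num) (Nat.find_min' _ ha)
  · by_cases h : ∃ n, a ∉ I (n + 1)
    · refine .inr ⟨Nat.find h, ?_, Nat.find_spec h, dif_pos h⟩
      rcases e : Nat.find h with _ | k
      · rw [h0]; trivial
      · exact not_not.1 (Nat.find_min h (by omega))
    · exact .inl ⟨dif_neg h, fun i => hI i.le_succ (not_not.1 fun hi => h ⟨i, hi⟩)⟩

theorem p_ZS1 :
    S_ZS1 := by
  intro p hp A _ I y c h0 hI hm hy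
  obtain ⟨m, m0, m1, m2, m3⟩ := zs1_ex I h0 hI
  have na : IsNonarchimedean m := fun a b => by
    rcases m3 (a + b) with ⟨e, -⟩ | ⟨n, -, h, e⟩ <;> rw [e]
    · exact le_sup_of_le_left (m0 a)
    · by_cases ha : a ∈ I (n + 1)
      · exact le_sup_of_le_right (m2 n b fun hb => h (add_mem ha hb))
      · exact le_sup_of_le_left (m2 n a ha)
  have ng : ∀ a, m (-a) ≤ m a := fun a => by
    rcases m3 (-a) with ⟨e, -⟩ | ⟨n, -, h, e⟩ <;> rw [e]
    · exact m0 a
    · exact m2 n a fun ha => h (neg_mem ha)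
  have z : ∀ a, (∀ i, a ∈ I i) → m a = 0 := fun a ha => by
    rcases m3 a with ⟨e, -⟩ | ⟨n, -, h, -⟩
    · exact e
    · exact absurd (ha _) h
  let μ : RingSeminorm A :=
    { toFun := m
      map_zero' := z 0 fun i => zero_mem _
      add_le' := fun a b => (na a b).trans (max_le_add_of_nonneg (m0 a) (m0 b))
      neg' := fun a => (ng a).antisymm (by simpa using ng (-a))
      mul_le' := fun a b => by
        rcases m3 a with ⟨-, h⟩ | ⟨i, h, -, e⟩
        · rw [z _ fun i => Ideal.mul_mem_right b _ (h i)]; exact mul_nonneg (m0 a) (m0 b)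
        rcases m3 b with ⟨-, h'⟩ | ⟨j, h', -, e'⟩
        · rw [z _ fun i => Ideal.mul_mem_left _ a (h' i)]; exact mul_nonneg (m0 a) (m0 b)
        rw [e, e', ← pow_add]
        exact m1 _ _ (hm i j a b h h') }
  have h1 : μ 1 ≤ 1 := (m1 0 1 (by rw [h0]; trivial)).trans_eq (pow_zero _)
  refine ⟨smoothingSeminorm μ h1 na, isPowMul_smoothingFun μ h1, smoothingFun_one_le μ h1,
    ne_of_gt (lt_of_lt_of_le (b := (1 / 2) ^ p ^ c) (by positivity) ?_),
    fun i a ha => (smoothingFun_le_self μ a).trans (m1 i a ha)⟩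
  refine ge_of_tendsto' (tendsto_smoothingFun_comp μ h1 y
    (pow_right_strictMono₀ hp.out.one_lt)) fun j => ?_
  have h2 := m2 _ _ (hy j)
  rw [pow_add, mul_comm, pow_mul] at h2
  refine le_trans (le_of_eq ?_) (Real.rpow_le_rpow (by positivity) h2 (by positivity))
  rw [one_div ((p ^ j : ℕ) : ℝ),
    Real.pow_rpow_inv_natCast (by positivity) (pow_pos hp.out.pos j).ne']

end Pool.Agent.P.MP_7cb106_nt.BI

/-! Step IN2. -/

set_option autoImplicit false

namespace Pool.Agent.P.MP_7cb106_nt.BI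

open Polynomial Module

theorem in2_s (p M k b : ℕ) (hp : 2 ≤ p) (hM : 1 ≤ M) :
    ∃ s, b ≤ s ∧ k + 1 ≤ M * p ^ s ∧ (p : ℝ) ^ s ≤ (p : ℝ) / M * (k + 1) + (p : ℝ) ^ b := by
  have hex : ∃ s, b ≤ s ∧ k + 1 ≤ M * p ^ s := by
    refine ⟨b + k, by omega, ?_⟩
    have h1 : b + k < p ^ (b + k) := Nat.lt_pow_self (by omega)
    have h2 : p ^ (b + k) ≤ M * p ^ (b + k) := Nat.le_mul_of_pos_left _ hM
    omega
  classical
  obtain ⟨h1, h2⟩ := Nat.find_spec hex
  refine ⟨Nat.find hex, h1, h2, ?_⟩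
  have hM0 : (0 : ℝ) < M := by exact_mod_cast hM
  rcases h1.eq_or_lt with h | h
  · rw [← h]
    have : (0 : ℝ) ≤ (p : ℝ) / M * (k + 1) := by positivity
    linarith
  · obtain ⟨s, hs⟩ : ∃ s, Nat.find hex = s + 1 := ⟨Nat.find hex - 1, by omega⟩
    have h3 := Nat.find_min hex (m := s) (by omega)
    have h4 : M * p ^ s ≤ k + 1 := by
      by_contra hc
      exact h3 ⟨by omega, by omega⟩
    have h5 : (M : ℝ) * (p : ℝ) ^ s ≤ k + 1 := by exact_mod_cast h4
    have h6 : (p : ℝ) ^ (s + 1) ≤ (p : ℝ) / M * (k + 1) := by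
      calc (p : ℝ) ^ (s + 1) = (p : ℝ) / M * (M * (p : ℝ) ^ s) := by field_simp; ring
        _ ≤ _ := mul_le_mul_of_nonneg_left h5 (by positivity)
    rw [hs]
    have : (0 : ℝ) ≤ (p : ℝ) ^ b := by positivity
    linarith

theorem in2_ind {O : Type} [CommRing O] (C : Type) [NormedField C] (a x : O) :
    ‖ind C a x‖ ≤ 1 := by
  unfold ind
  split_ifs <;> simp

theorem in2_canc {O : Type} [CommRing O] (C : Type) [CommRing C] (a b y : O)
    (h : ∀ x : O, a * x = 0 → x = 0) : ind C (a * b) (a * y) = ind C b y := by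
  unfold ind
  have : a * b ∣ a * y ↔ b ∣ y := by
    refine ⟨?_, mul_dvd_mul_left a⟩
    rintro ⟨c, hc⟩
    refine ⟨c, sub_eq_zero.1 (h _ ?_)⟩
    rw [mul_sub, hc]; ring
  by_cases hb : b ∣ y
  · rw [if_pos hb, if_pos (this.2 hb)]
  · rw [if_neg hb, if_neg fun hc => hb (this.1 hc)]

theorem p_IN2 :
    S_IN2 := by
  intro p _ O C _ _ _ _ μ M e t T Φ hμ htf hM hT hΦ hap
  have hp2 : 2 ≤ p := (Fact.out : p.Prime).two_le
  have hT0 : 0 < T := by linarith
  have hM0 : (0 : ℝ) < M := by exact_mod_cast hM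
  have hTM : (T ^ M)⁻¹ ≤ T⁻¹ :=
    inv_anti₀ hT0 (le_self_pow₀ hT.le (by omega))
  have hT1 : T⁻¹ ≤ 1 := inv_le_one_of_one_le₀ hT.le
  have key : ∀ j u : ℕ, u + j = t → ∃ κ : ℕ, ∃ Ψ ∈ Sp (Ch μ ((p : O) ^ e)) (T ^ κ),
      (κ : ℝ) + 1 ≤ (1 + (p : ℝ) / M) ^ j * (1 + j * (p : ℝ) ^ (e + t)) ∧
      ∀ x, ‖Ψ ((p : O) ^ u * x) - ind C ((p : O) ^ j) x‖ ≤ T⁻¹ := by
    intro j
    induction j with
    | zero =>
      intro u _
      refine ⟨0, 1, by simpa using one_mem_Sp hμ, by simp, fun x => ?_⟩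
      simp [ind, hT0.le]
    | succ j ih =>
      intro u hu
      obtain ⟨κ, Ψ, hΨ, hκ, hap2⟩ := ih (u + 1) (by omega)
      obtain ⟨s, hs1, hs2, hs3⟩ := in2_s p M κ (u + e) hp2 hM
      obtain ⟨Φ', hΦ', hfr⟩ := Sp_frob p hμ hΦ hs1
      refine ⟨p ^ s + κ, Φ' * Ψ, by rw [pow_add]; exact Sp_mul hμ hΦ' hΨ, ?_, fun x => ?_⟩
      · have hp1 : (1 : ℝ) ≤ p := by exact_mod_cast (by omega : 1 ≤ p)
        have h1 : (p : ℝ) ^ (u + e) ≤ (p : ℝ) ^ (e + t) := pow_le_pow_right₀ hp1 (by omega)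
        have hA0 : (0 : ℝ) ≤ (p : ℝ) / M := by positivity
        have hA : (1 : ℝ) ≤ (1 + (p : ℝ) / M) ^ (j + 1) := one_le_pow₀ (by linarith)
        have hP : (0 : ℝ) ≤ (p : ℝ) ^ (e + t) := by positivity
        have h2 : (1 + (p : ℝ) / M) * ((κ : ℝ) + 1) ≤
            (1 + (p : ℝ) / M) * ((1 + (p : ℝ) / M) ^ j * (1 + j * (p : ℝ) ^ (e + t))) :=
          mul_le_mul_of_nonneg_left hκ (by linarith)
        have h3 : (p : ℝ) ^ (e + t) ≤ (1 + (p : ℝ) / M) ^ (j + 1) * (p : ℝ) ^ (e + t) :=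
          le_mul_of_one_le_left hP hA
        push_cast
        calc (p : ℝ) ^ s + κ + 1 ≤ (1 + (p : ℝ) / M) * ((κ : ℝ) + 1) + (p : ℝ) ^ (e + t) := by
              linarith
          _ ≤ (1 + (p : ℝ) / M) * ((1 + (p : ℝ) / M) ^ j * (1 + j * (p : ℝ) ^ (e + t))) +
              (1 + (p : ℝ) / M) ^ (j + 1) * (p : ℝ) ^ (e + t) := add_le_add h2 h3
          _ = _ := by ring
      · rw [Pi.mul_apply, hfr]
        have hps : p ^ s ≠ 0 := pow_ne_zero _ (by omega)
        by_cases hx : (p : O) ∣ x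
        · obtain ⟨y, rfl⟩ := hx
          have h1 : ‖Φ (p * y) - 1‖ ≤ T⁻¹ := by
            have := hap (p * y)
            rw [ind, if_pos (dvd_mul_right _ _)] at this
            exact this.trans hTM
          have h2 : ‖Φ (p * y) ^ p ^ s - 1‖ ≤ T⁻¹ := by
            have e1 : Φ (p * y) ^ p ^ s - 1 = (Φ (p * y) - 1) ^ p ^ s := by
              rw [sub_pow_char_pow, one_pow]
            rw [e1, norm_pow]
            exact (pow_le_of_le_one (norm_nonneg _) (h1.trans hT1) hps).trans h1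
          have h3 : ‖Φ (p * y) ^ p ^ s‖ ≤ 1 := by
            have := IsUltrametricDist.norm_add_le_max (Φ (p * y) ^ p ^ s - 1) 1
            rw [sub_add_cancel, norm_one] at this
            exact this.trans (max_le (h2.trans hT1) le_rfl)
          have h4 := hap2 y
          rw [pow_succ' (p : O) j, in2_canc C _ _ _ htf, ← mul_assoc, ← pow_succ]
          have e2 : Φ (p * y) ^ p ^ s * Ψ ((p : O) ^ (u + 1) * y) - ind C ((p : O) ^ j) y =
              Φ (p * y) ^ p ^ s * (Ψ ((p : O) ^ (u + 1) * y) - ind C ((p : O) ^ j) y) +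
                (Φ (p * y) ^ p ^ s - 1) * ind C ((p : O) ^ j) y := by ring
          rw [e2]
          refine (IsUltrametricDist.norm_add_le_max _ _).trans (max_le ?_ ?_)
          · rw [norm_mul]
            exact (mul_le_of_le_one_left (norm_nonneg _) h3).trans h4
          · rw [norm_mul]
            exact (mul_le_of_le_one_right (norm_nonneg _) (in2_ind C _ _)).trans h2
        · have h1 : ‖Φ x‖ ≤ (T ^ M)⁻¹ := by
            have := hap x
            rwa [ind, if_neg hx, sub_zero] at this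
          have h2 : ¬ (p : O) ^ (j + 1) ∣ x := fun hc =>
            hx ((dvd_pow_self _ (by omega)).trans hc)
          have h3 := Sp_norm hμ (pow_nonneg hT0.le κ) hΨ ((p : O) ^ u * x)
          rw [ind, if_neg h2, sub_zero, norm_mul, norm_pow]
          have h4 : ‖Φ x‖ ^ p ^ s ≤ (T ^ (κ + 1))⁻¹ := by
            refine (pow_le_pow_left₀ (norm_nonneg _) h1 _).trans ?_
            rw [inv_pow, ← pow_mul]
            exact inv_anti₀ (by positivity) (pow_le_pow_right₀ hT.le hs2)
          calc _ ≤ (T ^ (κ + 1))⁻¹ * T ^ κ :=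
                mul_le_mul h4 h3 (norm_nonneg _) (by positivity)
            _ = T⁻¹ := by rw [pow_succ]; field_simp
  obtain ⟨κ, Ψ, h1, h2, h3⟩ := key t 0 (by omega)
  exact ⟨κ, Ψ, h1, h2, fun x => by simpa using h3 x⟩

end Pool.Agent.P.MP_7cb106_nt.BI

/-! Step IND. -/

set_option autoImplicit false

namespace Pool.Agent.P.MP_7cb106_nt.BI

open Polynomial Module

theorem ind_M (p γ : ℕ) (hp : 2 ≤ p) : ∃ M : ℕ, 1 ≤ M ∧ (1 + (p : ℝ) / M) ^ γ ≤ p := by
  have h0 : Filter.Tendsto (fun M : ℕ => (1 + (p : ℝ) / M) ^ γ) Filter.atTop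
      (nhds ((1 + 0) ^ γ)) :=
    ((tendsto_const_div_atTop_nhds_zero_nat (p : ℝ)).const_add 1).pow γ
  have h1 : ((1 : ℝ) + 0) ^ γ < p := by
    rw [add_zero, one_pow]
    exact_mod_cast hp
  obtain ⟨M, hM1, hM2⟩ := ((Filter.eventually_ge_atTop 1).and (h0.eventually_lt_const h1)).exists
  exact ⟨M, hM1, hM2.le⟩

theorem ind_kap (p γ e s M κ : ℕ) (hp : 2 ≤ p) (hM : (1 + (p : ℝ) / M) ^ γ ≤ p)
    (h : (κ : ℝ) + 1 ≤ (1 + (p : ℝ) / M) ^ (γ * s) *
      (1 + ((γ * s : ℕ) : ℝ) * (p : ℝ) ^ (e + γ * s))) :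
    κ ≤ (1 + γ) * p ^ ((γ + 2) * s + e) := by
  have h1 : (1 + (p : ℝ) / M) ^ (γ * s) ≤ (p : ℝ) ^ s := by
    rw [pow_mul]
    exact pow_le_pow_left₀ (by positivity) hM s
  have h2 : (κ : ℝ) + 1 ≤ (p : ℝ) ^ s * (1 + ((γ * s : ℕ) : ℝ) * (p : ℝ) ^ (e + γ * s)) :=
    h.trans (mul_le_mul_of_nonneg_right h1 (by positivity))
  have h3 : κ + 1 ≤ p ^ s * (1 + γ * s * p ^ (e + γ * s)) := by exact_mod_cast h2
  have h4 : s ≤ p ^ s := (Nat.lt_pow_self hp).le
  have h5 : 1 ≤ p ^ s * p ^ (e + γ * s) := Nat.succ_le_of_lt (by positivity)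
  have h6 : γ * s * p ^ (e + γ * s) ≤ γ * (p ^ s * p ^ (e + γ * s)) := by
    rw [mul_assoc]
    gcongr
  have h7 : (1 + γ) * p ^ ((γ + 2) * s + e) =
      p ^ s * (p ^ s * p ^ (e + γ * s) + γ * (p ^ s * p ^ (e + γ * s))) := by ring
  rw [h7]
  exact (Nat.le_succ κ).trans (h3.trans (Nat.mul_le_mul_left _ (Nat.add_le_add h5 h6)))

theorem ind_tf {p : ℕ} [Fact p.Prime] {O : Type} [CommRing O] [Algebra ℤ_[p] O] {f : ℕ}
    (b : Basis (Fin f) ℤ_[p] O) (x : O) (hx : (p : O) * x = 0) : x = 0 := by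
  refine b.ext_elem fun i => ?_
  have h1 : (p : ℤ_[p]) • x = 0 := by
    rw [Algebra.smul_def, map_natCast, hx]
  have h2 : (p : ℤ_[p]) * b.repr x i = 0 := by
    have := congrArg (fun y => b.repr y i) h1
    simpa only [map_smul, Finsupp.smul_apply, smul_eq_mul, map_zero, Finsupp.zero_apply]
      using this
  have h3 : (p : ℤ_[p]) ≠ 0 := by exact_mod_cast (Fact.out : p.Prime).ne_zero
  rw [(mul_eq_zero.1 h2).resolve_left h3, map_zero, Finsupp.zero_apply]

theorem p_IND (hIN1 : S_IN1) (hIN2 : S_IN2) :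
    S_IND := by
  intro p _ O C _ _ _ _ _ μ f b hμ hD γ e
  have hp : 2 ≤ p := (Fact.out : p.Prime).two_le
  obtain ⟨M, hM1, hM⟩ := ind_M p γ hp
  obtain ⟨T, hT, Φ, hΦ, hΦ'⟩ := hIN1 p O C μ f b hμ hD M
  obtain ⟨a, ha⟩ := pow_unbounded_of_one_lt T (one_lt_two (α := ℝ))
  refine ⟨e + a * (1 + γ), fun s => ?_⟩
  obtain ⟨κ, Ψ, hΨ, hκ, hΨ'⟩ :=
    hIN2 p O C μ M e (γ * s) T Φ hμ (ind_tf b) hM1 hT hΦ hΦ'
  refine ⟨Ψ, Sp_mono ?_ hΨ, fun x => (hΨ' x).trans_lt (inv_lt_one_of_one_lt₀ hT)⟩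
  have h1 := ind_kap p γ e s M κ hp hM hκ
  have h2 : a * (1 + γ) ≤ p ^ (a * (1 + γ)) := (Nat.lt_pow_self hp).le
  have h3 : a * κ ≤ p ^ ((γ + 2) * s + (e + a * (1 + γ))) := by
    calc a * κ ≤ a * ((1 + γ) * p ^ ((γ + 2) * s + e)) := Nat.mul_le_mul_left _ h1
      _ = a * (1 + γ) * p ^ ((γ + 2) * s + e) := by ring
      _ ≤ p ^ (a * (1 + γ)) * p ^ ((γ + 2) * s + e) := Nat.mul_le_mul_right _ h2
      _ = _ := by ring
  calc T ^ κ ≤ ((2 : ℝ) ^ a) ^ κ := pow_le_pow_left₀ (by linarith) ha.le κ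
    _ = 2 ^ (a * κ) := by rw [pow_mul]
    _ ≤ _ := pow_le_pow_right₀ one_le_two h3

end Pool.Agent.P.MP_7cb106_nt.BI

/-! Step ANN. -/

set_option autoImplicit false

namespace Pool.Agent.P.MP_7cb106_nt.BI

open Polynomial Module

section
variable {C : Type} [NormedField C] [IsUltrametricDist C]

theorem ann_add {u v : C} (hu : ‖u‖ < 1) (hv : ‖v‖ < 1) : ‖u + v‖ < 1 :=
  (IsUltrametricDist.norm_add_le_max _ _).trans_lt (max_lt hu hv)

theorem ann_mul {u v u' v' : C} (h : ‖u - v‖ < 1) (hv : ‖v‖ ≤ 1) (h' : ‖u' - v'‖ < 1)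
    (hv' : ‖v'‖ ≤ 1) : ‖u * u' - v * v'‖ < 1 := by
  have hu' : ‖u'‖ ≤ 1 := by
    have := IsUltrametricDist.norm_add_le_max (u' - v') v'
    rw [sub_add_cancel] at this
    exact this.trans (max_le h'.le hv')
  have : u * u' - v * v' = (u - v) * u' + v * (u' - v') := by ring
  rw [this]
  refine ann_add ?_ ?_
  · rw [norm_mul]; exact (mul_le_of_le_one_right (norm_nonneg _) hu').trans_lt h
  · rw [norm_mul]; exact (mul_le_of_le_one_left (norm_nonneg _) hv).trans_lt h'

theorem ann_prod {ι : Type} (s : Finset ι) (u v : ι → C) (h : ∀ i, ‖u i - v i‖ < 1)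
    (hv : ∀ i, ‖v i‖ ≤ 1) : ‖∏ i ∈ s, u i - ∏ i ∈ s, v i‖ < 1 ∧ ‖∏ i ∈ s, v i‖ ≤ 1 := by
  classical
  induction s using Finset.induction_on with
  | empty => simp
  | insert i s hi ih =>
    rw [Finset.prod_insert hi, Finset.prod_insert hi]
    refine ⟨ann_mul (h i) (hv i) ih.1 ih.2, ?_⟩
    rw [norm_mul]
    exact mul_le_one₀ (hv i) (norm_nonneg _) ih.2

theorem ann_sum {ι : Type} (s : Finset ι) (u : ι → C) (h : ∀ i, ‖u i‖ < 1) :
    ‖∑ i ∈ s, u i‖ < 1 := by
  classical
  induction s using Finset.induction_on with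
  | empty => simp
  | insert i s hi ih => rw [Finset.sum_insert hi]; exact ann_add (h i) ih

end

theorem p_ANN :
    S_ANN := by
  intro F O C _ _ _ _ r j lam μ a b Ψ T η z hj hlam hμ hΨ hnear hT hTη hz y
  classical
  set X : Set ((Fin r → O) → C) := {χ | ∃ σ : Fin r → O, χ = fun x => μ (a * ∑ i, σ i * x i)}
    with hXdef
  have hη : 0 ≤ η := (norm_nonneg _).trans (hz 0)
  have hXmul : ∀ χ ∈ X, ∀ χ' ∈ X, χ * χ' ∈ X := by
    rintro _ ⟨σ, rfl⟩ _ ⟨σ', rfl⟩
    refine ⟨σ + σ', funext fun x => ?_⟩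
    rw [Pi.mul_apply, ← hμ.add]
    congr 1
    simp only [Pi.add_apply, add_mul, Finset.sum_add_distrib, mul_add]
  have hX1 : (1 : (Fin r → O) → C) ∈ Sp X 1 := by
    have : (1 : (Fin r → O) → C) ∈ X := ⟨0, funext fun x => by simp [hμ.zero]⟩
    simpa using smul_mem_Sp (θ := (1 : C)) (T := 1) (by simp) this
  have hco : ∀ (i : Fin r) (Φ : O → C), Φ ∈ Sp (Ch μ a) T → (fun x => Φ (x i)) ∈ Sp X T := by
    intro i Φ hΦ
    refine Sp_induction (P := fun Φ => (fun x : Fin r → O => Φ (x i)) ∈ Sp X T) ?_ (zero_mem _)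
      (fun _ _ ha hb => add_mem ha hb) hΦ
    rintro θ _ hθ ⟨σ, rfl⟩
    have : (fun x : Fin r → O => μ (a * σ * x i)) ∈ X := by
      refine ⟨Pi.single i σ, funext fun x => ?_⟩
      congr 1
      rw [Finset.sum_eq_single i (fun k _ hk => by simp [Pi.single_eq_of_ne hk]) (by simp)]
      simp [mul_assoc]
    exact smul_mem_Sp hθ this
  have hprod : ∀ s : Finset (Fin r),
      (fun x : Fin r → O => ∏ i ∈ s, Ψ (x i - y i)) ∈ Sp X (T ^ s.card) := by
    intro s
    induction s using Finset.induction_on with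
    | empty => simp only [Finset.prod_empty, Finset.card_empty, pow_zero]; exact hX1
    | insert i s hi ih =>
      rw [Finset.card_insert_of_notMem hi, pow_succ']
      have := Sp_mul' hXmul (hco i _ (Sp_shift hμ hΨ (y i))) ih
      convert this using 1
      funext x
      rw [Finset.prod_insert hi]; rfl
  have hbound : ∀ (T' : ℝ), 0 ≤ T' → ∀ Φ ∈ Sp X T',
      ‖z.sum fun x c => j c * (lam x * Φ x)‖ ≤ T' * η := by
    intro T' hT' Φ hΦ
    refine Sp_induction (P := fun Φ => ‖z.sum fun x c => j c * (lam x * Φ x)‖ ≤ T' * η) ?_ ?_ ?_ hΦ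
    · rintro θ _ hθ ⟨σ, rfl⟩
      have : (z.sum fun x c => j c * (lam x * (θ • fun x => μ (a * ∑ i, σ i * x i)) x)) =
          θ * z.sum fun x c => j c * (lam x * μ (a * ∑ i, σ i * x i)) := by
        rw [Finsupp.mul_sum]
        refine Finsupp.sum_congr fun x _ => ?_
        simp only [Pi.smul_apply, smul_eq_mul]; ring
      rw [this, norm_mul]
      exact mul_le_mul hθ (hz σ) (norm_nonneg _) hT'
    · simpa [Finsupp.sum] using mul_nonneg hT' hη
    · intro Φ Φ' h1 h2
      have : (z.sum fun x c => j c * (lam x * (Φ + Φ') x)) =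
          (z.sum fun x c => j c * (lam x * Φ x)) + z.sum fun x c => j c * (lam x * Φ' x) := by
        simp only [Finsupp.sum, ← Finset.sum_add_distrib, Pi.add_apply]
        exact Finset.sum_congr rfl fun x _ => by ring
      rw [this]
      exact (IsUltrametricDist.norm_add_le_max _ _).trans (max_le h1 h2)
  have hA := hbound _ (pow_nonneg hT _) _ (hprod Finset.univ)
  rw [Finset.card_univ, Fintype.card_fin] at hA
  have hA1 := hA.trans_lt hTη
  have hind : ∀ x, ‖ind C b x‖ ≤ 1 := fun x => by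
    unfold ind; split_ifs <;> simp
  have hjind : ∀ x, j (ind F b x) = ind C b x := fun x => by
    unfold ind; split_ifs <;> simp
  have hB : ‖∑ x ∈ z.support, -(j (z x) * (lam x * ∏ i, Ψ (x i - y i) -
      1 * ∏ i, ind C b (x i - y i)))‖ < 1 := by
    refine ann_sum _ _ fun x => ?_
    obtain ⟨h1, h2⟩ := ann_prod Finset.univ (fun i => Ψ (x i - y i))
      (fun i => ind C b (x i - y i)) (fun i => hnear _) (fun i => hind _)
    have h3 : ‖lam x - 1‖ < 1 := by have := hlam.near x; linarith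
    rw [norm_neg, norm_mul]
    exact (mul_le_of_le_one_left (norm_nonneg _) (hj _)).trans_lt
      (ann_mul h3 (by simp) h1 h2)
  have hS : ‖j (z.sum fun x c => c * ∏ i, ind F b (x i - y i))‖ < 1 := by
    have := ann_add hA1 hB
    convert this using 2
    simp only [Finsupp.sum, map_sum, map_mul, map_prod, hjind, ← Finset.sum_add_distrib]
    exact Finset.sum_congr rfl fun x _ => by ring
  by_contra hne
  have h1 : ‖j (z.sum fun x c => c * ∏ i, ind F b (x i - y i))‖ *
      ‖j (z.sum fun x c => c * ∏ i, ind F b (x i - y i))⁻¹‖ = 1 := by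
    rw [← norm_mul, ← map_mul, mul_inv_cancel₀ hne, map_one, norm_one]
  have h2 := (mul_le_of_le_one_right (norm_nonneg
    (j (z.sum fun x c => c * ∏ i, ind F b (x i - y i))))
    (hj (z.sum fun x c => c * ∏ i, ind F b (x i - y i))⁻¹)).trans_lt hS
  linarith

end Pool.Agent.P.MP_7cb106_nt.BI

/-! Step PRK. -/

set_option autoImplicit false

namespace Pool.Agent.P.MP_7cb106_nt.BI

open Polynomial Module

theorem prk_zero {p : ℕ} [Fact p.Prime] (t : ℕ) (a : ℤ_[p]) :
    PadicInt.toZModPow t a = 0 ↔ (p : ℤ_[p]) ^ t ∣ a := by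
  rw [← RingHom.mem_ker, PadicInt.ker_toZModPow, Ideal.mem_span_singleton]

theorem prk_dvd {p : ℕ} [Fact p.Prime] {O : Type} [CommRing O] [Algebra ℤ_[p] O] {f : ℕ}
    (ω : Basis (Fin f) ℤ_[p] O) (t : ℕ) (x : O) :
    (p : O) ^ t ∣ x ↔ ∀ j, (p : ℤ_[p]) ^ t ∣ ω.repr x j := by
  have h0 : ∀ y : O, (p : O) ^ t * y = ((p : ℤ_[p]) ^ t) • y := fun y => by
    rw [Algebra.smul_def, map_pow, map_natCast]
  constructor
  · rintro ⟨y, rfl⟩ j
    rw [h0, map_smul, Finsupp.smul_apply, smul_eq_mul]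
    exact dvd_mul_right _ _
  · intro h
    choose c hc using h
    refine ⟨∑ j, c j • ω j, ?_⟩
    rw [h0, Finset.smul_sum]
    conv_lhs => rw [← ω.sum_repr x]
    exact Finset.sum_congr rfl fun j _ => by rw [hc, mul_smul]

theorem p_PRK :
    S_PRK := by
  intro p _ O _ _ f ω r t
  have h1 : Function.Surjective (pr ω r t) := fun q => by
    refine ⟨fun i => ∑ j, (((q (i, j)).val : ℕ) : ℤ_[p]) • ω j, funext fun i => ?_⟩
    change PadicInt.toZModPow t (ω.repr (∑ j, (((q (i.1, j)).val : ℕ) : ℤ_[p]) • ω j) i.2) = q i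
    rw [ω.repr_sum_self, map_natCast, ZMod.natCast_zmod_val]
  have h2 : ∀ x y, pr ω r t x = pr ω r t y ↔ ∀ i, (p : O) ^ t ∣ x i - y i := fun x y => by
    rw [← sub_eq_zero, ← map_sub, funext_iff, Prod.forall]
    refine forall_congr' fun i => ?_
    rw [prk_dvd ω]
    exact forall_congr' fun j => prk_zero t _
  refine ⟨h1, h2, fun F _ z hz => ?_⟩
  ext q
  obtain ⟨y, rfl⟩ := h1 q
  rw [Finsupp.linearCombination_apply, Finsupp.sum, AddMonoidAlgebra.coeff_sum,
    Finsupp.finsetSum_apply]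
  refine Eq.trans (Finset.sum_congr rfl fun x _ => ?_) (hz y)
  classical
  rw [AddMonoidAlgebra.smul_single, AddMonoidAlgebra.coeff_single, Finsupp.single_apply,
    smul_eq_mul]
  beta_reduce
  split_ifs with h
  · rw [Finset.prod_eq_one fun i _ => by rw [ind, if_pos ((h2 x y).1 h i)]]
  · obtain ⟨i, hi⟩ := not_forall.1 (mt (h2 x y).2 h)
    rw [Finset.prod_eq_zero (Finset.mem_univ i) (by rw [ind, if_neg hi]), mul_zero]

end Pool.Agent.P.MP_7cb106_nt.BI

/-! Step JOS. -/

set_option autoImplicit false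

namespace Pool.Agent.P.MP_7cb106_nt.BI

open Polynomial Module

theorem jos_rank {F E : Type} [Field F] [AddCommGroup E] [Module F E] [FiniteDimensional F E]
    (Θ : E →ₗ[F] E) {M M' N : Submodule F E} (h1 : M ≤ M') (h2 : M ≤ LinearMap.ker Θ)
    (h3 : N ≤ M'.map Θ) : finrank F N + finrank F M ≤ finrank F M' := by
  rw [← (Θ.domRestrict M').finrank_range_add_finrank_ker, LinearMap.range_domRestrict,
    ← (Submodule.comapSubtypeEquivOfLe h1).finrank_eq]
  exact add_le_add (Submodule.finrank_mono h3) (Submodule.finrank_mono fun e he => h2 he)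

theorem p_JOS :
    S_JOS := by
  intro F E L H Ω _ _ _ _ _ _ ν act hat x x' d R hν hc hd hR
  obtain ⟨M, hM⟩ : ∃ M : ∀ j, (Fin j → H) → Submodule F E, M = fun j hs =>
    Submodule.span F (Set.range fun q : L × Fin j => ν q.1 * hat (hs q.2)) := ⟨_, rfl⟩
  have key : ∀ j, (∀ i < j, i * d < Fintype.card Ω) →
      ∃ hs : Fin j → H, j * R ≤ 2 * finrank F (M j hs) := by
    intro j
    induction j with
    | zero => exact fun _ => ⟨Fin.elim0, by simp⟩
    | succ j ih =>
      intro hj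
      obtain ⟨hs, h1⟩ := ih fun i hi => hj i (by omega)
      obtain ⟨c, c0, hc0⟩ : ∃ c : Ω → F, c ≠ 0 ∧
          ∀ i, ∑ w, c w • ν (x w + act (hs i) (x' w)) = 0 := by
        let Φ : (Ω → F) →ₗ[F] (Fin j → Submodule.span F (Set.range ν)) :=
          LinearMap.pi fun i => Fintype.linearCombination F fun w =>
            ⟨ν (x w + act (hs i) (x' w)), Submodule.subset_span ⟨_, rfl⟩⟩
        obtain ⟨c, h2, h3⟩ := Submodule.exists_mem_ne_zero_of_ne_bot
          (LinearMap.ker_ne_bot_of_finrank_lt (f := Φ) (by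
            rw [finrank_pi_fintype, finrank_fintype_fun_eq_card, Finset.sum_const,
              Finset.card_univ, Fintype.card_fin, smul_eq_mul]
            exact (Nat.mul_le_mul_left _ hd).trans_lt (hj j j.lt_succ_self)))
        refine ⟨c, h3, fun i => ?_⟩
        simpa [Φ, Fintype.linearCombination_apply] using
          congrArg Subtype.val (congrFun (LinearMap.mem_ker.1 h2) i)
      obtain ⟨h, h2⟩ := hR c c0
      let Θ : E →ₗ[F] E :=
        ∑ w, c w • (LinearMap.mulLeft F (ν (x w)) ∘ₗ LinearMap.mulRight F (ν (x' w)))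
      have hΘ : ∀ y h, Θ (ν y * hat h) =
          (∑ w, c w • ν (y + (x w + act h (x' w)))) * hat h := fun y h => by
        simp only [Θ, LinearMap.sum_apply, LinearMap.smul_apply, LinearMap.comp_apply,
          LinearMap.mulLeft_apply, LinearMap.mulRight_apply, Finset.sum_mul, smul_mul_assoc]
        refine Finset.sum_congr rfl fun w _ => ?_
        rw [mul_assoc, hc, add_left_comm, hν, hν, mul_assoc, mul_assoc]
      have h3 := jos_rank Θ (M := M j hs) (M' := M (j + 1) (Fin.cons h hs))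
        (N := (orb ν c fun w => x w + act h (x' w)).map (LinearMap.mulRight F (hat h : E)))
        (by
          rw [hM]
          refine Submodule.span_mono ?_
          rintro _ ⟨q, rfl⟩
          exact ⟨(q.1, q.2.succ), rfl⟩)
        (by
          rw [hM]
          refine Submodule.span_le.2 ?_
          rintro _ ⟨q, rfl⟩
          refine LinearMap.mem_ker.2 ((hΘ _ _).trans ?_)
          simp only [hν q.1, ← mul_smul_comm, ← Finset.mul_sum, hc0, mul_zero, zero_mul])
        (by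
          rw [hM, orb, Submodule.map_span]
          refine Submodule.span_le.2 ?_
          rintro _ ⟨_, ⟨y, rfl⟩, rfl⟩
          exact ⟨_, Submodule.subset_span ⟨(y, 0), rfl⟩, hΘ y h⟩)
      rw [← (Submodule.equivMapOfInjective (LinearMap.mulRight F (hat h : E))
        (fun _ _ e => (hat h).mul_left_inj.1 e) _).finrank_eq] at h3
      exact ⟨Fin.cons h hs, by rw [add_mul, one_mul]; omega⟩
  by_cases hj : ∃ j, Fintype.card Ω ≤ j * d
  · classical
    obtain ⟨hs, h1⟩ := key (Nat.find hj) fun i hi => not_le.1 (Nat.find_min hj hi)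
    calc _ ≤ d * (Nat.find hj * R) := by
          rw [← mul_assoc, mul_comm d]
          exact Nat.mul_le_mul_right _ (Nat.find_spec hj)
      _ ≤ d * (2 * finrank F E) :=
          Nat.mul_le_mul_left _ (h1.trans (Nat.mul_le_mul_left _ (Submodule.finrank_le _)))
      _ = _ := by ring
  · obtain ⟨hs, h1⟩ := key (2 * finrank F E + 1) fun i _ => not_le.1 fun h => hj ⟨i, h⟩
    have h2 := h1.trans (Nat.mul_le_mul_left _ (Submodule.finrank_le _))
    rcases R with _ | R
    · simp
    · nlinarith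

end Pool.Agent.P.MP_7cb106_nt.BI

/-! Step CMP. -/

set_option autoImplicit false

namespace Pool.Agent.P.MP_7cb106_nt.BI

open Polynomial Module

theorem cmp_fac {F A E E' : Type} [Field F] [AddCommGroup A] [Module F A] [AddCommGroup E]
    [Module F E] [AddCommGroup E'] [Module F E'] (f : A →ₗ[F] E) (f' : A →ₗ[F] E')
    (h : ∀ a, f a = 0 → f' a = 0) : ∃ g : E →ₗ[F] E', ∀ a, g (f a) = f' a := by
  obtain ⟨g, hg⟩ := LinearMap.exists_extend
    (((LinearMap.ker f).liftQ f' fun a ha => h a ha).comp f.quotKerEquivRange.symm.toLinearMap)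
  refine ⟨g, fun a => ?_⟩
  have := LinearMap.congr_fun hg ⟨f a, LinearMap.mem_range_self f a⟩
  simpa using this

theorem p_CMP :
    S_CMP := by
  intro F L E E' Ω _ _ _ _ _ _ _ _ ν ν' c z h
  obtain ⟨g, hg⟩ := cmp_fac _ _ h
  have hν : ∀ x, g (ν x) = ν' x := fun x => by simpa using hg (Finsupp.single x 1)
  have : orb ν' c z = (orb ν c z).map g := by
    unfold orb
    rw [Submodule.map_span, ← Set.range_comp]
    congr 2
    ext y
    simp [hν]
  rw [this]
  exact Submodule.finrank_map_le _ _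

end Pool.Agent.P.MP_7cb106_nt.BI

/-! Step VA1. -/

set_option autoImplicit false

namespace Pool.Agent.P.MP_7cb106_nt.BI

open Polynomial Module

theorem p_VA1 :
    S_VA1 := by
  intro R _ _ t κ Δ k z c ht hz hc w
  classical
  choose v hv using hz
  choose y hy using hc
  have hinj : Function.Injective z := by
    intro j j' h
    by_contra hne
    have h0 : ∏ j' ∈ Finset.univ.erase j, (z j - z j') = 0 :=
      Finset.prod_eq_zero (Finset.mem_erase.2 ⟨fun e => hne e.symm, Finset.mem_univ _⟩)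
        (by rw [h, sub_self])
    have := hv j
    rw [h0, zero_mul] at this
    exact pow_ne_zero _ ht this
  set f : R[X] := ∑ w : Fin κ, C (c w) * X ^ (w : ℕ) with hf
  set g : R[X] := ∑ j : Fin κ, C (y j * v j) * ∏ j' ∈ Finset.univ.erase j, (X - C (z j')) with hg
  have hκ : 0 < κ := Nat.lt_of_le_of_lt (Nat.zero_le _) w.2
  have df : f.natDegree ≤ κ - 1 := by
    refine natDegree_sum_le_of_forall_le _ _ fun w _ => ?_
    refine (natDegree_C_mul_le _ _).trans ?_
    rw [natDegree_X_pow]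
    have := w.2
    omega
  have dg : g.natDegree ≤ κ - 1 := by
    refine natDegree_sum_le_of_forall_le _ _ fun j _ => ?_
    refine (natDegree_C_mul_le _ _).trans ?_
    rw [natDegree_prod_of_monic _ _ fun i _ => monic_X_sub_C _]
    simp [Finset.card_erase_of_mem]
  have ev : ∀ j, (f - C (t ^ k) * g).eval (z j) = 0 := by
    intro j
    have e1 : f.eval (z j) = t ^ (k + Δ) * y j := by
      rw [← hy j, hf, eval_finsetSum]
      simp
    have e2 : g.eval (z j) = y j * t ^ Δ := by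
      rw [hg, eval_finsetSum, Finset.sum_eq_single j]
      · rw [eval_mul, eval_C, eval_prod, hv j]
        simp only [eval_sub, eval_X, eval_C]
        ring
      · intro i _ hi
        rw [eval_mul, eval_prod, Finset.prod_eq_zero
          (Finset.mem_erase.2 ⟨fun e => hi e.symm, Finset.mem_univ j⟩) (by simp), mul_zero]
      · simp
    rw [eval_sub, eval_mul, eval_C, e1, e2]
    ring
  have hd : (f - C (t ^ k) * g).natDegree < Fintype.card (Fin κ) := by
    have := (natDegree_sub_le f (C (t ^ k) * g)).trans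
      (max_le df ((natDegree_C_mul_le _ _).trans dg))
    rw [Fintype.card_fin]
    omega
  have h0 := eq_zero_of_natDegree_lt_card_of_eval_eq_zero _ hinj ev hd
  have h1 : f.coeff w = c w := by
    rw [hf, finsetSum_coeff, Finset.sum_eq_single w]
    · simp
    · intro i _ hi
      rw [coeff_C_mul, coeff_X_pow, if_neg (fun e => hi (Fin.ext e.symm)), mul_zero]
    · simp
  rw [← h1, sub_eq_zero.1 h0, coeff_C_mul]
  exact Dvd.intro _ rfl

end Pool.Agent.P.MP_7cb106_nt.BI

/-! Step VA3. -/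

set_option autoImplicit false

namespace Pool.Agent.P.MP_7cb106_nt.BI

open Polynomial Module

theorem p_VA3 (hVA1 : S_VA1) :
    S_VA3 := by
  intro R _ _ t κ Δ N
  induction N with
  | zero =>
    intro z _ _ k c h w
    have := h w
    rw [Fintype.sum_subsingleton _ w] at this
    simpa using this
  | succ N ih =>
    intro z ht hz k c h w
    rw [← Fin.cons_self_tail w]
    refine ih (fun i => z i.succ) ht (fun i => hz i.succ) k (fun w' => c (Fin.cons (w 0) w'))
      (fun j' => ?_) (Fin.tail w)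
    refine hVA1 R t κ Δ (k + N * Δ) (z 0) (fun w0 => ∑ w' : Fin N → Fin κ,
      c (Fin.cons w0 w') * ∏ i, z i.succ (j' i) ^ (w' i : ℕ)) ht (hz 0) (fun j0 => ?_) (w 0)
    have := h (Fin.cons j0 j')
    rw [← (Fin.consEquiv fun _ => Fin κ).sum_comp, Fintype.sum_prod_type,
      show k + (N + 1) * Δ = k + N * Δ + Δ by ring] at this
    refine this.trans (dvd_of_eq (Finset.sum_congr rfl fun w0 _ => ?_))
    rw [Finset.sum_mul]
    refine Finset.sum_congr rfl fun w' _ => ?_
    rw [Fin.prod_univ_succ]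
    simp only [Fin.consEquiv_apply, Fin.cons_zero, Fin.cons_succ]
    rw [mul_assoc, mul_comm (_ ^ _)]
    rfl

end Pool.Agent.P.MP_7cb106_nt.BI

/-! Step CO0. -/

set_option autoImplicit false

namespace Pool.Agent.P.MP_7cb106_nt.BI

open Polynomial Module

theorem p_CO0 (hVAL : S_VAL) :
    S_CO0 := by
  intro p _ F V G L _ _ _ _ _ _ ρ u y c h0 hadd hy
  let χ : Multiplicative L →* Module.End F V :=
    { toFun := fun x => ρ (u x.toAdd)
      map_one' := by simp [h0]
      map_mul' := fun a b => by simp [hadd] }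
  let ν : AddMonoidAlgebra F L →ₐ[F] Module.End F V := AddMonoidAlgebra.lift F _ L χ
  have hν : ∀ x (a : F), ν (AddMonoidAlgebra.single x a) = a • ρ (u x) := fun x a =>
    AddMonoidAlgebra.lift_single χ x a
  have hE0 : ∀ a, ν a ∈ Esh ρ 0 := by
    intro a
    induction a using AddMonoidAlgebra.induction_linear with
    | zero => simp
    | add a b ha hb => rw [map_add]; exact add_mem ha hb
    | single x a => rw [hν]; exact Submodule.smul_mem _ _ (rho_mem_Esh _)
  let I : ℕ → Ideal (AddMonoidAlgebra F L) := fun i =>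
    { carrier := {a | ν a ∈ Esh ρ i}
      add_mem' := fun {a b} ha hb => by
        change ν (a + b) ∈ Esh ρ i
        rw [map_add]; exact add_mem ha hb
      zero_mem' := by
        change ν 0 ∈ Esh ρ i
        simp
      smul_mem' := fun a b hb => by
        change ν (a * b) ∈ Esh ρ i
        rw [map_mul]; simpa using Esh_mul (hE0 a) hb }
  have hI : ∀ i a, a ∈ I i ↔ ν a ∈ Esh ρ i := fun _ _ => Iff.rfl
  have h1 : ∀ x, AddMonoidAlgebra.single x (1 : F) - 1 ∈ I 1 := fun x => by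
    rw [hI, map_sub, hν, one_smul, map_one]; exact sub_one_mem_Esh _
  have hp : (p : AddMonoidAlgebra F L) = 0 := by
    rw [← map_natCast (algebraMap F (AddMonoidAlgebra F L)), CharP.cast_eq_zero, map_zero]
  obtain ⟨C, i1, i2, i3, i4, ψ, hψy, hψ⟩ := hVAL p (AddMonoidAlgebra F L) I
    (AddMonoidAlgebra.single y 1 - 1) c hp
    (by ext a; simpa using (hI 0 a).2 (hE0 a))
    (fun i j hij a ha => (hI _ _).2 (Esh_anti hij ((hI _ _).1 ha)))
    (fun i j a b ha hb => by rw [hI, map_mul]; exact Esh_mul ha hb) (h1 y)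
    (fun j hj => hy j (by
      rw [hI, map_pow, map_sub, hν, one_smul, map_one] at hj; exact hj))
  refine ⟨C, i1, i2, i3, i4, ψ.comp (algebraMap F _), fun x => ψ (AddMonoidAlgebra.single x 1),
    fun a => ?_, ⟨?_, fun a b => ?_, fun x => ?_⟩, fun h => hψy ?_, fun i z h d hd hz => ?_⟩
  · simpa using hψ 0 _ ((hI 0 _).2 (hE0 (algebraMap F _ a)))
  · rw [← AddMonoidAlgebra.one_def, map_one]
  · rw [← map_mul, AddMonoidAlgebra.single_mul_single, mul_one]
  · have := hψ 1 _ (h1 x)
    rwa [map_sub, map_one, pow_one] at this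
  · rw [map_sub, map_one]; exact sub_eq_zero.2 h
  · have e1 : (z.sum fun x a => (ψ.comp (algebraMap F _)) a * ψ (AddMonoidAlgebra.single (h x) 1))
        = ψ (z.sum fun x a => AddMonoidAlgebra.single (h x) a) := by
      rw [map_finsuppSum]
      refine Finsupp.sum_congr fun x _ => ?_
      rw [RingHom.comp_apply, ← map_mul, ← Algebra.smul_def, AddMonoidAlgebra.smul_single,
        smul_eq_mul, mul_one]
    rw [e1]
    refine hψ i _ ((hI _ _).2 ?_)
    have e2 : ν (z.sum fun x a => AddMonoidAlgebra.single (h x) a) =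
        ρ d * (Finsupp.linearCombination F (fun x => ρ (u x)) z * ρ d⁻¹) := by
      rw [map_finsuppSum, Finsupp.linearCombination_apply, Finsupp.sum_mul, Finsupp.mul_sum]
      refine Finsupp.sum_congr fun x _ => ?_
      rw [hν, smul_mul_assoc, mul_smul_comm, ← map_mul, ← map_mul, ← mul_assoc, hd,
        mul_inv_cancel_right]
    rw [e2]
    exact Esh_mul_left _ (Esh_mul_right hz _)

end Pool.Agent.P.MP_7cb106_nt.BI

/-! Step CO2. -/

set_option autoImplicit false

namespace Pool.Agent.P.MP_7cb106_nt.BI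

open Polynomial Module

/-- restriction of the representation to a step of the filtration -/
noncomputable def co2_res {F V G : Type} [Field F] [AddCommGroup V] [Module F V] [Group G]
    (ρ : G →* Module.End F V) (j : ℕ) : G →* Module.End F (fil ρ j) where
  toFun x := (ρ x).restrict fun _ hw => rho_mem_fil hw x
  map_one' := by ext w; simp
  map_mul' x y := by ext w; simp

theorem co2_res_apply {F V G : Type} [Field F] [AddCommGroup V] [Module F V] [Group G]
    (ρ : G →* Module.End F V) (j : ℕ) (x : G) (w : fil ρ j) :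
    (co2_res ρ j x w : V) = ρ x w := rfl

theorem p_CO2 (hA1 : S_A1) (hJOS : S_JOS) (hCMP : S_CMP) (hDET : S_DET) (hPRK : S_PRK) :
    S_CO2 := by
  intro p hp O _ _ _ f ω r e F V G _ _ _ _ _ Γ D g ρ u hWU hSm hf hr hadd hΓ hH
  have he : 1 ≤ e := by
    rcases Nat.eq_zero_or_pos e with h | h
    · have := hWU.hc; rw [h, pow_zero] at this; omega
    · exact h
  obtain ⟨c, hc⟩ := hDET p O f ω r e F hf hr he
  refine ⟨c, fun t γ j n h1 hjn hfd hker => ?_⟩
  obtain ⟨Ω, iΩ, x, x', hcard, hdet⟩ := hc t γ h1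
  choose d hd using hH
  let ν : (Fin r → O) → Module.End F (fil ρ j) := fun y => co2_res ρ j (u y)
  have hfin : finrank F (Submodule.span F (Set.range ν)) ≤ p ^ (r * f * n) := by
    obtain ⟨hs, hk, -⟩ := hPRK p O f ω r n
    have : NeZero (p ^ n) := ⟨pow_ne_zero _ hp.out.ne_zero⟩
    have e1 : Set.range ν = Set.range fun q => ν (Function.surjInv hs q) := by
      refine le_antisymm ?_ ?_
      · rintro _ ⟨y, rfl⟩
        refine ⟨pr ω r n y, ?_⟩
        have h2 := (hk _ _).1 (Function.surjInv_eq hs (pr ω r n y))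
        choose w hw using h2
        have h3 : Function.surjInv hs (pr ω r n y) = y + (p : O) ^ n • w := by
          funext i
          rw [Pi.add_apply, Pi.smul_apply, smul_eq_mul, ← hw i]; ring
        simp only [ν]
        rw [h3, hadd, map_mul]
        ext v
        have h4 := Esh_apply_eq_zero (hA1 p e F V G Γ D g ρ hWU hSm n (hΓ n w)) v.2 hjn
        rw [LinearMap.sub_apply, sub_eq_zero, Module.End.one_apply] at h4
        rw [Module.End.mul_apply, co2_res_apply, co2_res_apply, co2_res_apply, h4]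
      · rintro _ ⟨q, rfl⟩; exact ⟨_, rfl⟩
    rw [e1]
    refine (finrank_range_le_card _).trans (le_of_eq ?_)
    simp [← pow_mul, mul_comm]
  have key := hJOS F (Module.End F (fil ρ j)) (Fin r → O) (Cg O (Fin r) ((p : O) ^ e)) Ω ν
    (fun h y => (h.1 : Matrix (Fin r) (Fin r) O).mulVec y)
    (fun h => (co2_res ρ j).toHomUnits (d h.1 h.2)) x x' (p ^ (r * f * n)) (p ^ (r * f * t))
    (fun a b => by simp only [ν]; rw [hadd, map_mul])
    (fun h a => by
      simp only [ν, MonoidHom.coe_toHomUnits]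
      rw [← map_mul, ← map_mul, hd]) hfin
    (fun a ha => by
      obtain ⟨h, hh, h2⟩ := hdet a ha
      refine ⟨⟨h, hh⟩, h2.trans (Nat.mul_le_mul_left 2 (hCMP F _ _ _ Ω ν _ a _ fun z hz => ?_))⟩
      refine hker z fun w hw => ?_
      have h3 := congrArg (fun T : Module.End F (fil ρ j) => (T ⟨w, hw⟩ : V)) hz
      simpa [Finsupp.linearCombination_apply, Finsupp.sum, ν, co2_res_apply] using h3)
  rw [hcard, Module.finrank_linearMap] at key
  rw [sq]; exact key

end Pool.Agent.P.MP_7cb106_nt.BI
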