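import Pool.Agent.P.MP_7cb106_nt.BI.Iface

/-! From the core statement to the final form. -/

set_option autoImplicit false

namespace Pool.Agent.P.MP_7cb106_nt.BI

open Module

theorem fin_of (hCORE : S_CORE) (hWUA : S_WUA) (hA1 : S_A1)
    (p : ℕ) [hp : Fact p.Prime] (O : Type) [CommRing O] [IsDomain O] [Algebra ℤ_[p] O]
    [Module.Finite ℤ_[p] O] [Module.Free ℤ_[p] O] (n : ℕ) (Γ : ℕ → Subgroup (GL (Fin n) O))
    (hΓ : ∀ l g, g ∈ Γ l ↔ ∃ X : Matrix (Fin n) (Fin n) O,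
      (g : Matrix (Fin n) (Fin n) O) = 1 + (p : O) ^ l • X)
    (U : Subgroup (GL (Fin n) O)) (e : ℕ) (he : 3 ≤ p ^ e) (hU : Γ e ≤ U)
    (F V : Type) [Field F] [CharP F p] [AddCommGroup V] [Module F V] (π : Representation F U V)
    (Fix : ℕ → Submodule F V)
    (hFix : ∀ l v, v ∈ Fix l ↔ ∀ g : U, (g : GL (Fin n) O) ∈ Γ l → π g v = v)
    (smooth : ∀ v, ∃ l, v ∈ Fix l)
    (central : ∀ (z : U) (c : O), ((z : GL (Fin n) O) : Matrix (Fin n) (Fin n) O) =
      c • (1 : Matrix (Fin n) (Fin n) O) → ∃ a : F, ∀ v, π z v = a • v)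
    (adm : FiniteDimensional F (Fix e)) (inf : ¬ FiniteDimensional F V) (l : ℕ) :
    (((p ^ l - 1 + finrank ℤ_[p] O * (n - 1)).choose (finrank ℤ_[p] O * (n - 1)) : ℕ) :
      Cardinal) ≤ Module.rank F (Fix (e + l)) := by
  have hC : ∀ k, Γ k = Cg O (Fin n) ((p : O) ^ k) := fun k => by
    ext g; rw [hΓ, mem_Cg]
  cases n with
  | zero =>
    exfalso
    have : Fix e = ⊤ := eq_top_iff.2 fun v _ => (hFix e v).2 fun g _ => by
      have : g = 1 := Subtype.ext (Units.ext (Subsingleton.elim _ _))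
      rw [this, map_one]; rfl
    rw [this] at adm
    exact inf (Submodule.topEquiv.finiteDimensional)
  | succ r =>
    have hU' : Cg O (Fin (r + 1)) ((p : O) ^ e) ≤ U := hC e ▸ hU
    let ρ : Cg O (Fin (r + 1)) ((p : O) ^ e) →* Module.End F V :=
      π.comp (Subgroup.inclusion hU')
    have hρ : ∀ x v, ρ x v = π (Subgroup.inclusion hU' x) v := fun _ _ => rfl
    have hanti : ∀ k k', Γ (k + k') ≤ Γ k' := fun k k' g hg => by
      obtain ⟨X, hX⟩ := (hΓ _ g).1 hg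
      exact (hΓ _ g).2 ⟨(p : O) ^ k • X, by rw [hX, smul_smul, ← pow_add, add_comm k']⟩
    have hSm : Sm (Gam p O (Fin (r + 1)) e) ρ := fun v => by
      obtain ⟨k, hk⟩ := smooth v
      refine ⟨k, fun x hx => (hFix k v).1 hk _ (hanti e k ?_)⟩
      rw [hC]; exact hx
    have h1 : fil ρ 1 = Fix e := by
      ext v
      rw [mem_fil_one, hFix]
      exact ⟨fun h g hg => h ⟨g, hC e ▸ hg⟩, fun h x => h _ (by rw [hC]; exact x.2)⟩
    obtain ⟨D, g, hWU⟩ := hWUA p O (Fin (r + 1)) e he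
    have h2 : fil ρ (p ^ l - 1 + 1) ≤ Fix (e + l) := fun v hv => (hFix _ v).2 fun x hx => by
      have hx' : (x : GL (Fin (r + 1)) O) ∈ Cg O (Fin (r + 1)) ((p : O) ^ e) := by
        rw [← hC]; exact hanti l e (add_comm e l ▸ hx)
      have h3 := hA1 p e F V _ _ D g ρ hWU hSm l (x := ⟨x, hx'⟩)
        (Subgroup.mem_subgroupOf.2 (hC (e + l) ▸ hx))
      have h4 := Esh_apply_eq_zero h3 hv (by have := pow_pos hp.out.pos l; omega)
      rw [LinearMap.sub_apply, sub_eq_zero] at h4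
      exact h4
    refine (hCORE p O r e he F V ρ hSm (fun z c hz => central _ c ?_) (h1 ▸ adm) inf _).trans
      (Submodule.rank_mono h2)
    rw [Matrix.smul_one_eq_diagonal]; exact hz

end Pool.Agent.P.MP_7cb106_nt.BI
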