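import Pool.Agent.P.MP_7cb106_nt.BI.B1
import Pool.Agent.P.MP_7cb106_nt.BI.B2
import Pool.Agent.P.MP_7cb106_nt.BI.B3
import Pool.Agent.P.MP_7cb106_nt.BI.Fin
import Pool.Agent.P.MP_7cb106_nt.BC.All

/-! All steps together. -/

set_option autoImplicit false

namespace Pool.Agent.P.MP_7cb106_nt.BI

theorem all_A1 : S_A1 := p_A1
theorem all_A2 : S_A2 := p_A2 all_A1
theorem all_EMB : S_EMB := p_EMB all_A2
theorem all_GR : S_GR := p_GR all_A2 all_EMB
theorem all_A5 : S_A5 := p_A5 all_A1 all_GR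
theorem all_EXH : S_EXH := p_EXH
theorem all_FIN : S_FIN := p_FIN all_EMB
theorem all_A6 : S_A6 := p_A6 all_GR all_EXH all_FIN
theorem all_SCA : S_SCA := p_SCA
theorem all_LDA : S_LDA := p_LDA all_A2 all_EMB
theorem all_LD1 : S_LD1 := p_LD1
theorem all_LD2 : S_LD2 := p_LD2
theorem all_LD3 : S_LD3 := p_LD3
theorem all_LOW : S_LOW := p_LOW
theorem all_CNT : S_CNT := p_CNT
theorem all_DICH : S_DICH := p_DICH all_LDA all_LD1 all_LD2 all_LD3 all_LOW all_CNT
theorem all_UNIT : S_UNIT := p_UNIT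
theorem all_PWR : S_PWR := p_PWR
theorem all_WUA : S_WUA := p_WUA all_UNIT all_PWR
theorem all_NH : S_NH := p_NH
theorem all_A7A : S_A7A := p_A7A
theorem all_A7 : S_A7 := p_A7 all_UNIT all_A7A
theorem all_YEL : S_YEL := p_YEL all_A1 all_A6 all_A7
theorem all_ZS1 : S_ZS1 := p_ZS1
theorem all_ZS2 : S_ZS2 := p_ZS2
theorem all_FLD : S_FLD := p_FLD
theorem all_ACL : S_ACL := p_ACL
theorem all_VAL : S_VAL := p_VAL all_ZS1 all_ZS2 all_FLD all_ACL
theorem all_DP5 : S_DP5 := Pool.Agent.P.MP_7cb106_nt.BC.all_DP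
theorem all_IN1 : S_IN1 := p_IN1
theorem all_IN2 : S_IN2 := p_IN2
theorem all_IND : S_IND := p_IND all_IN1 all_IN2
theorem all_ANN : S_ANN := p_ANN
theorem all_PRK : S_PRK := p_PRK
theorem all_JOS : S_JOS := p_JOS
theorem all_CMP : S_CMP := p_CMP
theorem all_RANK : S_RANK := p_RANK
theorem all_VA1 : S_VA1 := p_VA1
theorem all_VA2 : S_VA2 := p_VA2
theorem all_VA3 : S_VA3 := p_VA3 all_VA1
theorem all_VAND : S_VAND := p_VAND all_VA2 all_VA3
theorem all_DUAL : S_DUAL := p_DUAL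
theorem all_TRN : S_TRN := p_TRN all_UNIT all_DUAL
theorem all_DET : S_DET := p_DET all_TRN all_VAND all_RANK all_PRK
theorem all_NUM : S_NUM := p_NUM
theorem all_CO0 : S_CO0 := p_CO0 all_VAL
theorem all_CO1 : S_CO1 := p_CO1 all_CO0 all_A5 all_DP5 all_IND all_ANN all_PRK all_UNIT
theorem all_CO2 : S_CO2 := p_CO2 all_A1 all_JOS all_CMP all_DET all_PRK
theorem all_CORE : S_CORE := p_CORE all_WUA all_NH all_SCA all_YEL all_DICH all_CO1 all_CO2 all_NUM
theorem all_INT : S_INT := p_INT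

end Pool.Agent.P.MP_7cb106_nt.BI
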