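import Pool.Agent.P.MP_7cb106_nt.BI.Iface

/-! Step A1. -/

set_option autoImplicit false

namespace Pool.Agent.P.MP_7cb106_nt.BI

open Polynomial Module

theorem p_A1 :
    S_A1 := by
  intro p c hp F V G _ _ _ _ _ Γ D g ρ hW hS l x hx j w hw
  obtain ⟨L, hL⟩ := hS w
  have key : ∀ k l', l ≤ l' → L ≤ l' + k → ∀ x ∈ Γ l', ∀ y,
      ρ x (ρ y w) - ρ y w ∈ fil ρ (j - p ^ l) := by
    intro k
    induction k with
    | zero =>
      intro l' _ h2 x hx y
      have h3 : y⁻¹ * x * y⁻¹⁻¹ ∈ Γ L := (hW.normal L).conj_mem x (hW.anti h2 hx) y⁻¹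
      have h4 : ρ x (ρ y w) = ρ y (ρ (y⁻¹ * x * y⁻¹⁻¹) w) := by
        rw [← Module.End.mul_apply, ← Module.End.mul_apply, ← map_mul, ← map_mul]
        congr 2; group
      rw [h4, hL _ h3, sub_self]
      exact zero_mem _
    | succ k ih =>
      intro l' h1 h2 x hx y
      obtain ⟨i, hi⟩ := hW.gen l' x hx
      have h3 := rho_mem_fil (ih (l' + 1) (by omega) (by omega) _ hi y) (g i ^ p ^ l')
      have h4 : ρ (g i ^ p ^ l') - 1 ∈ Esh ρ (p ^ l) := by
        rw [rho_pow_sub_one]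
        refine Esh_anti ?_ (Esh_pow (sub_one_mem_Esh _) _)
        rw [mul_one]
        exact Nat.pow_le_pow_right hp.out.pos h1
      have h5 := add_mem h3 (h4 j _ (rho_mem_fil hw y))
      rwa [map_sub, ← Module.End.mul_apply, ← map_mul, mul_inv_cancel_left, LinearMap.sub_apply,
        Module.End.one_apply, sub_add_sub_cancel] at h5
  simpa using key L l le_rfl (by omega) x hx 1

end Pool.Agent.P.MP_7cb106_nt.BI

/-! Step A5. -/

set_option autoImplicit false

namespace Pool.Agent.P.MP_7cb106_nt.BI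

open Polynomial Module

theorem a5_span {F V G : Type} [Field F] [AddCommGroup V] [Module F V] [Group G]
    {ρ : G →* Module.End F V} {y : G} {n : ℕ} (h : ∀ x, x * y * x⁻¹ * y⁻¹ ∈ Ssh ρ n)
    {a : Module.End F V} (ha : a ∈ Submodule.span F (Set.range ρ)) :
    a ∈ Esh ρ 0 ∧ a * (ρ y - 1) - (ρ y - 1) * a ∈ Esh ρ n := by
  induction ha using Submodule.span_induction with
  | mem a ha =>
    obtain ⟨x, rfl⟩ := ha
    refine ⟨rho_mem_Esh x, ?_⟩
    have e : ρ x * (ρ y - 1) - (ρ y - 1) * ρ x = (ρ (x * y * x⁻¹ * y⁻¹) - 1) * ρ (y * x) := by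
      have e1 : x * y * x⁻¹ * y⁻¹ * (y * x) = x * y := by group
      rw [sub_mul (ρ (x * y * x⁻¹ * y⁻¹)), ← map_mul, e1, map_mul, map_mul]
      noncomm_ring
    rw [e]
    exact Esh_mul_right (mem_Ssh.1 (h x)) _
  | zero => simp
  | add a b _ _ ha hb =>
    refine ⟨(Esh ρ 0).add_mem ha.1 hb.1, ?_⟩
    have e : (a + b) * (ρ y - 1) - (ρ y - 1) * (a + b) =
        (a * (ρ y - 1) - (ρ y - 1) * a) + (b * (ρ y - 1) - (ρ y - 1) * b) := by noncomm_ring
    rw [e]
    exact (Esh ρ n).add_mem ha.2 hb.2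
  | smul c a _ ha =>
    refine ⟨(Esh ρ 0).smul_mem c ha.1, ?_⟩
    rw [smul_mul_assoc, mul_smul_comm, ← smul_sub]
    exact (Esh ρ n).smul_mem c ha.2

theorem p_A5 (hA1 : S_A1) (hGR : S_GR) :
    S_A5 := by
  intro p c _ F V G _ _ _ _ _ Γ D g ρ hW hS l a ha h0
  have hq : 1 ≤ p ^ l := Nat.pow_pos (Fact.out : p.Prime).pos
  have h3 : 2 * p ^ l ≤ p ^ (l + c) := by
    rw [pow_add, mul_comm]
    exact Nat.mul_le_mul_left _ (by have := hW.hc; omega)
  have hs : ∀ i, a ∈ Esh ρ 0 ∧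
      a * (ρ (g i) - 1) ^ p ^ l - (ρ (g i) - 1) ^ p ^ l * a ∈ Esh ρ (2 * p ^ l) := by
    intro i
    have := a5_span (ρ := ρ) (y := g i ^ p ^ l) (n := p ^ (l + c))
      (fun x => hA1 p c F V G Γ D g ρ hW hS (l + c) (hW.com l x _ (hW.pow l _))) ha
    rw [rho_pow_sub_one p] at this
    exact ⟨this.1, Esh_anti h3 this.2⟩
  have ha0 : a ∈ Esh ρ 0 := (a5_span (ρ := ρ) (y := 1) (n := 0)
    (fun x => by simp) ha).1
  have hG := hGR p c F V G Γ D g ρ hW hS (p ^ l)
  generalize p ^ l = q at *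
  intro j
  induction j using Nat.strong_induction_on with
  | _ j ih =>
    intro w hw
    rcases le_or_gt j ((D + 1) * q) with hj | hj
    · rw [h0 w (fil_mono hj hw)]
      exact (fil ρ _).zero_mem
    rw [Nat.add_one_mul] at hj
    have hB : ∀ i, ((ρ (g i) - 1) ^ q) (a w) ∈ fil ρ (j - 2 * q) := by
      intro i
      have h1 : (ρ (g i) - 1) ^ q ∈ Esh ρ q := by
        simpa using Esh_pow (sub_one_mem_Esh (ρ := ρ) (g i)) q
      have h2 := ih (j - q) (by omega) _ (h1 j w hw)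
      have h4 := (hs i).2 j w hw
      rw [Nat.sub_sub, ← two_mul] at h2
      have h5 := (fil ρ _).sub_mem h2 h4
      simpa using h5
    have hD : D * (q - 1) ≤ D * q := Nat.mul_le_mul_left _ (Nat.sub_le _ _)
    have key : ∀ d, d ≤ q → a w ∈ fil ρ (j - d) := by
      intro d
      induction d with
      | zero => exact fun _ => ha0 j w hw
      | succ d ihd =>
        intro hd
        refine hG (j - (d + 1)) (a w) hq (by omega) ?_ fun i => fil_mono (by omega) (hB i)
        have e : j - (d + 1) + 1 = j - d := by omega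
        rw [e]
        exact ihd (by omega)
    exact key q le_rfl

end Pool.Agent.P.MP_7cb106_nt.BI

/-! Step EXH. -/

set_option autoImplicit false

namespace Pool.Agent.P.MP_7cb106_nt.BI

open Polynomial Module

section
variable {F V G : Type} [Field F] [AddCommGroup V] [Module F V] [Group G]

/-- the elements that fix `w` modulo the stable subspace `P` -/
def exh_St (ρ : G →* Module.End F V) (P : Submodule F V) (hP : ∀ x, ∀ u ∈ P, ρ x u ∈ P) (w : V) :
    Subgroup G where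
  carrier := {x | ρ x w - w ∈ P}
  one_mem' := by simp
  mul_mem' {x y} hx hy := by
    have : ρ (x * y) w - w = ρ x (ρ y w - w) + (ρ x w - w) := by simp
    simp only [Set.mem_ofPred_eq, this]
    exact P.add_mem (hP _ _ hy) hx
  inv_mem' {x} hx := by
    have : ρ x⁻¹ w - w = -ρ x⁻¹ (ρ x w - w) := by
      rw [map_sub, ← Module.End.mul_apply, ← map_mul, inv_mul_cancel, map_one]; simp
    simp only [Set.mem_ofPred_eq, this]
    exact P.neg_mem (hP _ _ hx)

variable {ρ : G →* Module.End F V} {P : Submodule F V} {hP : ∀ x, ∀ u ∈ P, ρ x u ∈ P}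

theorem exh_mem {w : V} {x : G} : x ∈ exh_St ρ P hP w ↔ ρ x w - w ∈ P := Iff.rfl

theorem exh_move {w : V} {x t : G} (h1 : t⁻¹ * x * t ∈ exh_St ρ P hP w)
    (h2 : x ∈ exh_St ρ P hP w) : x ∈ exh_St ρ P hP ((ρ t - 1) w) := by
  have : ρ x ((ρ t - 1) w) - (ρ t - 1) w = ρ t (ρ (t⁻¹ * x * t) w - w) - (ρ x w - w) := by
    rw [map_sub (ρ t), ← Module.End.mul_apply (ρ t), ← map_mul, ← mul_assoc, ← mul_assoc,
      mul_inv_cancel, one_mul]
    simp only [LinearMap.sub_apply, Module.End.one_apply, map_sub, map_mul, Module.End.mul_apply]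
    abel
  rw [exh_mem, this]
  exact P.sub_mem (hP _ _ h1) h2

theorem exh_down {p c : ℕ} {Γ : ℕ → Subgroup G} {D : ℕ} {g : Fin D → G} (h : WU p c Γ g)
    {S : Subgroup G} {L : ℕ} (h1 : Γ (L + 1) ≤ S) (h2 : ∀ i, g i ^ p ^ L ∈ S) : Γ L ≤ S :=
  fun x hx => by
    obtain ⟨i, hi⟩ := h.gen L x hx
    simpa using S.mul_mem (h2 i) (h1 hi)

theorem exh_step {p c : ℕ} [Fact p.Prime] [CharP F p] {Γ : ℕ → Subgroup G} {D : ℕ}
    {g : Fin D → G} (h : WU p c Γ g) {L : ℕ} {v : V} (hv : v ∉ P)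
    (h1 : Γ (L + 1) ≤ exh_St ρ P hP v) : ∃ w, w ∉ P ∧ Γ L ≤ exh_St ρ P hP w := by
  classical
  have hc : 1 ≤ c := by
    by_contra h0
    have := h.hc
    rw [show c = 0 by omega] at this
    simp at this
  have key : ∀ s : Finset (Fin D), ∃ w, w ∉ P ∧ Γ (L + 1) ≤ exh_St ρ P hP w ∧
      ∀ i ∈ s, g i ^ p ^ L ∈ exh_St ρ P hP w := by
    intro s
    induction s using Finset.induction_on with
    | empty => exact ⟨v, hv, h1, by simp⟩
    | insert i s _ ih =>
      obtain ⟨w, w1, w2, w3⟩ := ih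
      set t := g i ^ p ^ L with ht
      have inv : ∀ n : ℕ, Γ (L + 1) ≤ exh_St ρ P hP (((ρ t - 1) ^ n) w) ∧
          ∀ j ∈ s, g j ^ p ^ L ∈ exh_St ρ P hP (((ρ t - 1) ^ n) w) := by
        intro n
        induction n with
        | zero => simpa using ⟨w2, w3⟩
        | succ n ih =>
          rw [pow_succ', Module.End.mul_apply]
          refine ⟨fun x hx => exh_move (ih.1 ?_) (ih.1 hx), fun j hj => exh_move ?_ (ih.2 j hj)⟩
          · simpa using (h.normal _).conj_mem x hx t⁻¹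
          · have := h.anti (Nat.add_le_add_left hc L) (h.com L t⁻¹ _ (h.pow L (g j)))
            simpa using Subgroup.mul_mem _ (ih.1 this) (ih.2 j hj)
      have ex : ∃ n : ℕ, ((ρ t - 1) ^ n) w ∈ P := by
        refine ⟨p ^ 1, ?_⟩
        rw [← rho_pow_sub_one p, ht, ← pow_mul, ← pow_add]
        exact w2 (h.pow _ _)
      have n0 : Nat.find ex ≠ 0 := fun e => w1 (by simpa [e] using Nat.find_spec ex)
      obtain ⟨n, hn⟩ := Nat.exists_eq_succ_of_ne_zero n0
      refine ⟨((ρ t - 1) ^ n) w, Nat.find_min ex (by omega), (inv n).1, fun j hj => ?_⟩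
      rcases Finset.mem_insert.1 hj with rfl | hj
      · have := Nat.find_spec ex
        rw [hn, pow_succ', Module.End.mul_apply] at this
        exact this
      · exact (inv n).2 j hj
  obtain ⟨w, w1, w2, w3⟩ := key Finset.univ
  exact ⟨w, w1, exh_down h w2 fun i => w3 i (Finset.mem_univ i)⟩

end

theorem p_EXH :
    S_EXH := by
  intro p c _ F V G _ _ _ _ _ Γ D g ρ h hs v
  have hm : ∀ u, u ∈ ⨆ j, fil ρ j ↔ ∃ j, u ∈ fil ρ j := fun u =>
    Submodule.mem_iSup_of_directed _ fil_mono.directed_le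
  have hP : ∀ x, ∀ u ∈ ⨆ j, fil ρ j, ρ x u ∈ ⨆ j, fil ρ j := fun x u hu =>
    (hm _).2 (((hm u).1 hu).imp fun _ hj => rho_mem_fil hj x)
  have key : ∀ L u, u ∉ ⨆ j, fil ρ j → ¬ Γ L ≤ exh_St ρ _ hP u := by
    intro L
    induction L with
    | succ L ih =>
      intro u hu hL
      obtain ⟨w, w1, w2⟩ := exh_step h hu hL
      exact ih w w1 w2
    | zero =>
      intro u hu hL
      choose J hJ using fun i => (hm _).1 (hL (h.top ▸ Subgroup.mem_top (g i)))
      obtain ⟨L, hL'⟩ := hs u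
      set j := Finset.univ.sup J
      have hj : ∀ l, Γ l ≤ exh_St ρ (fil ρ j) (fun x _ hw => rho_mem_fil hw x) u →
          Γ 0 ≤ exh_St ρ (fil ρ j) (fun x _ hw => rho_mem_fil hw x) u := by
        intro l
        induction l with
        | zero => exact id
        | succ l ih =>
          exact fun hl => ih (exh_down h hl fun i => Subgroup.pow_mem _
            (exh_mem.2 (fil_mono (Finset.le_sup (Finset.mem_univ i)) (hJ i))) _)
      have := hj L fun x hx => by rw [exh_mem, hL' x hx, sub_self]; exact zero_mem _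
      exact hu ((hm u).2 ⟨j + 1, mem_fil_succ.2 fun x => this (h.top ▸ Subgroup.mem_top x)⟩)
  by_contra hv
  obtain ⟨L, hL⟩ := hs v
  exact key L v (fun e => hv ((hm v).1 e)) fun x hx => by
    rw [exh_mem, hL x hx, sub_self]; exact zero_mem _

end Pool.Agent.P.MP_7cb106_nt.BI

/-! Step SCA. -/

set_option autoImplicit false

namespace Pool.Agent.P.MP_7cb106_nt.BI

open Polynomial Module

theorem p_SCA :
    S_SCA := by
  intro p c _ F V G _ _ _ _ _ Γ D g ρ hW hS z ⟨a, ha⟩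
  have hn : ∀ (n : ℕ) (v : V), ρ (z ^ n) v = a ^ n • v := by
    intro n
    induction n with
    | zero => intro v; simp
    | succ n ih =>
      intro v
      rw [pow_succ, map_mul, Module.End.mul_apply, ha, map_smul, ih, smul_smul, pow_succ']
  ext v
  by_cases hv : v = 0
  · simp [hv]
  obtain ⟨l, hl⟩ := hS v
  have h1 := hl _ (hW.pow l z)
  rw [hn] at h1
  have h2 : (a ^ p ^ l - 1) • v = 0 := by rw [sub_smul, h1, one_smul, sub_self]
  have h3 : a ^ p ^ l - 1 = 0 := (smul_eq_zero.1 h2).resolve_right hv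
  have h4 : (a - 1) ^ p ^ l = 0 := by rw [sub_pow_char_pow, one_pow, h3]
  have h5 : a = 1 := sub_eq_zero.1 (pow_eq_zero_iff (pow_ne_zero _ (Fact.out : p.Prime).ne_zero) |>.1 h4)
  rw [ha, h5, one_smul, Module.End.one_apply]

end Pool.Agent.P.MP_7cb106_nt.BI

/-! Step LD2. -/

set_option autoImplicit false

namespace Pool.Agent.P.MP_7cb106_nt.BI

open Polynomial Module

theorem p_LD2 :
    S_LD2 := by
  intro F V _ _ _ D d π c b h a j
  set S : Set (Fin D → ℕ) := {α ∈ Ld π c a | ∑ i, α i ≤ j} with hS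
  by_cases hfin : S.Finite
  swap
  · rw [Set.Infinite.ncard hfin]; simp
  rw [Set.cast_ncard hfin]
  have hw : ∀ α : S, ∃ w ∈ π (∑ i, α.1 i + 1), c α.1 a w ≠ 0 ∧ ∀ β a', ∑ i, β i = ∑ i, α.1 i →
      (a < a' ∨ (a = a' ∧ toLex α.1 < toLex β)) → c β a' w = 0 := fun α => α.2.1
  choose w hw1 hw2 hw3 using hw
  have hm : ∀ α : S, w α ∈ π (j + 1) := fun α =>
    h.mono (Nat.succ_le_succ α.2.2) (hw1 α)
  have hli : LinearIndependent F (fun α : S => (⟨w α, hm α⟩ : π (j + 1))) := by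
    classical
    rw [linearIndependent_iff']
    intro s g hg
    by_contra hne
    push Not at hne
    obtain ⟨i0, hi0, hg0⟩ := hne
    obtain ⟨α, hα, hmax⟩ := Finset.exists_max_image (s.filter fun i => g i ≠ 0)
      (fun i : S => toLex (∑ k, i.1 k, toLex i.1)) ⟨i0, Finset.mem_filter.2 ⟨hi0, hg0⟩⟩
    have h0 : ∑ i ∈ s, g i • w i = 0 := by
      have := congrArg (π (j + 1)).subtype hg
      simpa [map_sum] using this
    have h1 : ∑ i ∈ s, g i * c α.1 a (w i) = 0 := by
      have := congrArg (c α.1 a) h0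
      simpa [map_sum] using this
    rw [Finset.sum_eq_single α] at h1
    · exact mul_ne_zero (Finset.mem_filter.1 hα).2 (hw2 α) h1
    · intro i hi hne
      by_cases hgi : g i = 0
      · simp [hgi]
      have hle := hmax i (Finset.mem_filter.2 ⟨hi, hgi⟩)
      rcases Prod.Lex.toLex_le_toLex.1 hle with hlt | ⟨he, hle'⟩
      · rw [h.van _ _ (hw1 i) α.1 a hlt, mul_zero]
      · have hlt : toLex i.1 < toLex α.1 :=
          lt_of_le_of_ne hle' fun e => hne (Subtype.ext (toLex.injective e))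
        rw [hw3 i α.1 a he.symm (Or.inr ⟨rfl, hlt⟩), mul_zero]
    · intro hn
      exact absurd (Finset.mem_filter.1 hα).1 hn
  exact hli.cardinal_le_rank

end Pool.Agent.P.MP_7cb106_nt.BI

/-! Step DICH. -/

set_option autoImplicit false

namespace Pool.Agent.P.MP_7cb106_nt.BI

open Polynomial Module

theorem p_DICH (hLDA : S_LDA) (hLD1 : S_LD1) (hLD2 : S_LD2) (hLD3 : S_LD3) (hLOW : S_LOW) (hCNT : S_CNT) :
    S_DICH := by
  intro p c _ F V G _ _ _ _ _ Γ D g ρ hWU hSm hfd m hm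
  obtain ⟨d, φ, hLD⟩ := hLDA p c F V G Γ D g ρ hWU hSm hfd
  by_cases h : ∃ a, ∃ I : Finset (Fin D), I.card = m ∧
      ∀ α : Fin D → ℕ, (∀ i, i ∉ I → α i = 0) → α ∈ Ld (fil ρ) φ a
  · obtain ⟨a, I, hI, hα⟩ := h
    refine Or.inl fun j => le_trans ?_ (hLD2 F V D d _ φ _ hLD a j)
    exact_mod_cast hI ▸ hCNT D j I _ hα
  · have h2 : ∀ a, ∃ C : ℕ, ∀ j, {α ∈ Ld (fil ρ) φ a | ∑ i, α i ≤ j}.ncard ≤
        C * (j + 1) ^ (m - 1) := fun a =>
      (hLOW D m _ hm (hLD1 F V D d _ φ _ hLD a)).resolve_left fun h' => h ⟨a, h'⟩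
    choose C hC using h2
    refine Or.inr ⟨∑ a, C a, fun j => ?_⟩
    cases j with
    | zero => rw [fil_zero]; exact ⟨inferInstance, by simp⟩
    | succ j =>
      obtain ⟨h3, h4⟩ := hLD3 F V D d _ φ _ hLD j
      refine ⟨h3, h4.trans ?_⟩
      rw [Finset.sum_mul]
      exact Finset.sum_le_sum fun a _ => (hC a j).trans
        (Nat.mul_le_mul_left _ (Nat.pow_le_pow_left (by omega) _))

end Pool.Agent.P.MP_7cb106_nt.BI

/-! Step UNIT. -/

set_option autoImplicit false

namespace Pool.Agent.P.MP_7cb106_nt.BI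

open Polynomial Module

theorem p_UNIT :
    S_UNIT := by
  intro p _ O n _ _ _ _ _ X
  rw [Matrix.isUnit_iff_isUnit_det]
  by_contra h
  obtain ⟨m, hm, h1⟩ := exists_max_ideal_of_mem_nonunits (mem_nonunits_iff.2 h)
  have h2 : (m.comap (algebraMap ℤ_[p] O)).IsMaximal :=
    Ideal.isMaximal_comap_of_isIntegral_of_isMaximal m
  have h3 : (p : O) ∈ m := by
    have : (p : ℤ_[p]) ∈ m.comap (algebraMap ℤ_[p] O) := by
      rw [IsLocalRing.eq_maximalIdeal h2, PadicInt.maximalIdeal_eq_span_p]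
      exact Ideal.mem_span_singleton_self _
    simpa using this
  rw [Matrix.det_one_add_smul] at h1
  refine hm.ne_top ((Ideal.eq_top_iff_one m).2 ?_)
  exact (m.add_mem_iff_left (m.mul_mem_left X.trace h3)).1
    ((m.add_mem_iff_left (m.mul_mem_left _ (m.pow_mem_of_mem h3 2 two_pos))).1 h1)

end Pool.Agent.P.MP_7cb106_nt.BI

/-! Step PWR. -/

set_option autoImplicit false

namespace Pool.Agent.P.MP_7cb106_nt.BI

open Polynomial Module

theorem pwr_dvd {p k i : ℕ} (hp : p.Prime) (hk : 3 ≤ p ^ k) (hi : i + 2 ≤ p) :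
    p ^ (k + 2) ∣ p.choose (i + 2) * p ^ (k * (i + 2)) := by
  have hk0 : 1 ≤ k := by
    rcases Nat.eq_zero_or_pos k with h | h
    · subst h; simp at hk
    · exact h
  rcases hi.lt_or_eq with h | h
  · have h1 : p ∣ p.choose (i + 2) := hp.dvd_choose_self (by omega) h
    have h2 : p ^ (k + 1) ∣ p ^ (k * (i + 2)) := pow_dvd_pow _ (by nlinarith)
    rw [show k + 2 = 1 + (k + 1) by omega, pow_add, pow_one]
    exact mul_dvd_mul h1 h2
  · refine Dvd.dvd.mul_left (pow_dvd_pow _ ?_) _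
    rcases Nat.eq_zero_or_pos i with h0 | h0
    · subst h0
      have hp2 : p = 2 := by omega
      have : 2 ≤ k := by
        by_contra hc
        have : k = 1 := by omega
        subst this
        rw [hp2] at hk
        simp at hk
      omega
    · nlinarith

theorem pwr_step {p : ℕ} (hp : p.Prime) {R : Type} [Ring R] {k : ℕ} (hk : 3 ≤ p ^ k) (Z : R) :
    ∃ Y : R, (1 + p ^ k • Z) ^ p = 1 + p ^ (k + 1) • Z + p ^ (k + 2) • Y := by
  obtain ⟨m, hm⟩ : ∃ m, p = m + 1 := ⟨p - 1, by have := hp.pos; omega⟩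
  have hex : ∀ i ∈ Finset.range m, ∃ Y : R,
      (p ^ k • Z) ^ (i + 2) * (p.choose (i + 2) : R) = p ^ (k + 2) • Y := by
    intro i hi
    have hi' : i + 2 ≤ p := by have := Finset.mem_range.1 hi; omega
    obtain ⟨c, hc⟩ := pwr_dvd hp hk hi'
    refine ⟨c • Z ^ (i + 2), ?_⟩
    rw [_root_.smul_pow, ← pow_mul, ← mul_smul, ← hc, ← nsmul_eq_mul', ← mul_smul]
  choose! Y hY using hex
  refine ⟨∑ i ∈ Finset.range m, Y i, ?_⟩
  have h := (Commute.one_right (p ^ k • Z)).add_pow p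
  rw [add_comm (1 : R) (p ^ k • Z), h]
  have hr : Finset.range (p + 1) = Finset.range (m + 1 + 1) := by rw [hm]
  rw [hr, Finset.sum_range_succ', Finset.sum_range_succ', Finset.smul_sum]
  have h2 : ∑ i ∈ Finset.range m, (p ^ k • Z) ^ (i + 1 + 1) * 1 ^ (p - (i + 1 + 1)) *
      (p.choose (i + 1 + 1) : R) = ∑ i ∈ Finset.range m, p ^ (k + 2) • Y i := by
    refine Finset.sum_congr rfl fun i hi => ?_
    rw [one_pow, mul_one]
    exact hY i hi
  rw [h2]
  simp only [zero_add, pow_one, one_pow, mul_one, Nat.choose_one_right, pow_zero,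
    Nat.choose_zero_right, Nat.cast_one]
  rw [← nsmul_eq_mul', ← mul_smul, ← pow_succ']
  abel

theorem pwr_nat {p : ℕ} (hp : p.Prime) {R : Type} [Ring R] {e : ℕ} (he : 3 ≤ p ^ e) (X : R)
    (l : ℕ) : ∃ Y : R, (1 + p ^ e • X) ^ p ^ l = 1 + p ^ (e + l) • X + p ^ (e + l + 1) • Y := by
  induction l with
  | zero => exact ⟨0, by simp⟩
  | succ l ih =>
    obtain ⟨Y, hY⟩ := ih
    have hk : 3 ≤ p ^ (e + l) :=
      he.trans (Nat.pow_le_pow_right hp.pos (Nat.le_add_right _ _))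
    obtain ⟨W, hW⟩ := pwr_step hp hk (X + p • Y)
    refine ⟨Y + W, ?_⟩
    have h1 : 1 + p ^ (e + l) • X + p ^ (e + l + 1) • Y = 1 + p ^ (e + l) • (X + p • Y) := by
      rw [smul_add, ← mul_smul, ← pow_succ, add_assoc]
    rw [pow_succ, pow_mul, hY, h1, hW, smul_add, smul_add, ← mul_smul, ← pow_succ]
    simp only [add_assoc]

theorem p_PWR :
    S_PWR := by
  intro p hp O R _ _ _ e l X he
  obtain ⟨Y, hY⟩ := pwr_nat hp.out he X l
  refine ⟨Y, ?_⟩
  have h : ∀ (n : ℕ) (Z : R), (p : O) ^ n • Z = p ^ n • Z := by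
    intro n Z
    rw [← Nat.cast_pow, Nat.cast_smul_eq_nsmul]
  rw [h, h, h, hY]

end Pool.Agent.P.MP_7cb106_nt.BI

/-! Step NH. -/

set_option autoImplicit false

namespace Pool.Agent.P.MP_7cb106_nt.BI

open Polynomial Module

section
variable {O : Type} [CommRing O] {r : ℕ}

theorem nh_col_mul (x y : Fin r → O) : col x * col y = 0 := by
  ext i j
  rw [Matrix.mul_apply, Fin.sum_univ_succ]
  simp [col]

theorem nh_col_add (x y : Fin r → O) : col (x + y) = col x + col y := by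
  ext i j
  by_cases hj : j = 0
  · refine Fin.cases ?_ (fun i => ?_) i <;> simp [col, hj]
  · simp [col, hj]

theorem nh_col_zero : col (0 : Fin r → O) = 0 := by
  ext i j
  by_cases hj : j = 0
  · refine Fin.cases ?_ (fun i => ?_) i <;> simp [col, hj]
  · simp [col, hj]

/-- block matrix with top left entry `c` and lower block `h` -/
def nh_blk (c : O) (h : Matrix (Fin r) (Fin r) O) : Matrix (Fin (r + 1)) (Fin (r + 1)) O :=
  Matrix.of fun i j => Fin.cases (Fin.cases c (fun _ => 0) j)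
    (fun i' => Fin.cases 0 (fun j' => h i' j') j) i

theorem nh_blk_mul (c c' : O) (h h' : Matrix (Fin r) (Fin r) O) :
    nh_blk c h * nh_blk c' h' = nh_blk (c * c') (h * h') := by
  ext i j
  rw [Matrix.mul_apply, Fin.sum_univ_succ]
  refine Fin.cases ?_ (fun i => ?_) i <;> refine Fin.cases ?_ (fun j => ?_) j <;>
    simp [nh_blk, Matrix.mul_apply]

theorem nh_blk_one : nh_blk (1 : O) (1 : Matrix (Fin r) (Fin r) O) = 1 := by
  ext i j
  refine Fin.cases ?_ (fun i => ?_) i <;> refine Fin.cases ?_ (fun j => ?_) j <;>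
    simp [nh_blk, Matrix.one_apply, Fin.succ_ne_zero, (Fin.succ_ne_zero _).symm]

theorem nh_blk_add (a : O) (M : Matrix (Fin r) (Fin r) O) :
    nh_blk (1 : O) (1 + a • M) = 1 + a • nh_blk 0 M := by
  ext i j
  refine Fin.cases ?_ (fun i => ?_) i <;> refine Fin.cases ?_ (fun j => ?_) j <;>
    simp [nh_blk, Matrix.one_apply, Fin.succ_ne_zero, (Fin.succ_ne_zero _).symm]

theorem nh_blk_col (c : O) (h : Matrix (Fin r) (Fin r) O) (x : Fin r → O) :
    nh_blk c h * col x = col (h.mulVec x) := by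
  ext i j
  rw [Matrix.mul_apply, Fin.sum_univ_succ]
  by_cases hj : j = 0
  · refine Fin.cases ?_ (fun i => ?_) i <;> simp [nh_blk, col, hj, Matrix.mulVec, dotProduct]
  · simp [col, hj]

theorem nh_col_blk (h : Matrix (Fin r) (Fin r) O) (y : Fin r → O) :
    col y * nh_blk 1 h = col y := by
  ext i j
  rw [Matrix.mul_apply, Fin.sum_univ_succ]
  refine Fin.cases ?_ (fun j => ?_) j <;> simp [nh_blk, col]

/-- the unipotent unit -/
def nh_unit (a : O) (x : Fin r → O) : GL (Fin (r + 1)) O where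
  val := 1 + a • col x
  inv := 1 - a • col x
  val_inv := by
    rw [add_mul, mul_sub, mul_sub, one_mul, one_mul, mul_one, Matrix.smul_mul, Matrix.mul_smul,
      nh_col_mul]
    simp
  inv_val := by
    rw [sub_mul, mul_add, mul_add, one_mul, one_mul, mul_one, Matrix.smul_mul, Matrix.mul_smul,
      nh_col_mul]
    simp

/-- the block unit -/
def nh_dunit (h : GL (Fin r) O) : GL (Fin (r + 1)) O where
  val := nh_blk 1 (h : Matrix (Fin r) (Fin r) O)
  inv := nh_blk 1 ((h⁻¹ : GL (Fin r) O) : Matrix (Fin r) (Fin r) O)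
  val_inv := by
    rw [nh_blk_mul, one_mul, ← Units.val_mul, mul_inv_cancel, Units.val_one, nh_blk_one]
  inv_val := by
    rw [nh_blk_mul, one_mul, ← Units.val_mul, inv_mul_cancel, Units.val_one, nh_blk_one]

end

theorem p_NH :
    S_NH := by
  intro O _ r a
  refine ⟨fun x => ⟨nh_unit a x, mem_Cg.2 ⟨col x, rfl⟩⟩, fun x => rfl, ?_, ?_, ?_⟩
  · refine Subtype.ext (Units.ext ?_)
    change 1 + a • col (0 : Fin r → O) = 1
    rw [nh_col_zero, smul_zero, add_zero]
  · intro x y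
    refine Subtype.ext (Units.ext ?_)
    change 1 + a • col (x + y) = (1 + a • col x) * (1 + a • col y)
    rw [add_mul, mul_add, mul_add, one_mul, one_mul, mul_one, Matrix.smul_mul, Matrix.mul_smul,
      nh_col_mul, nh_col_add, smul_add]
    simp only [smul_zero, add_zero]
    abel
  · intro h hh
    obtain ⟨M, hM⟩ := mem_Cg.1 hh
    refine ⟨⟨nh_dunit h, mem_Cg.2 ⟨nh_blk 0 M, ?_⟩⟩, fun x => ?_⟩
    · change nh_blk 1 (h : Matrix (Fin r) (Fin r) O) = _
      rw [hM, nh_blk_add]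
    · refine Subtype.ext (Units.ext ?_)
      change nh_blk 1 (h : Matrix (Fin r) (Fin r) O) * (1 + a • col x) =
        (1 + a • col ((h : Matrix (Fin r) (Fin r) O).mulVec x)) *
          nh_blk 1 (h : Matrix (Fin r) (Fin r) O)
      rw [mul_add, add_mul, mul_one, one_mul, Matrix.mul_smul, Matrix.smul_mul, nh_blk_col,
        nh_col_blk]

end Pool.Agent.P.MP_7cb106_nt.BI

/-! Step VAL. -/

set_option autoImplicit false

namespace Pool.Agent.P.MP_7cb106_nt.BI

open Polynomial Module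

theorem val_le {p : ℕ} (hp : 1 < p) {s m : ℝ} (hm : 0 ≤ m)
    (h : ∀ j : ℕ, s ^ p ^ j ≤ 2 * m ^ p ^ j) : s ≤ m := by
  by_contra hn
  have hn : m < s := not_le.1 hn
  have s0 : 0 < s := hm.trans_lt hn
  have r0 : 0 ≤ m / s := div_nonneg hm s0.le
  have r1 : m / s < 1 := (div_lt_one s0).2 hn
  obtain ⟨j, hj⟩ := exists_pow_lt_of_lt_one (show (0 : ℝ) < 1 / 2 by norm_num) r1
  have h1 : (m / s) ^ p ^ j ≤ (m / s) ^ j :=
    pow_le_pow_of_le_one r0 r1.le (Nat.lt_pow_self hp).le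
  have h2 := h1.trans_lt hj
  rw [div_pow, div_lt_iff₀ (pow_pos s0 _)] at h2
  linarith [h j]

theorem val_msn (p : ℕ) [Fact p.Prime] {A : Type} [CommRing A] (hp : (p : A) = 0)
    (g : RingSeminorm A) {y : A} (hy : g y ≠ 0) (hm : ∀ a b, g (a * b) = g a * g b) : MSN g := by
  have h1 : g 1 = 1 := by
    have := hm 1 y
    rw [one_mul] at this
    exact mul_right_cancel₀ hy (by rw [← this, one_mul])
  have : Nontrivial A := ⟨y, 0, fun e => hy (by rw [e, map_zero])⟩
  have : CharP A p := (CharP.charP_iff_prime_eq_zero Fact.out).2 hp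
  have hpow : ∀ (a : A) (n : ℕ), g (a ^ n) = g a ^ n := fun a n => by
    induction n with
    | zero => rw [pow_zero, pow_zero, h1]
    | succ n ih => rw [pow_succ, pow_succ, hm, ih]
  refine ⟨apply_nonneg g, map_zero g, h1, hm, fun a b => ?_⟩
  refine val_le (Fact.out : p.Prime).one_lt (le_max_of_le_left (apply_nonneg g a)) fun j => ?_
  rw [← hpow, add_pow_char_pow]
  refine (map_add_le_add g _ _).trans ?_
  rw [hpow, hpow]
  linarith [pow_le_pow_left₀ (apply_nonneg g a) (le_max_left (g a) (g b)) (p ^ j),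
    pow_le_pow_left₀ (apply_nonneg g b) (le_max_right (g a) (g b)) (p ^ j)]

theorem p_VAL (hZS1 : S_ZS1) (hZS2 : S_ZS2) (hFLD : S_FLD) (hACL : S_ACL) :
    S_VAL := by
  intro p _ A _ I y c hp h0 ha hm hy hn
  obtain ⟨f, f1, f2, f3, f4⟩ := hZS1 p A I y c h0 ha hm hn
  obtain ⟨g, g1, g2, g3⟩ := hZS2 A f y f1 f2 f3
  obtain ⟨L, _, _, _, i, hi, -⟩ := hFLD A g (val_msn p hp g g2 g3)
  have y0 : i y ≠ 0 := fun e => g2 (by rw [← hi, e, norm_zero])
  have y1 : ‖i y‖ < 1 := by
    have := (g1 y).trans (f4 1 y hy)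
    rw [hi]; linarith
  obtain ⟨C, _, _, _, j, hj⟩ := hACL L ⟨i y, y0, y1⟩
  have hc : CharP C p := (CharP.charP_iff_prime_eq_zero Fact.out).2 (by
    rw [← map_natCast (j.comp i) p, hp, map_zero])
  refine ⟨C, _, inferInstance, inferInstance, hc, j.comp i, (map_ne_zero j).2 y0, fun k a h => ?_⟩
  rw [RingHom.comp_apply, hj, hi]
  exact (g1 a).trans (f4 k a h)

end Pool.Agent.P.MP_7cb106_nt.BI

/-! Step RANK. -/

set_option autoImplicit false

namespace Pool.Agent.P.MP_7cb106_nt.BI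

open Polynomial Module

theorem rank_nak {F R ι : Type} [Field F] [CommRing R] [Algebra F R] [Finite ι]
    (M : Submodule F R) (g : ι → R) (hg : ∀ i, IsNilpotent (g i))
    (hM : ∀ i, ∀ x ∈ M, x * g i ∈ M)
    (h1 : ∀ x, x ∈ M ⊔ (Ideal.span (Set.range g)).restrictScalars F) : M = ⊤ := by
  set I := Ideal.span (Set.range g) with hI
  have hfg : I.FG := Submodule.fg_span (Set.finite_range g)
  obtain ⟨N, hN⟩ := hfg.isNilpotent_iff_le_nilradical.2 (Ideal.span_le.2 (by
    rintro _ ⟨i, rfl⟩; exact mem_nilradical.2 (hg i)))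
  have key : ∀ j x, x ∈ M ⊔ (I ^ j).restrictScalars F := by
    intro j
    induction j with
    | zero =>
      intro x
      exact Submodule.mem_sup_right (by simp)
    | succ j ih =>
      have h2 : ∀ u ∈ I, ∀ r, r * u ∈ M ⊔ (I ^ (j + 1)).restrictScalars F := by
        intro u hu
        induction hu using Submodule.span_induction with
        | mem u hu =>
          obtain ⟨i, rfl⟩ := hu
          intro r
          obtain ⟨s, hs, v, hv, rfl⟩ := Submodule.mem_sup.1 (ih r)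
          rw [add_mul]
          refine Submodule.add_mem_sup (hM i s hs) ?_
          rw [Submodule.restrictScalars_mem, pow_succ]
          exact Ideal.mul_mem_mul hv (Ideal.subset_span ⟨i, rfl⟩)
        | zero => intro r; simp
        | add a b _ _ ha hb => intro r; rw [mul_add]; exact add_mem (ha r) (hb r)
        | smul a b _ hb => intro r; rw [smul_eq_mul, ← mul_assoc]; exact hb _
      intro x
      obtain ⟨s, hs, v, hv, rfl⟩ := Submodule.mem_sup.1 (h1 x)
      exact add_mem (Submodule.mem_sup_left hs) (by simpa using h2 v hv 1)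
  refine eq_top_iff.2 fun x _ => ?_
  obtain ⟨s, hs, v, hv, rfl⟩ := Submodule.mem_sup.1 (key N x)
  rw [Submodule.restrictScalars_mem, hN] at hv
  have : v = 0 := by simpa using hv
  rwa [this, add_zero]

theorem rank_ker {Q : Type} [AddCommGroup Q] [Fintype Q] {m : ℕ} [NeZero m] (l : Q →+ ZMod m)
    (e : Q) (he : l e = 1) : Nat.card l.ker * m = Fintype.card Q := by
  have h1 : l.range = ⊤ := by
    refine eq_top_iff.2 fun a _ => ⟨a.val • e, ?_⟩
    rw [map_nsmul, he, nsmul_one, ZMod.natCast_zmod_val]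
  have h2 := l.ker.card_mul_index
  rw [AddSubgroup.index_ker, h1, AddSubgroup.card_top, Nat.card_zmod] at h2
  rw [h2, Nat.card_eq_fintype_card]

theorem p_RANK :
    S_RANK := by
  intro p t _ F Q Ω _ _ _ _ _ l e c z n k hQ he hz hB hk
  classical
  have hp : p.Prime := Fact.out
  have : NeZero (p ^ t) := ⟨pow_ne_zero _ hp.ne_zero⟩
  set ν : Q → AddMonoidAlgebra F Q := fun q => AddMonoidAlgebra.single q (1 : F) with hν
  have νadd : ∀ a b, ν (a + b) = ν a * ν b := fun a b => by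
    simp only [hν, AddMonoidAlgebra.single_mul_single, mul_one]
  have ν0 : ν 0 = 1 := rfl
  have νn : ∀ (m : ℕ) a, ν (m • a) = ν a ^ m := fun m a => by
    induction m with
    | zero => rw [zero_nsmul, pow_zero, ν0]
    | succ m ih => rw [succ_nsmul, νadd, ih, pow_succ]
  have : CharP (AddMonoidAlgebra F Q) p :=
    charP_of_injective_algebraMap (algebraMap F (AddMonoidAlgebra F Q)).injective p
  have : Module.Finite F (AddMonoidAlgebra F Q) :=
    Module.Finite.of_basis (AddMonoidAlgebra.basis Q F)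
  have hfr : finrank F (AddMonoidAlgebra F Q) = Fintype.card Q :=
    finrank_eq_card_basis (AddMonoidAlgebra.basis Q F)
  have nil : ∀ y, IsNilpotent (ν y - 1) := fun y =>
    ⟨p ^ t, by rw [sub_pow_char_pow, ← νn, hQ, ν0, one_pow, sub_self]⟩
  have ind : ∀ N : Submodule F (AddMonoidAlgebra F Q), (∀ y, ν y ∈ N) → ∀ x, x ∈ N := by
    intro N hN x
    induction x using AddMonoidAlgebra.induction_on with
    | of y => exact hN y
    | add a b ha hb => exact add_mem ha hb
    | smul r a ha => exact N.smul_mem r ha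
  set b : AddMonoidAlgebra F Q := ∑ w, c w • ν (z w) with hb
  set O := orb ν c z with hO
  have hbO : ∀ r, r * b ∈ O := by
    refine ind (O.comap (LinearMap.mulRight F b)) fun y => ?_
    refine Submodule.subset_span ⟨y, ?_⟩
    simp only [LinearMap.mulRight_apply, hb, Finset.mul_sum, νadd, mul_smul_comm]
  have hOs : ∀ r, ∀ x ∈ O, x * r ∈ O := by
    intro r
    have : O ≤ O.comap (LinearMap.mulRight F r) := by
      refine Submodule.span_le.2 ?_
      rintro _ ⟨y, rfl⟩
      have e1 : (∑ w, c w • ν (y + z w)) * r = (ν y * r) * b := by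
        simp only [hb, Finset.mul_sum, Finset.sum_mul, νadd, mul_smul_comm, smul_mul_assoc]
        exact Finset.sum_congr rfl fun w _ => by rw [mul_right_comm]
      change (∑ w, c w • ν (y + z w)) * r ∈ O
      rw [e1]; exact hbO _
    exact fun x hx => this hx
  set B : F[X] := ∑ w, C (c w) * X ^ n w with hBd
  have hB0 : B ≠ 0 := fun h => hB (h ▸ dvd_zero _)
  obtain ⟨B1, hB1, hB2⟩ := exists_eq_pow_rootMultiplicity_mul_and_not_dvd B hB0 1
  set o := B.rootMultiplicity 1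
  have hok : o ≤ k := by
    by_contra h
    refine hB ?_
    rw [hB1, C_1]
    exact (pow_dvd_pow _ (not_le.1 h).le).mul_right _
  set g : l.ker → AddMonoidAlgebra F Q := fun y => ν y - 1 with hg
  set I := Ideal.span (Set.range g) with hI
  have hdec : ∀ y (m : ℕ), l y = m → ∃ y' : l.ker, ν y = ν y' * ν e ^ m := by
    intro y m hm
    refine ⟨⟨y - m • e, ?_⟩, ?_⟩
    · rw [AddMonoidHom.mem_ker, map_sub, map_nsmul, he, nsmul_one, hm, sub_self]
    · rw [← νn, ← νadd, sub_add_cancel]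
  have hdI : ∀ y (m : ℕ), l y = m → ν y - ν e ^ m ∈ I := by
    intro y m hm
    obtain ⟨y', h⟩ := hdec y m hm
    have : ν y - ν e ^ m = g y' * ν e ^ m := by rw [h, hg]; ring
    rw [this]
    exact I.mul_mem_right _ (Ideal.subset_span ⟨y', rfl⟩)
  have hbI : aeval (ν e) B - b ∈ I := by
    rw [hBd, hb, map_sum, ← Finset.sum_sub_distrib]
    refine I.sum_mem fun w _ => ?_
    rw [map_mul, map_pow, aeval_C, aeval_X, Algebra.smul_def, ← mul_sub, ← neg_sub]
    exact I.mul_mem_left _ (I.neg_mem (hdI _ _ (hz w)))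
  have hun : IsUnit (aeval (ν e) B1) := by
    obtain ⟨B2, h2⟩ := X_sub_C_dvd_sub_C_eval (p := B1) (a := (1 : F))
    have h3 : B1.eval 1 ≠ 0 := fun h => hB2 (dvd_iff_isRoot.2 h)
    rw [sub_eq_iff_eq_add.1 h2, map_add, map_mul, map_sub, aeval_X, aeval_C, aeval_C, map_one]
    exact IsNilpotent.isUnit_add_right_of_commute
      ((Commute.all _ _).isNilpotent_mul_right (nil e)) ((IsUnit.mk0 _ h3).map _) (Commute.all _ _)
  obtain ⟨u, hu⟩ := hun.exists_right_inv
  have hY : (ν e - 1) ^ o = aeval (ν e) B * u := by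
    conv_rhs => rw [hB1]
    rw [map_mul, map_pow, map_sub, aeval_X, aeval_C, map_one, mul_assoc, hu, mul_one]
  set s : l.ker × Fin o → AddMonoidAlgebra F Q := fun x => ν x.1 * (ν e - 1) ^ (x.2 : ℕ) with hs
  set S := Submodule.span F (Set.range s) with hS
  have htop : S ⊔ O = ⊤ := by
    refine rank_nak _ g (fun y => nil y) (fun y x hx => ?_) (ind _ fun y => ?_)
    · obtain ⟨x1, h1, x2, h2, rfl⟩ := Submodule.mem_sup.1 hx
      rw [add_mul]
      refine Submodule.add_mem_sup ?_ (hOs _ _ h2)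
      have : S ≤ S.comap (LinearMap.mulRight F (ν y)) := by
        refine Submodule.span_le.2 ?_
        rintro _ ⟨x, rfl⟩
        refine Submodule.subset_span ⟨(x.1 + y, x.2), ?_⟩
        simp only [hs, LinearMap.mulRight_apply, AddSubgroup.coe_add, νadd]
        ring
      rw [hg, mul_sub, mul_one]
      exact sub_mem (this h1) h1
    · have h1 : ∀ i, (ν e - 1) ^ i ∈ (S ⊔ O) ⊔ I.restrictScalars F := by
        intro i
        by_cases hi : i < o
        · refine Submodule.mem_sup_left (Submodule.mem_sup_left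
            (Submodule.subset_span ⟨(0, ⟨i, hi⟩), ?_⟩))
          simp only [hs, ZeroMemClass.coe_zero, ν0, one_mul]
        · obtain ⟨j, rfl⟩ := Nat.exists_eq_add_of_le (not_lt.1 hi)
          have : (ν e - 1) ^ (o + j) =
              (u * (ν e - 1) ^ j) * b + (u * (ν e - 1) ^ j) * (aeval (ν e) B - b) := by
            rw [pow_add, hY]; ring
          rw [this]
          exact Submodule.add_mem_sup (Submodule.mem_sup_right (hbO _)) (I.mul_mem_left _ hbI)
      have h2 : ∀ v i, (ν e - 1) ^ i * ν e ^ v ∈ (S ⊔ O) ⊔ I.restrictScalars F := by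
        intro v
        induction v with
        | zero => intro i; rw [pow_zero, mul_one]; exact h1 i
        | succ v ih =>
          intro i
          have : (ν e - 1) ^ i * ν e ^ (v + 1) =
              (ν e - 1) ^ (i + 1) * ν e ^ v + (ν e - 1) ^ i * ν e ^ v := by ring
          rw [this]
          exact add_mem (ih _) (ih _)
      have h3 := h2 (l y).val 0
      rw [pow_zero, one_mul] at h3
      have h4 := hdI y (l y).val (ZMod.natCast_zmod_val _).symm
      have := add_mem h3 (Submodule.mem_sup_right (S := S ⊔ O) (T := I.restrictScalars F) h4)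
      rwa [add_sub_cancel] at this
  have f1 : finrank F S ≤ Fintype.card (l.ker × Fin o) := finrank_range_le_card s
  rw [Fintype.card_prod, Fintype.card_fin, ← Nat.card_eq_fintype_card] at f1
  have f2 := Submodule.finrank_add_le_finrank_add_finrank S O
  rw [htop, finrank_top, hfr] at f2
  have f3 := rank_ker l e he
  have f4 : Nat.card l.ker * (2 * o) ≤ Nat.card l.ker * p ^ t :=
    Nat.mul_le_mul_left _ (by omega)
  have f5 : Nat.card l.ker * (2 * o) = 2 * (Nat.card l.ker * o) := by ring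
  omega

end Pool.Agent.P.MP_7cb106_nt.BI

/-! Step VA2. -/

set_option autoImplicit false

namespace Pool.Agent.P.MP_7cb106_nt.BI

open Polynomial Module

theorem va2_one (p : ℕ) [Fact p.Prime] (F : Type) [Field F] [CharP F p] (k u : ℕ) (hu : ¬ p ∣ u) :
    (1 + PowerSeries.X : PowerSeries F) ^ (p ^ k * u) - 1 ∣
      (PowerSeries.X : PowerSeries F) ^ p ^ k := by
  have : CharP (PowerSeries F) p := charP_of_injective_ringHom PowerSeries.C_injective p
  have h1 : IsUnit (∑ i ∈ Finset.range u, (1 + PowerSeries.X : PowerSeries F) ^ i) := by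
    rw [PowerSeries.isUnit_iff_constantCoeff, isUnit_iff_ne_zero]
    simpa [CharP.cast_eq_zero_iff F p] using hu
  have h2 := sub_pow_char_pow ((1 + PowerSeries.X : PowerSeries F) ^ u) 1 (p := p) k
  rw [one_pow, ← geom_sum_mul, add_sub_cancel_left, mul_pow, ← pow_mul, mul_comm u] at h2
  rw [← h2, (h1.pow _).mul_left_dvd]

theorem va2_two (p : ℕ) [hp : Fact p.Prime] (F : Type) [Field F] [CharP F p] (a e g j j' : ℕ)
    (h : j' < j) (hj : j < p ^ g) :
    (1 + PowerSeries.X : PowerSeries F) ^ (a + p ^ e * j) -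
      (1 + PowerSeries.X : PowerSeries F) ^ (a + p ^ e * j') ∣
      (PowerSeries.X : PowerSeries F) ^
        (p ^ e * ∑ i ∈ Finset.range g, if j % p ^ i = j' % p ^ i then p ^ i else 0) := by
  obtain ⟨d, rfl⟩ := Nat.exists_eq_add_of_le h.le
  obtain ⟨v, u, hu, rfl⟩ := Nat.exists_eq_pow_mul_and_not_dvd (n := d) (by omega) p hp.out.ne_one
  have u0 : 0 < u := Nat.pos_of_ne_zero fun e => hu (e ▸ dvd_zero p)
  have hv : v < g := (Nat.pow_lt_pow_iff_right hp.out.one_lt).1
    (lt_of_le_of_lt ((Nat.le_mul_of_pos_right _ u0).trans (Nat.le_add_left _ _)) hj)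
  have h1 : IsUnit (1 + PowerSeries.X : PowerSeries F) := by
    rw [PowerSeries.isUnit_iff_constantCoeff]; simp
  rw [mul_add, ← add_assoc, pow_add, ← mul_sub_one, (h1.pow _).mul_left_dvd, ← mul_assoc, ← pow_add]
  refine (va2_one p F _ u hu).trans (pow_dvd_pow _ ?_)
  rw [pow_add]
  refine Nat.mul_le_mul_left _ (le_trans (le_of_eq ?_) (Finset.single_le_sum
    (f := fun i => if (j' + p ^ v * u) % p ^ i = j' % p ^ i then p ^ i else 0)
    (fun _ _ => Nat.zero_le _) (Finset.mem_range.2 hv)))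
  simp

theorem va2_card (p : ℕ) (hp : 0 < p) (g i r : ℕ) (hi : i ≤ g) :
    (Finset.univ.filter fun j' : Fin (p ^ g) => r = (j' : ℕ) % p ^ i).card ≤ p ^ (g - i) := by
  rw [← Finset.card_range (p ^ (g - i))]
  refine Finset.card_le_card_of_injOn (fun j' => (j' : ℕ) / p ^ i) (fun j' _ => ?_)
    fun x hx y hy e => Fin.ext ?_
  · rw [Finset.mem_coe, Finset.mem_range, Nat.div_lt_iff_lt_mul (pow_pos hp i), ← pow_add,
      Nat.sub_add_cancel hi]
    exact j'.2
  · have e' : (x : ℕ) / p ^ i = (y : ℕ) / p ^ i := e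
    rw [← Nat.div_add_mod x (p ^ i), ← Nat.div_add_mod y (p ^ i), e',
      ← (Finset.mem_filter.1 hx).2, ← (Finset.mem_filter.1 hy).2]

theorem p_VA2 :
    S_VA2 := by
  intro p hp F _ _ a e g j
  refine (Finset.prod_dvd_prod_of_dvd _ (fun j' : Fin (p ^ g) => (PowerSeries.X : PowerSeries F) ^
    (p ^ e * ∑ i ∈ Finset.range g, if (j : ℕ) % p ^ i = (j' : ℕ) % p ^ i then p ^ i else 0))
    fun j' hj' => ?_).trans ?_
  · rcases lt_or_gt_of_ne (Finset.ne_of_mem_erase hj') with h | h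
    · exact va2_two p F a e g j j' h j.2
    · rw [← neg_sub, neg_dvd]
      simpa only [eq_comm] using va2_two p F a e g j' j h j'.2
  rw [Finset.prod_pow_eq_pow_sum, ← Finset.mul_sum]
  refine pow_dvd_pow _ (Nat.mul_le_mul_left _ ((Finset.sum_le_sum_of_subset
    (Finset.erase_subset _ _)).trans ?_))
  rw [Finset.sum_comm]
  refine (Finset.sum_le_card_nsmul _ _ (p ^ g) fun i hi => ?_).trans (by simp)
  have hi := (Finset.mem_range.1 hi).le
  rw [← Finset.sum_filter, Finset.sum_const, smul_eq_mul]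
  refine (Nat.mul_le_mul_right _ (va2_card p hp.out.pos g i _ hi)).trans (le_of_eq ?_)
  rw [← pow_add, Nat.sub_add_cancel hi]

end Pool.Agent.P.MP_7cb106_nt.BI

/-! Step DUAL. -/

set_option autoImplicit false

namespace Pool.Agent.P.MP_7cb106_nt.BI

open Polynomial Module

theorem tr_coker (p : ℕ) [Fact p.Prime] {M N ι : Type} [Fintype ι] [AddCommGroup M]
    [AddCommGroup N] [Module ℤ_[p] M] [Module ℤ_[p] N] (b : Basis ι ℤ_[p] M) (b' : Basis ι ℤ_[p] N)
    (φ : M →ₗ[ℤ_[p]] N) (hφ : Function.Injective φ) :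
    ∃ c : ℕ, ∀ y, ∃ x, φ x = (p : ℤ_[p]) ^ c • y := by
  classical
  set G := LinearMap.toMatrix b b' φ with hG
  have hv : ∀ v, b'.repr (φ (b.equivFun.symm v)) = G.mulVec v := fun v => by
    rw [← LinearMap.toMatrix_mulVec_repr b b' φ]
    congr 1
    exact (b.equivFun_apply _).symm.trans (b.equivFun.apply_symm_apply v)
  have hdet : G.det ≠ 0 := by
    intro h
    obtain ⟨v, hv0, hv1⟩ := Matrix.exists_mulVec_eq_zero_iff.2 h
    apply hv0
    have h1 : φ (b.equivFun.symm v) = 0 := by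
      apply b'.repr.injective
      ext i
      rw [hv, hv1]; simp
    have h2 : b.equivFun.symm v = 0 := hφ (by rw [h1, map_zero])
    exact b.equivFun.symm.map_eq_zero_iff.1 h2
  refine ⟨G.det.valuation, fun y => ?_⟩
  set u := PadicInt.unitCoeff hdet
  have hu : G.det = u * (p : ℤ_[p]) ^ G.det.valuation := PadicInt.unitCoeff_spec hdet
  refine ⟨b.equivFun.symm ((↑u⁻¹ : ℤ_[p]) • G.adjugate.mulVec (b'.repr y)), ?_⟩
  apply b'.repr.injective
  ext i
  rw [hv, Matrix.mulVec_smul, Matrix.mulVec_mulVec, Matrix.mul_adjugate, Matrix.smul_mulVec,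
    Matrix.one_mulVec, smul_smul, map_smul]
  conv_lhs => rw [hu]
  rw [Units.inv_mul_cancel_left]
  rfl

theorem p_DUAL :
    S_DUAL := by
  intro p _ O _ _ _ _ _ l hl
  classical
  let ω := Module.Free.chooseBasis ℤ_[p] O
  let Φ : O →ₗ[ℤ_[p]] Dual ℤ_[p] O := (LinearMap.mul ℤ_[p] O).compr₂ l
  have hΦ : Function.Injective Φ := by
    rw [injective_iff_map_eq_zero]
    intro a ha
    by_contra ha0
    obtain ⟨c, hc⟩ := tr_coker p ω ω (LinearMap.mulLeft ℤ_[p] a) (mul_right_injective₀ ha0)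
    apply hl
    ext y
    obtain ⟨x, hx⟩ := hc y
    have h1 : l (a * x) = 0 := LinearMap.congr_fun ha x
    rw [LinearMap.mulLeft_apply] at hx
    rw [hx, map_smul, smul_eq_mul, mul_eq_zero] at h1
    exact h1.resolve_left (pow_ne_zero _ (Nat.cast_ne_zero.2 (Fact.out : p.Prime).ne_zero))
  obtain ⟨c, hc⟩ := tr_coker p ω ω.dualBasis Φ hΦ
  refine ⟨c, fun l' => ?_⟩
  obtain ⟨a, ha⟩ := hc l'
  exact ⟨a, fun x => LinearMap.congr_fun ha x⟩

end Pool.Agent.P.MP_7cb106_nt.BI

/-! Step TRN. -/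

set_option autoImplicit false

namespace Pool.Agent.P.MP_7cb106_nt.BI

open Polynomial Module

theorem p_TRN (hUNIT : S_UNIT) (hDUAL : S_DUAL) :
    S_TRN := by
  intro p hp O _ _ _ f ω r e hf hr he
  have : Module.Finite ℤ_[p] O := Module.Finite.of_basis ω
  have : Module.Free ℤ_[p] O := Module.Free.of_basis ω
  let s0 : Fin r := ⟨0, hr⟩
  let k0 : Fin f := ⟨0, hf⟩
  have hl1 : ω.coord k0 ≠ 0 := fun h => by
    have := congrArg (fun l : O →ₗ[ℤ_[p]] ℤ_[p] => l (ω k0)) h
    simp at this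
  obtain ⟨c1, hc1⟩ := hDUAL p O (ω.coord k0) hl1
  let a : Fin r × Fin f → ℕ := fun i => if i = (s0, k0) then 1 else 0
  have key : ∀ j : Fin r × Fin f → ℕ, ∃ H ∈ Cg O (Fin r) ((p : O) ^ e), ∀ i : Fin r × Fin f,
      ω.coord k0 ((H : Matrix (Fin r) (Fin r) O).mulVec (Pi.single i.1 (ω i.2)) s0) =
        (a i + p ^ (e + c1) * j i : ℕ) := by
    intro j
    choose b hb using fun s : Fin r => hc1 (∑ k, (j (s, k) : ℤ_[p]) • ω.coord k)
    let M : Matrix (Fin r) (Fin r) O := Matrix.of fun s' s => if s' = s0 then b s else 0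
    have hu : IsUnit (1 + (p : O) ^ e • M) := by
      obtain ⟨e', rfl⟩ := Nat.exists_eq_add_of_le he
      have := hUNIT p O (Fin r) ((p : O) ^ e' • M)
      rwa [smul_smul, ← pow_succ', add_comm e' 1] at this
    refine ⟨hu.unit, mem_Cg.2 ⟨M, hu.unit_spec⟩, fun i => ?_⟩
    obtain ⟨s, k⟩ := i
    have h1 : (hu.unit : Matrix (Fin r) (Fin r) O).mulVec (Pi.single s (ω k)) s0 =
        (Pi.single s (ω k) : Fin r → O) s0 + ((p : ℤ_[p]) ^ e) • (b s * ω k) := by
      rw [hu.unit_spec, Matrix.add_mulVec, Matrix.one_mulVec, Matrix.smul_mulVec,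
        Pi.add_apply, Pi.smul_apply, Matrix.mulVec_single]
      simp [M, Algebra.smul_def]
    have h2 : ω.coord k0 ((Pi.single s (ω k) : Fin r → O) s0) = (a (s, k) : ℤ_[p]) := by
      by_cases hs : s = s0
      · subst hs
        by_cases hk : k = k0
        · subst hk
          simp [a]
        · simp [a, hk]
      · simp [a, hs, Ne.symm hs]
    have h3 : (∑ k', (j (s, k') : ℤ_[p]) • ω.coord k') (ω k) = j (s, k) := by
      simp [Finsupp.single_apply]
    simp only
    rw [h1, map_add, map_smul, hb, h2, h3]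
    push_cast
    rw [smul_eq_mul]
    ring
  refine ⟨e + c1, a, fun j j' => ?_⟩
  obtain ⟨H, hH, hH2⟩ := key j
  obtain ⟨H', hH', hH2'⟩ := key j'
  let l : (Fin r → O) →ₗ[ℤ_[p]] ℤ_[p] :=
    (ω.coord k0).comp (((LinearMap.proj s0 : (Fin r → O) →ₗ[O] O).comp
      (Matrix.mulVecLin (H : Matrix (Fin r) (Fin r) O))).restrictScalars ℤ_[p])
  have hl : ∀ x, l x = ω.coord k0 ((H : Matrix (Fin r) (Fin r) O).mulVec x s0) := fun x => rfl
  refine ⟨H⁻¹ * H', mul_mem (inv_mem hH) hH', l,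
    ⟨((H⁻¹ : GL (Fin r) O) : Matrix (Fin r) (Fin r) O).mulVec (Pi.single s0 (ω k0)), ?_⟩,
    fun i => ?_, fun i => ?_⟩
  · rw [hl, Matrix.mulVec_mulVec, ← Units.val_mul, mul_inv_cancel, Units.val_one,
      Matrix.one_mulVec]
    simp
  · rw [hl, hH2]
  · rw [hl, Matrix.mulVec_mulVec, ← Units.val_mul, mul_inv_cancel_left, hH2']

end Pool.Agent.P.MP_7cb106_nt.BI

/-! Step DET. -/

set_option autoImplicit false

namespace Pool.Agent.P.MP_7cb106_nt.BI

open Polynomial Module

theorem det_orb {F L Q E Ω : Type} [Field F] [AddCommGroup L] [AddCommGroup Q] [AddCommGroup E]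
    [Module F E] [Fintype Ω] (π : L →+ Q) (hπ : Function.Surjective π) (ν : Q → E) (c : Ω → F)
    (z : Ω → L) : orb (fun y => ν (π y)) c z = orb ν c fun w => π (z w) := by
  unfold orb
  congr 1
  rw [← hπ.range_comp fun q : Q => ∑ w, c w • ν (q + π (z w))]
  congr 1
  funext y
  simp only [Function.comp_apply, map_add]

theorem det_expand {p : ℕ} [Fact p.Prime] {O : Type} [CommRing O] [Algebra ℤ_[p] O] {f : ℕ}
    (ω : Basis (Fin f) ℤ_[p] O) {r : ℕ} (y : Fin r → O) :
    ∑ i : Fin r × Fin f, ω.repr (y i.1) i.2 • (Pi.single i.1 (ω i.2) : Fin r → O) = y := by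
  funext k
  rw [Finset.sum_apply, Fintype.sum_prod_type, Finset.sum_eq_single k]
  · simp
  · intro j _ hj
    simp [Pi.single_eq_of_ne hj.symm]
  · simp

theorem det_lb {p : ℕ} [Fact p.Prime] {O : Type} [CommRing O] [Algebra ℤ_[p] O] {f : ℕ}
    (ω : Basis (Fin f) ℤ_[p] O) {r : ℕ} (t : ℕ) (l : (Fin r → O) →ₗ[ℤ_[p]] ℤ_[p]) :
    ∃ lb : (Fin r × Fin f → ZMod (p ^ t)) →+ ZMod (p ^ t),
      ∀ y, lb (pr ω r t y) = PadicInt.toZModPow t (l y) := by
  refine ⟨⟨⟨fun q => ∑ i, q i * PadicInt.toZModPow t (l (Pi.single i.1 (ω i.2))), by simp⟩,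
    fun a b => by simp [add_mul, Finset.sum_add_distrib]⟩, fun y => ?_⟩
  conv_rhs => rw [← det_expand ω y]
  simp [pr, map_sum]

theorem p_DET (hTRN : S_TRN) (hVAND : S_VAND) (hRANK : S_RANK) (hPRK : S_PRK) :
    S_DET := by
  intro p hp O _ _ _ f ω r e F _ _ hf hr he
  obtain ⟨c, a, hca⟩ := hTRN p O f ω r e hf hr he
  refine ⟨c, fun t g ht => ?_⟩
  let ι := (Fin r × Fin f) ⊕ (Fin r × Fin f)
  let eps : Fin r × Fin f → Fin r → O := fun i => Pi.single i.1 (ω i.2)
  have hι : Fintype.card ι = 2 * (r * f) := by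
    simp [ι, two_mul]
  refine ⟨ι → Fin (p ^ g), inferInstance, fun w => ∑ i, (w (Sum.inl i) : ℕ) • eps i,
    fun w => ∑ i, (w (Sum.inr i) : ℕ) • eps i, ?_, fun b hb => ?_⟩
  · rw [Fintype.card_fun, hι, Fintype.card_fin, ← pow_mul, mul_comm]
  obtain ⟨j, hj⟩ := hVAND p F ι (Sum.elim a a) c g b hb
  obtain ⟨h, hh, l, ⟨y0, hy0⟩, hl, hl'⟩ :=
    hca (fun i => j (Sum.inl i)) (fun i => j (Sum.inr i))
  refine ⟨h, hh, ?_⟩
  obtain ⟨lb, hlb⟩ := det_lb ω t l
  have : NeZero (p ^ t) := ⟨pow_ne_zero _ hp.out.ne_zero⟩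
  rw [det_orb (pr ω r t) (hPRK p O f ω r t).1 fun q => AddMonoidAlgebra.single q (1 : F)]
  have hc : Fintype.card (Fin r × Fin f → ZMod (p ^ t)) = p ^ (r * f * t) := by
    rw [Fintype.card_fun, ZMod.card, Fintype.card_prod, Fintype.card_fin, Fintype.card_fin,
      ← pow_mul, mul_comm]
  rw [← hc]
  refine hRANK p t F _ _ lb (pr ω r t y0) b _ _ _ (fun y => ?_) ?_ (fun w => ?_) hj ?_
  · funext i
    rw [Pi.smul_apply, nsmul_eq_mul, ZMod.natCast_self, zero_mul, Pi.zero_apply]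
  · rw [hlb, hy0, map_one]
  · rw [hlb, ← map_natCast (PadicInt.toZModPow t)]
    congr 1
    rw [map_add, Matrix.mulVec_sum, map_sum, map_sum, Fintype.sum_sum_type, Nat.cast_add,
      Nat.cast_sum, Nat.cast_sum]
    congr 1
    · refine Finset.sum_congr rfl fun i _ => ?_
      rw [map_nsmul, hl i, nsmul_eq_mul, Nat.cast_mul, mul_comm, Sum.elim_inl]
    · refine Finset.sum_congr rfl fun i _ => ?_
      rw [Matrix.mulVec_smul, map_nsmul, hl' i, nsmul_eq_mul, Nat.cast_mul, mul_comm,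
        Sum.elim_inr]
  · rw [hι]
    exact ht

end Pool.Agent.P.MP_7cb106_nt.BI

/-! Step CORE. -/

set_option autoImplicit false

namespace Pool.Agent.P.MP_7cb106_nt.BI

open Polynomial Module

theorem core_col {O : Type} [CommRing O] {r : ℕ} (a : O) (x : Fin r → O) :
    col (a • x) = a • col x := by
  ext i j
  refine Fin.cases ?_ (fun i => ?_) i <;> by_cases h : j = 0 <;> simp [col, h]

theorem p_CORE (hWUA : S_WUA) (hNH : S_NH) (hSCA : S_SCA) (hYEL : S_YEL) (hDICH : S_DICH) (hCO1 : S_CO1) (hCO2 : S_CO2) (hNUM : S_NUM) :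
    S_CORE := by
  intro p hp O _ _ _ _ _ r e he F V _ _ _ _ ρ hSm hcen hfd hinf
  obtain ⟨D, g, hWU⟩ := hWUA p O (Fin (r + 1)) e he
  obtain ⟨u, hu, h0, hadd, hH⟩ := hNH O r ((p : O) ^ e)
  set f := finrank ℤ_[p] O with hfdef
  let ω : Basis (Fin f) ℤ_[p] O := Module.finBasis ℤ_[p] O
  have hy := hYEL p O f ω r e F V ρ D g u hWU hSm
    (fun z a hz => hSCA p e F V _ _ D g ρ hWU hSm z (hcen z a hz)) hfd hinf hu h0 hadd
  have hr : 1 ≤ r := by obtain ⟨_, s, -⟩ := hy; exact s.pos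
  have hf : 1 ≤ f := by obtain ⟨_, -, k, -⟩ := hy; exact k.pos
  have hm : 1 ≤ r * f := Nat.mul_pos hr hf
  rw [mul_comm f r]
  rcases hDICH p e F V _ _ D g ρ hWU hSm hfd (r * f) hm with h | ⟨C, hC⟩
  · exact h
  exfalso
  obtain ⟨N, hN⟩ := hCO1 p O f ω r e F V _ _ D g ρ u hWU hSm h0 hadd hH hy (4 * (r * f))
  obtain ⟨c, hc⟩ := hCO2 p O f ω r e F V _ _ D g ρ u hWU hSm hf hr hadd
    (fun k x => mem_Gam.2 ⟨col x, by rw [hu, core_col, smul_smul, pow_add]⟩) hH
  obtain ⟨s, γ, n, h1, h2, h3⟩ := hNUM p (r * f) D C c N hp.out.two_le hm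
  have h4 := hc _ γ _ n h1 h2 (hC _).1 (hN s)
  have h5 := Nat.pow_le_pow_left (hC ((D + 1) * p ^ ((4 * (r * f) + 2) * s + N))).2 2
  exact absurd (h4.trans (Nat.mul_le_mul_left _ h5)) (not_le.2 h3)

end Pool.Agent.P.MP_7cb106_nt.BI
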