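import Mathlib

/-! Definitions and first facts for the lower bound on invariants of congruence subgroups. -/

set_option autoImplicit false

namespace Pool.Agent.P.MP_7cb106_nt.BI

open Polynomial

/-! ### congruence subgroups -/

/-- invertible matrices congruent to `1` modulo `a` -/
def Cg (O n : Type) [CommRing O] [Fintype n] [DecidableEq n] (a : O) : Subgroup (GL n O) :=
  (Matrix.GeneralLinearGroup.map (Ideal.Quotient.mk (Ideal.span {a}))).ker

theorem mem_Cg {O n : Type} [CommRing O] [Fintype n] [DecidableEq n] {a : O} {g : GL n O} :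
    g ∈ Cg O n a ↔ ∃ X : Matrix n n O, (g : Matrix n n O) = 1 + a • X := by
  rw [Cg, MonoidHom.mem_ker]
  constructor
  · intro h
    have h1 : ∀ i j, ∃ c, (g : Matrix n n O) i j - (1 : Matrix n n O) i j = a * c := by
      intro i j
      have := congrArg (fun u : GL n (O ⧸ Ideal.span {a}) =>
        (u : Matrix n n (O ⧸ Ideal.span {a})) i j) h
      simp only [Matrix.GeneralLinearGroup.map_apply, Units.val_one] at this
      refine Ideal.mem_span_singleton.1 (Ideal.Quotient.eq.1 ?_)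
      rw [this]
      by_cases hij : i = j <;> simp [Matrix.one_apply, hij]
    choose X hX using h1
    refine ⟨Matrix.of X, ?_⟩
    ext i j
    simp [← hX i j]
  · rintro ⟨X, hX⟩
    ext i j
    have : Ideal.Quotient.mk (Ideal.span {a}) a = 0 :=
      Ideal.Quotient.eq_zero_iff_mem.2 (Ideal.mem_span_singleton_self a)
    simp only [Matrix.GeneralLinearGroup.map_apply, Units.val_one, hX, Matrix.add_apply,
      Matrix.smul_apply, smul_eq_mul, map_add, map_mul, this, zero_mul, add_zero]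
    by_cases hij : i = j <;> simp [Matrix.one_apply, hij]

/-- the filtration of `Cg (p ^ e)` -/
def Gam (p : ℕ) (O n : Type) [CommRing O] [Fintype n] [DecidableEq n] (e l : ℕ) :
    Subgroup (Cg O n ((p : O) ^ e)) :=
  (Cg O n ((p : O) ^ (e + l))).subgroupOf (Cg O n ((p : O) ^ e))

theorem mem_Gam {p : ℕ} {O n : Type} [CommRing O] [Fintype n] [DecidableEq n] {e l : ℕ}
    {g : Cg O n ((p : O) ^ e)} :
    g ∈ Gam p O n e l ↔ ∃ X : Matrix n n O,
      ((g : GL n O) : Matrix n n O) = 1 + (p : O) ^ (e + l) • X := by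
  rw [Gam, Subgroup.mem_subgroupOf, mem_Cg]

/-- the matrix with first column `(0, x)` and zero elsewhere -/
def col {O : Type} [CommRing O] {r : ℕ} (x : Fin r → O) : Matrix (Fin (r + 1)) (Fin (r + 1)) O :=
  Matrix.of fun i j => if j = 0 then Fin.cases 0 x i else 0

/-- coordinates modulo `p ^ t` -/
noncomputable def pr {p : ℕ} [Fact p.Prime] {O : Type} [CommRing O] [Algebra ℤ_[p] O] {f : ℕ}
    (ω : Module.Basis (Fin f) ℤ_[p] O) (r t : ℕ) :
    (Fin r → O) →+ (Fin r × Fin f → ZMod (p ^ t)) where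
  toFun x := fun i => PadicInt.toZModPow t (ω.repr (x i.1) i.2)
  map_zero' := by ext i; simp
  map_add' x y := by ext i; simp

/-! ### filtered groups and their representations -/

/-- what is used about the congruence filtration -/
structure WU (p c : ℕ) {G : Type} [Group G] (Γ : ℕ → Subgroup G) {D : ℕ} (g : Fin D → G) :
    Prop where
  hc : 3 ≤ p ^ c
  top : Γ 0 = ⊤
  anti : Antitone Γ
  normal : ∀ l, (Γ l).Normal
  pow : ∀ l x, x ^ p ^ l ∈ Γ l
  gen : ∀ l x, x ∈ Γ l → ∃ i, (g i ^ p ^ l)⁻¹ * x ∈ Γ (l + 1)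
  com : ∀ l x y, y ∈ Γ l → x * y * x⁻¹ * y⁻¹ ∈ Γ (l + c)

section rep
variable {F V G : Type} [Field F] [AddCommGroup V] [Module F V] [Group G]

/-- every vector is fixed by some step of the filtration -/
def Sm (Γ : ℕ → Subgroup G) (ρ : G →* Module.End F V) : Prop :=
  ∀ v, ∃ l, ∀ x ∈ Γ l, ρ x v = v

/-- vectors killed by the powers of the augmentation ideal -/
def fil (ρ : G →* Module.End F V) : ℕ → Submodule F V
  | 0 => ⊥
  | j + 1 => ⨅ x : G, (fil ρ j).comap (ρ x - 1)

/-- operators that lower the filtration by `i` -/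
def Esh (ρ : G →* Module.End F V) (i : ℕ) : Submodule F (Module.End F V) where
  carrier := {a | ∀ j, ∀ w ∈ fil ρ j, a w ∈ fil ρ (j - i)}
  add_mem' ha hb j w hw := (fil ρ _).add_mem (ha j w hw) (hb j w hw)
  zero_mem' _ _ _ := (fil ρ _).zero_mem
  smul_mem' c _ ha j w hw := (fil ρ _).smul_mem c (ha j w hw)

/-- product of the operators `ρ (g i) - 1` along a word -/
def Bw (ρ : G →* Module.End F V) {D : ℕ} (g : Fin D → G) (u : List (Fin D)) : Module.End F V :=
  (u.map fun i => ρ (g i) - 1).prod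

variable {ρ : G →* Module.End F V}

theorem fil_zero : fil ρ 0 = ⊥ := rfl

theorem mem_fil_succ {j : ℕ} {w : V} : w ∈ fil ρ (j + 1) ↔ ∀ x, ρ x w - w ∈ fil ρ j := by
  simp [fil, Submodule.mem_iInf]

theorem mem_fil_one {w : V} : w ∈ fil ρ 1 ↔ ∀ x, ρ x w = w := by
  simp [mem_fil_succ, fil_zero, sub_eq_zero]

theorem fil_mono : Monotone (fil ρ) := by
  refine monotone_nat_of_le_succ fun j => ?_
  induction j with
  | zero => exact bot_le
  | succ j ih => exact fun w hw => mem_fil_succ.2 fun x => ih (mem_fil_succ.1 hw x)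

theorem mem_Esh {i : ℕ} {a : Module.End F V} :
    a ∈ Esh ρ i ↔ ∀ j, ∀ w ∈ fil ρ j, a w ∈ fil ρ (j - i) := Iff.rfl

theorem Esh_anti : Antitone (Esh ρ) := fun _ _ h _ ha j w hw =>
  fil_mono (Nat.sub_le_sub_left h j) (ha j w hw)

theorem Esh_mul {i i' : ℕ} {a b : Module.End F V} (ha : a ∈ Esh ρ i) (hb : b ∈ Esh ρ i') :
    a * b ∈ Esh ρ (i + i') := fun j w hw => by
  have := ha _ _ (hb j w hw)
  rwa [Nat.sub_sub, add_comm i' i] at this

theorem sub_one_mem_Esh (x : G) : ρ x - 1 ∈ Esh ρ 1 := fun j w hw => by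
  cases j with
  | zero =>
    have : w = 0 := by simpa [fil_zero] using hw
    simp [this]
  | succ j => simpa using mem_fil_succ.1 hw x

theorem one_mem_Esh : (1 : Module.End F V) ∈ Esh ρ 0 := fun _ _ hw => by simpa using hw

theorem rho_mem_Esh (x : G) : ρ x ∈ Esh ρ 0 := by
  have := (Esh ρ 0).add_mem (Esh_anti (Nat.zero_le 1) (sub_one_mem_Esh (ρ := ρ) x)) one_mem_Esh
  simpa using this

theorem rho_mem_fil {j : ℕ} {w : V} (hw : w ∈ fil ρ j) (x : G) : ρ x w ∈ fil ρ j := by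
  simpa using rho_mem_Esh x j w hw

theorem Esh_mul_left {i : ℕ} {b : Module.End F V} (x : G) (hb : b ∈ Esh ρ i) :
    ρ x * b ∈ Esh ρ i := by simpa using Esh_mul (rho_mem_Esh x) hb

theorem Esh_mul_right {i : ℕ} {b : Module.End F V} (hb : b ∈ Esh ρ i) (x : G) :
    b * ρ x ∈ Esh ρ i := by simpa using Esh_mul hb (rho_mem_Esh x)

theorem Esh_pow {i : ℕ} {a : Module.End F V} (ha : a ∈ Esh ρ i) (n : ℕ) :
    a ^ n ∈ Esh ρ (n * i) := by
  induction n with
  | zero => simpa using one_mem_Esh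
  | succ n ih => rw [pow_succ, add_mul, one_mul]; exact Esh_mul ih ha

theorem Esh_apply_eq_zero {i j : ℕ} {a : Module.End F V} (ha : a ∈ Esh ρ i) {w : V}
    (hw : w ∈ fil ρ j) (h : j ≤ i) : a w = 0 := by
  have := ha j w hw
  rwa [Nat.sub_eq_zero_of_le h, fil_zero, Submodule.mem_bot] at this

theorem Bw_nil {D : ℕ} (g : Fin D → G) : Bw ρ g [] = 1 := rfl

theorem Bw_cons {D : ℕ} (g : Fin D → G) (i : Fin D) (u : List (Fin D)) :
    Bw ρ g (i :: u) = (ρ (g i) - 1) * Bw ρ g u := by simp [Bw]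

theorem Bw_append {D : ℕ} (g : Fin D → G) (u v : List (Fin D)) :
    Bw ρ g (u ++ v) = Bw ρ g u * Bw ρ g v := by simp [Bw]

theorem Bw_mem {D : ℕ} (g : Fin D → G) (u : List (Fin D)) : Bw ρ g u ∈ Esh ρ u.length := by
  induction u with
  | nil => exact one_mem_Esh
  | cons i u ih =>
    rw [Bw_cons, List.length_cons, add_comm]; exact Esh_mul (sub_one_mem_Esh _) ih

/-- the group elements that move the filtration by `i` -/
def Ssh (ρ : G →* Module.End F V) (i : ℕ) : Subgroup G where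
  carrier := {x | ρ x - 1 ∈ Esh ρ i}
  one_mem' := by simp
  mul_mem' {x y} hx hy := by
    have : ρ (x * y) - 1 = ρ x * (ρ y - 1) + (ρ x - 1) := by rw [map_mul]; noncomm_ring
    simp only [Set.mem_ofPred_eq, this]
    exact (Esh ρ i).add_mem (Esh_mul_left x hy) hx
  inv_mem' {x} hx := by
    have : ρ x⁻¹ - 1 = -(ρ x⁻¹ * (ρ x - 1)) := by
      rw [mul_sub, ← map_mul, inv_mul_cancel, map_one]; noncomm_ring
    simp only [Set.mem_ofPred_eq, this]
    exact (Esh ρ i).neg_mem (Esh_mul_left _ hx)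

theorem mem_Ssh {i : ℕ} {x : G} : x ∈ Ssh ρ i ↔ ρ x - 1 ∈ Esh ρ i := Iff.rfl

theorem Ssh_normal (i : ℕ) : (Ssh ρ i).Normal := ⟨fun x hx y => by
  have : ρ (y * x * y⁻¹) - 1 = ρ y * ((ρ x - 1) * ρ y⁻¹) := by
    rw [sub_mul, mul_sub, one_mul, ← map_mul ρ y y⁻¹, mul_inv_cancel, map_one, map_mul, map_mul,
      mul_assoc]
  rw [mem_Ssh, this]
  exact Esh_mul_left _ (Esh_mul_right hx _)⟩

/-- Frobenius for operators -/
theorem rho_pow_sub_one (p : ℕ) [Fact p.Prime] [CharP F p] (x : G) (l : ℕ) :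
    ρ (x ^ p ^ l) - 1 = (ρ x - 1) ^ p ^ l := by
  rcases subsingleton_or_nontrivial (Module.End F V) with h | h
  · exact Subsingleton.elim _ _
  · have : CharP (Module.End F V) p :=
      charP_of_injective_algebraMap (algebraMap F (Module.End F V)).injective p
    rw [map_pow, sub_pow_char_pow_of_commute _ _ (Commute.one_right _), one_pow]

end rep

/-- linear forms with a shift rule -/
structure LD {F V : Type} [Field F] [AddCommGroup V] [Module F V] {D d : ℕ}
    (π : ℕ → Submodule F V) (c : (Fin D → ℕ) → Fin d → Module.Dual F V)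
    (b : Fin D → Module.End F V) : Prop where
  bot : π 0 = ⊥
  mono : Monotone π
  van : ∀ k w, w ∈ π k → ∀ α a, k ≤ ∑ i, α i → c α a w = 0
  emb : ∀ k w, w ∈ π (k + 1) → (∀ α a, ∑ i, α i = k → c α a w = 0) → w ∈ π k
  low : ∀ i k w, w ∈ π (k + 1) → b i w ∈ π k
  shift : ∀ i α a w, w ∈ π (∑ j, α j + 2) → c α a (b i w) = c (α + Pi.single i 1) a w

/-- leading positions -/
def Ld {F V : Type} [Field F] [AddCommGroup V] [Module F V] {D d : ℕ}
    (π : ℕ → Submodule F V) (c : (Fin D → ℕ) → Fin d → Module.Dual F V) (a : Fin d) :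
    Set (Fin D → ℕ) :=
  {α | ∃ w ∈ π (∑ i, α i + 1), c α a w ≠ 0 ∧ ∀ β a', ∑ i, β i = ∑ i, α i →
    (a < a' ∨ (a = a' ∧ toLex α < toLex β)) → c β a' w = 0}

/-! ### seminorms and characters -/

/-- multiplicative ultrametric seminorm -/
structure MSN {A : Type} [CommRing A] (g : A → ℝ) : Prop where
  nonneg : ∀ a, 0 ≤ g a
  zero : g 0 = 0
  one : g 1 = 1
  mul : ∀ a b, g (a * b) = g a * g b
  add_le : ∀ a b, g (a + b) ≤ max (g a) (g b)

/-- a character close to `1` -/
structure Chr {L C : Type} [AddCommGroup L] [CommRing C] (nm : C → ℝ) (μ : L → C) : Prop where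
  zero : μ 0 = 1
  add : ∀ x y, μ (x + y) = μ x * μ y
  near : ∀ x, nm (μ x - 1) ≤ 1 / 2

/-- sums of multiples of norm at most `T` of functions in `X` -/
def Sp {L C : Type} [NormedField C] (X : Set (L → C)) (T : ℝ) : AddSubgroup (L → C) :=
  AddSubgroup.closure {φ | ∃ θ : C, ∃ χ ∈ X, ‖θ‖ ≤ T ∧ φ = θ • χ}

/-- the dilates of a character -/
def Ch {O C : Type} [CommRing O] (μ : O → C) (a : O) : Set (O → C) :=
  {χ | ∃ σ, χ = fun x => μ (a * σ * x)}

/-- reduction of a `p`-adic integer -/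
noncomputable def red (p : ℕ) [Fact p.Prime] (C : Type) [CommRing C] [CharP C p] :
    ℤ_[p] →+* C :=
  (ZMod.castHom (dvd_refl p) C).comp PadicInt.toZMod

/-- linear forms are well approximated by dilates of `μ` -/
def DP (p : ℕ) [Fact p.Prime] {O C : Type} [CommRing O] [Algebra ℤ_[p] O] [NormedField C]
    [CharP C p] (μ : O → C) : Prop :=
  ∀ (l : O →ₗ[ℤ_[p]] ℤ_[p]) (M : ℕ), ∃ T : ℝ, 1 < T ∧ ∃ Φ ∈ Sp (Ch μ 1) T,
    ∀ x, ‖red p C (l x) - Φ x‖ ≤ (T ^ M)⁻¹

open Classical in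
/-- indicator of the multiples of `a` -/
noncomputable def ind {O : Type} [CommRing O] (C : Type) [CommRing C] (a x : O) : C :=
  if a ∣ x then 1 else 0

/-- a primitive element -/
def Prim (p : ℕ) [Fact p.Prime] {O : Type} [CommRing O] [Algebra ℤ_[p] O] (θ : O) : Prop :=
  ∃ a : ℕ, ∀ x : O, (p : O) ^ a * x ∈ Algebra.adjoin ℤ_[p] {θ}

end Pool.Agent.P.MP_7cb106_nt.BI
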