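import Pool.Agent.P.MP_7cb106_nt.BI.Base

/-! Sums of characters, orbits of a combination. -/

set_option autoImplicit false

namespace Pool.Agent.P.MP_7cb106_nt.BI

/-- span of the translates of a combination -/
def orb {F L E Ω : Type} [Field F] [AddCommGroup L] [AddCommGroup E] [Module F E] [Fintype Ω]
    (ν : L → E) (c : Ω → F) (z : Ω → L) : Submodule F E :=
  Submodule.span F (Set.range fun y : L => ∑ w, c w • ν (y + z w))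

section chr
variable {L C : Type} [AddCommGroup L] [NormedField C] [IsUltrametricDist C] {μ : L → C}

theorem Chr.norm_eq (h : Chr (fun c : C => ‖c‖) μ) (x : L) : ‖μ x‖ = 1 := by
  have h1 : ‖μ x - 1‖ < ‖(1 : C)‖ := by
    have := h.near x
    rw [norm_one]; linarith
  have h2 := IsUltrametricDist.norm_add_eq_max_of_norm_ne_norm h1.ne
  rw [sub_add_cancel, max_eq_right h1.le, norm_one] at h2
  exact h2

omit [IsUltrametricDist C] in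
theorem Chr.nsmul (h : Chr (fun c : C => ‖c‖) μ) (n : ℕ) (x : L) : μ (n • x) = μ x ^ n := by
  induction n with
  | zero => simp [h.zero]
  | succ n ih => rw [succ_nsmul, h.add, ih, pow_succ]

omit [AddCommGroup L] [IsUltrametricDist C] in
theorem Sp_mono {X : Set (L → C)} {T T' : ℝ} (hT : T ≤ T') : Sp X T ≤ Sp X T' :=
  AddSubgroup.closure_mono fun _ ⟨θ, χ, hχ, h1, h2⟩ => ⟨θ, χ, hχ, h1.trans hT, h2⟩

omit [AddCommGroup L] [IsUltrametricDist C] in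
theorem smul_mem_Sp {X : Set (L → C)} {T : ℝ} {θ : C} {χ : L → C} (hθ : ‖θ‖ ≤ T) (hχ : χ ∈ X) :
    θ • χ ∈ Sp X T := AddSubgroup.subset_closure ⟨θ, χ, hχ, hθ, rfl⟩

omit [AddCommGroup L] [IsUltrametricDist C] in
theorem Sp_induction {X : Set (L → C)} {T : ℝ} {P : (L → C) → Prop}
    (h1 : ∀ (θ : C) (χ : L → C), ‖θ‖ ≤ T → χ ∈ X → P (θ • χ)) (h0 : P 0) (ha : ∀ Φ Ψ, P Φ → P Ψ → P (Φ + Ψ))
    {Φ : L → C} (hΦ : Φ ∈ Sp X T) : P Φ := by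
  refine AddSubgroup.closure_induction_left (p := fun Φ _ => P Φ) h0 ?_ ?_ hΦ
  · rintro _ ⟨θ, χ, hχ, hθ, rfl⟩ Ψ _ hΨ
    exact ha _ _ (h1 θ χ hθ hχ) hΨ
  · rintro _ ⟨θ, χ, hχ, hθ, rfl⟩ Ψ _ hΨ
    rw [← neg_smul]
    exact ha _ _ (h1 _ χ (by rwa [norm_neg]) hχ) hΨ

omit [AddCommGroup L] [IsUltrametricDist C] in
theorem Sp_mul' {X : Set (L → C)} (hX : ∀ χ ∈ X, ∀ χ' ∈ X, χ * χ' ∈ X) {T T' : ℝ}
    {Φ Ψ : L → C} (hΦ : Φ ∈ Sp X T) (hΨ : Ψ ∈ Sp X T') : Φ * Ψ ∈ Sp X (T * T') := by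
  refine Sp_induction (P := fun Φ => Φ * Ψ ∈ Sp X (T * T')) (fun θ χ hθ hχ => ?_) ?_ ?_ hΦ
  · refine Sp_induction (P := fun Ψ => θ • χ * Ψ ∈ Sp X (T * T')) (fun θ' χ' hθ' hχ' => ?_)
      ?_ ?_ hΨ
    · rw [smul_mul_smul_comm]
      refine smul_mem_Sp ?_ (hX _ hχ _ hχ')
      rw [norm_mul]
      exact mul_le_mul hθ hθ' (norm_nonneg _) ((norm_nonneg _).trans hθ)
    · simp
    · intro a b ha hb; rw [mul_add]; exact add_mem ha hb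
  · simp
  · intro a b ha hb; rw [add_mul]; exact add_mem ha hb

omit [AddCommGroup L] in
theorem Sp_norm' {X : Set (L → C)} (hX : ∀ χ ∈ X, ∀ x, ‖χ x‖ ≤ 1) {T : ℝ} (hT : 0 ≤ T)
    {Φ : L → C} (hΦ : Φ ∈ Sp X T) (x : L) : ‖Φ x‖ ≤ T := by
  refine Sp_induction (P := fun Φ => ‖Φ x‖ ≤ T) (fun θ χ hθ hχ => ?_) (by simpa using hT) ?_ hΦ
  · rw [Pi.smul_apply, smul_eq_mul, norm_mul]
    exact (mul_le_of_le_one_right (norm_nonneg _) (hX χ hχ x)).trans hθ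
  · intro a b ha hb
    exact (IsUltrametricDist.norm_add_le_max _ _).trans (max_le ha hb)

end chr

section ch
variable {O C : Type} [CommRing O] [NormedField C] [IsUltrametricDist C] {μ : O → C} {a : O}

omit [IsUltrametricDist C] in
theorem Sp_mul (h : Chr (fun c : C => ‖c‖) μ) {T T' : ℝ} {Φ Ψ : O → C}
    (hΦ : Φ ∈ Sp (Ch μ a) T) (hΨ : Ψ ∈ Sp (Ch μ a) T') : Φ * Ψ ∈ Sp (Ch μ a) (T * T') := by
  refine Sp_mul' ?_ hΦ hΨ
  rintro _ ⟨σ, rfl⟩ _ ⟨σ', rfl⟩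
  refine ⟨σ + σ', funext fun x => ?_⟩
  rw [Pi.mul_apply, ← h.add]; congr 1; ring

omit [IsUltrametricDist C] in
theorem one_mem_Sp (h : Chr (fun c : C => ‖c‖) μ) : (1 : O → C) ∈ Sp (Ch μ a) 1 := by
  have : (1 : O → C) ∈ Ch μ a := ⟨0, funext fun x => by simp [h.zero]⟩
  simpa using smul_mem_Sp (θ := (1 : C)) (T := 1) (by simp) this

omit [IsUltrametricDist C] in
theorem Sp_pow (h : Chr (fun c : C => ‖c‖) μ) {T : ℝ} {Φ : O → C} (hΦ : Φ ∈ Sp (Ch μ a) T)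
    (n : ℕ) : Φ ^ n ∈ Sp (Ch μ a) (T ^ n) := by
  induction n with
  | zero => simpa using one_mem_Sp h
  | succ n ih => rw [pow_succ, pow_succ]; exact Sp_mul h ih hΦ

theorem Sp_norm (h : Chr (fun c : C => ‖c‖) μ) {T : ℝ} (hT : 0 ≤ T) {Φ : O → C}
    (hΦ : Φ ∈ Sp (Ch μ a) T) (x : O) : ‖Φ x‖ ≤ T :=
  Sp_norm' (by rintro _ ⟨σ, rfl⟩ x; exact (h.norm_eq _).le) hT hΦ x

theorem Sp_shift (h : Chr (fun c : C => ‖c‖) μ) {T : ℝ} {Φ : O → C} (hΦ : Φ ∈ Sp (Ch μ a) T)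
    (c : O) : (fun x => Φ (x - c)) ∈ Sp (Ch μ a) T := by
  refine Sp_induction (P := fun Φ => (fun x => Φ (x - c)) ∈ Sp (Ch μ a) T) ?_ (zero_mem _)
    (fun _ _ ha hb => add_mem ha hb) hΦ
  rintro θ _ hθ ⟨σ, rfl⟩
  have : (fun x => (θ • fun x => μ (a * σ * x)) (x - c)) =
      (θ * μ (-(a * σ * c))) • fun x => μ (a * σ * x) := by
    funext x
    simp only [Pi.smul_apply, smul_eq_mul]
    rw [mul_assoc θ, ← h.add]; congr 2; ring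
  rw [this]
  exact smul_mem_Sp (by rw [norm_mul, h.norm_eq, mul_one]; exact hθ) ⟨σ, rfl⟩

omit [IsUltrametricDist C] in
/-- Frobenius changes the scale -/
theorem Sp_frob (p : ℕ) [Fact p.Prime] [CharP C p] (h : Chr (fun c : C => ‖c‖) μ) {T : ℝ}
    {Φ : O → C} (hΦ : Φ ∈ Sp (Ch μ 1) T) {u e s : ℕ} (hs : u + e ≤ s) :
    ∃ Φ' ∈ Sp (Ch μ ((p : O) ^ e)) (T ^ p ^ s), ∀ x, Φ' ((p : O) ^ u * x) = Φ x ^ p ^ s := by
  refine Sp_induction (P := fun Φ => ∃ Φ' ∈ Sp (Ch μ ((p : O) ^ e)) (T ^ p ^ s),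
    ∀ x, Φ' ((p : O) ^ u * x) = Φ x ^ p ^ s) ?_ ⟨0, zero_mem _, fun x => ?_⟩ ?_ hΦ
  · rintro θ _ hθ ⟨σ, rfl⟩
    obtain ⟨k, rfl⟩ := Nat.exists_eq_add_of_le hs
    refine ⟨θ ^ p ^ (u + e + k) • fun x => μ ((p : O) ^ e * ((p : O) ^ k * σ) * x),
      smul_mem_Sp ?_ ⟨_, rfl⟩, fun x => ?_⟩
    · rw [norm_pow]; exact pow_le_pow_left₀ (norm_nonneg _) hθ _
    · simp only [Pi.smul_apply, smul_eq_mul, mul_pow]
      rw [← h.nsmul]; congr 2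
      rw [nsmul_eq_mul]; push_cast; ring
  · simp [(Fact.out : p.Prime).ne_zero]
  · rintro _ _ ⟨a, ha, ha'⟩ ⟨b, hb, hb'⟩
    exact ⟨a + b, add_mem ha hb, fun x => by
      rw [Pi.add_apply, Pi.add_apply, ha', hb', add_pow_char_pow]⟩

end ch

end Pool.Agent.P.MP_7cb106_nt.BI
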