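import Pool.Agent.P.MP_7cb106_nt.BI.BaseS

/-! Statements of the steps. -/

set_option autoImplicit false

namespace Pool.Agent.P.MP_7cb106_nt.BI

open Polynomial Module

/-! ### the filtration -/

-- deps:
def S_A1 : Prop := ∀ (p c : ℕ) [Fact p.Prime] (F V G : Type) [Field F] [CharP F p]
  [AddCommGroup V] [Module F V] [Group G] (Γ : ℕ → Subgroup G) (D : ℕ) (g : Fin D → G)
  (ρ : G →* Module.End F V), WU p c Γ g → Sm Γ ρ → ∀ l, Γ l ≤ Ssh ρ (p ^ l)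

-- deps: A1
def S_A2 : Prop := ∀ (p c : ℕ) [Fact p.Prime] (F V G : Type) [Field F] [CharP F p]
  [AddCommGroup V] [Module F V] [Group G] (Γ : ℕ → Subgroup G) (D : ℕ) (g : Fin D → G)
  (ρ : G →* Module.End F V), WU p c Γ g → Sm Γ ρ →
  (∀ x, ∃ i, ρ x - ρ (g i) ∈ Esh ρ 2) ∧
  ∀ u v : List (Fin D), u.Perm v → Bw ρ g u - Bw ρ g v ∈ Esh ρ (u.length + 1)

-- deps: A2
def S_EMB : Prop := ∀ (p c : ℕ) [Fact p.Prime] (F V G : Type) [Field F] [CharP F p]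
  [AddCommGroup V] [Module F V] [Group G] (Γ : ℕ → Subgroup G) (D : ℕ) (g : Fin D → G)
  (ρ : G →* Module.End F V), WU p c Γ g → Sm Γ ρ → ∀ k w, w ∈ fil ρ (k + 1) →
  (∀ u : List (Fin D), u.length = k → Bw ρ g u w = 0) → w ∈ fil ρ k

-- deps: A2 EMB
def S_GR : Prop := ∀ (p c : ℕ) [Fact p.Prime] (F V G : Type) [Field F] [CharP F p]
  [AddCommGroup V] [Module F V] [Group G] (Γ : ℕ → Subgroup G) (D : ℕ) (g : Fin D → G)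
  (ρ : G →* Module.End F V), WU p c Γ g → Sm Γ ρ → ∀ q k w, 1 ≤ q → D * (q - 1) + 1 ≤ k →
  w ∈ fil ρ (k + 1) → (∀ i, ((ρ (g i) - 1) ^ q) w ∈ fil ρ (k - q)) → w ∈ fil ρ k

-- deps: A1 GR
def S_A5 : Prop := ∀ (p c : ℕ) [Fact p.Prime] (F V G : Type) [Field F] [CharP F p]
  [AddCommGroup V] [Module F V] [Group G] (Γ : ℕ → Subgroup G) (D : ℕ) (g : Fin D → G)
  (ρ : G →* Module.End F V), WU p c Γ g → Sm Γ ρ → ∀ l,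
  ∀ a ∈ Submodule.span F (Set.range ρ), (∀ w ∈ fil ρ ((D + 1) * p ^ l), a w = 0) →
  a ∈ Esh ρ (p ^ l)

-- deps:
def S_EXH : Prop := ∀ (p c : ℕ) [Fact p.Prime] (F V G : Type) [Field F] [CharP F p]
  [AddCommGroup V] [Module F V] [Group G] (Γ : ℕ → Subgroup G) (D : ℕ) (g : Fin D → G)
  (ρ : G →* Module.End F V), WU p c Γ g → Sm Γ ρ → ∀ v, ∃ j, v ∈ fil ρ j

-- deps: EMB
def S_FIN : Prop := ∀ (p c : ℕ) [Fact p.Prime] (F V G : Type) [Field F] [CharP F p]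
  [AddCommGroup V] [Module F V] [Group G] (Γ : ℕ → Subgroup G) (D : ℕ) (g : Fin D → G)
  (ρ : G →* Module.End F V), WU p c Γ g → Sm Γ ρ → FiniteDimensional F (fil ρ 1) →
  ∀ j, FiniteDimensional F (fil ρ j)

-- deps: GR EXH FIN
def S_A6 : Prop := ∀ (p c : ℕ) [Fact p.Prime] (F V G : Type) [Field F] [CharP F p]
  [AddCommGroup V] [Module F V] [Group G] (Γ : ℕ → Subgroup G) (D : ℕ) (g : Fin D → G)
  (ρ : G →* Module.End F V), WU p c Γ g → Sm Γ ρ → FiniteDimensional F (fil ρ 1) →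
  ¬ FiniteDimensional F V → ∀ l, ∃ i, g i ^ p ^ l ∉ Ssh ρ (p ^ l + 1)

-- deps:
def S_SCA : Prop := ∀ (p c : ℕ) [Fact p.Prime] (F V G : Type) [Field F] [CharP F p]
  [AddCommGroup V] [Module F V] [Group G] (Γ : ℕ → Subgroup G) (D : ℕ) (g : Fin D → G)
  (ρ : G →* Module.End F V), WU p c Γ g → Sm Γ ρ → ∀ z, (∃ a : F, ∀ v, ρ z v = a • v) → ρ z = 1

-- deps: A2 EMB
def S_LDA : Prop := ∀ (p c : ℕ) [Fact p.Prime] (F V G : Type) [Field F] [CharP F p]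
  [AddCommGroup V] [Module F V] [Group G] (Γ : ℕ → Subgroup G) (D : ℕ) (g : Fin D → G)
  (ρ : G →* Module.End F V), WU p c Γ g → Sm Γ ρ → FiniteDimensional F (fil ρ 1) →
  ∃ (d : ℕ) (φ : (Fin D → ℕ) → Fin d → Module.Dual F V), LD (fil ρ) φ fun i => ρ (g i) - 1

-- deps:
def S_LD1 : Prop := ∀ (F V : Type) [Field F] [AddCommGroup V] [Module F V] (D d : ℕ)
  (π : ℕ → Submodule F V) (c : (Fin D → ℕ) → Fin d → Module.Dual F V)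
  (b : Fin D → Module.End F V), LD π c b → ∀ a, IsLowerSet (Ld π c a)

-- deps:
def S_LD2 : Prop := ∀ (F V : Type) [Field F] [AddCommGroup V] [Module F V] (D d : ℕ)
  (π : ℕ → Submodule F V) (c : (Fin D → ℕ) → Fin d → Module.Dual F V)
  (b : Fin D → Module.End F V), LD π c b → ∀ a j,
  (({α ∈ Ld π c a | ∑ i, α i ≤ j}.ncard : ℕ) : Cardinal) ≤ Module.rank F (π (j + 1))

-- deps:
def S_LD3 : Prop := ∀ (F V : Type) [Field F] [AddCommGroup V] [Module F V] (D d : ℕ)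
  (π : ℕ → Submodule F V) (c : (Fin D → ℕ) → Fin d → Module.Dual F V)
  (b : Fin D → Module.End F V), LD π c b → ∀ j, FiniteDimensional F (π (j + 1)) ∧
  finrank F (π (j + 1)) ≤ ∑ a, {α ∈ Ld π c a | ∑ i, α i ≤ j}.ncard

-- deps:
def S_LOW : Prop := ∀ (D m : ℕ) (S : Set (Fin D → ℕ)), 1 ≤ m → IsLowerSet S →
  (∃ I : Finset (Fin D), I.card = m ∧ ∀ α : Fin D → ℕ, (∀ i, i ∉ I → α i = 0) → α ∈ S) ∨
  ∃ C : ℕ, ∀ j, {α ∈ S | ∑ i, α i ≤ j}.ncard ≤ C * (j + 1) ^ (m - 1)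

-- deps:
def S_CNT : Prop := ∀ (D j : ℕ) (I : Finset (Fin D)) (S : Set (Fin D → ℕ)),
  (∀ α : Fin D → ℕ, (∀ i, i ∉ I → α i = 0) → α ∈ S) →
  (j + I.card).choose I.card ≤ {α ∈ S | ∑ i, α i ≤ j}.ncard

-- deps: LDA LD1 LD2 LD3 LOW CNT
def S_DICH : Prop := ∀ (p c : ℕ) [Fact p.Prime] (F V G : Type) [Field F] [CharP F p]
  [AddCommGroup V] [Module F V] [Group G] (Γ : ℕ → Subgroup G) (D : ℕ) (g : Fin D → G)
  (ρ : G →* Module.End F V), WU p c Γ g → Sm Γ ρ → FiniteDimensional F (fil ρ 1) →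
  ∀ m, 1 ≤ m → (∀ j, (((j + m).choose m : ℕ) : Cardinal) ≤ Module.rank F (fil ρ (j + 1))) ∨
    ∃ C : ℕ, ∀ j, FiniteDimensional F (fil ρ j) ∧ finrank F (fil ρ j) ≤ C * (j + 1) ^ (m - 1)

/-! ### matrices -/

-- deps:
def S_UNIT : Prop := ∀ (p : ℕ) [Fact p.Prime] (O n : Type) [CommRing O] [Algebra ℤ_[p] O]
  [Module.Finite ℤ_[p] O] [Fintype n] [DecidableEq n] (X : Matrix n n O),
  IsUnit (1 + (p : O) • X)

-- deps: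
def S_PWR : Prop := ∀ (p : ℕ) [Fact p.Prime] (O R : Type) [CommRing O] [Ring R] [Algebra O R]
  (e l : ℕ) (X : R), 3 ≤ p ^ e → ∃ Y : R,
  (1 + (p : O) ^ e • X) ^ p ^ l = 1 + (p : O) ^ (e + l) • X + (p : O) ^ (e + l + 1) • Y

-- deps: UNIT PWR
def S_WUA : Prop := ∀ (p : ℕ) [Fact p.Prime] (O n : Type) [CommRing O] [Algebra ℤ_[p] O]
  [Module.Finite ℤ_[p] O] [Fintype n] [DecidableEq n] (e : ℕ), 3 ≤ p ^ e →
  ∃ (D : ℕ) (g : Fin D → Cg O n ((p : O) ^ e)), WU p e (Gam p O n e) g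

-- deps:
def S_NH : Prop := ∀ (O : Type) [CommRing O] (r : ℕ) (a : O),
  ∃ u : (Fin r → O) → Cg O (Fin (r + 1)) a,
    (∀ x, ((u x : GL (Fin (r + 1)) O) : Matrix (Fin (r + 1)) (Fin (r + 1)) O) = 1 + a • col x) ∧
    u 0 = 1 ∧ (∀ x y, u (x + y) = u x * u y) ∧
    ∀ h ∈ Cg O (Fin r) a, ∃ d, ∀ x,
      d * u x = u ((h : Matrix (Fin r) (Fin r) O).mulVec x) * d

-- deps:
def S_A7A : Prop := ∀ (p : ℕ) [Fact p.Prime] (O : Type) [CommRing O] [Algebra ℤ_[p] O]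
  (r e b : ℕ) (s : AddSubgroup (Matrix (Fin (r + 1)) (Fin (r + 1)) O)),
  (∀ (a : O) (t : Fin r), ∀ X ∈ s, (1 + Matrix.single 0 t.succ ((p : O) ^ e * a)) * X *
    (1 - Matrix.single 0 t.succ ((p : O) ^ e * a)) ∈ s) →
  (∀ x, (p : O) ^ b • col x ∈ s) →
  ∀ Y : Matrix (Fin (r + 1)) (Fin (r + 1)) O, Y.trace = 0 → (p : O) ^ (b + 2 * e + 1) • Y ∈ s

-- deps: UNIT A7A
def S_A7 : Prop := ∀ (p : ℕ) [Fact p.Prime] (O : Type) [CommRing O] [Algebra ℤ_[p] O]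
  [Module.Finite ℤ_[p] O] (r e : ℕ), 1 ≤ e → ∃ c l0, c ≤ l0 ∧ ∀ l, l0 ≤ l →
  ∀ S : Subgroup (Cg O (Fin (r + 1)) ((p : O) ^ e)), S.Normal →
  Gam p O (Fin (r + 1)) e (l + 1) ≤ S →
  (∀ (z : Cg O (Fin (r + 1)) ((p : O) ^ e)) (a : O), z.1.1 = Matrix.scalar _ a → z ∈ S) →
  (∀ (z : Cg O (Fin (r + 1)) ((p : O) ^ e)) (x : Fin r → O),
    z.1.1 = 1 + (p : O) ^ (e + (l - c)) • col x → z ∈ S) →
  Gam p O (Fin (r + 1)) e l ≤ S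

-- deps: A1 A6 A7
def S_YEL : Prop := ∀ (p : ℕ) [Fact p.Prime] (O : Type) [CommRing O] [Algebra ℤ_[p] O]
  [Module.Finite ℤ_[p] O] (f : ℕ) (ω : Basis (Fin f) ℤ_[p] O) (r e : ℕ) (F V : Type) [Field F]
  [CharP F p] [AddCommGroup V] [Module F V]
  (ρ : Cg O (Fin (r + 1)) ((p : O) ^ e) →* Module.End F V) (D : ℕ)
  (g : Fin D → Cg O (Fin (r + 1)) ((p : O) ^ e))
  (u : (Fin r → O) → Cg O (Fin (r + 1)) ((p : O) ^ e)),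
  WU p e (Gam p O (Fin (r + 1)) e) g → Sm (Gam p O (Fin (r + 1)) e) ρ →
  (∀ (z : Cg O (Fin (r + 1)) ((p : O) ^ e)) (a : O), z.1.1 = Matrix.scalar _ a → ρ z = 1) →
  FiniteDimensional F (fil ρ 1) → ¬ FiniteDimensional F V →
  (∀ x, (u x).1.1 = 1 + (p : O) ^ e • col x) → u 0 = 1 → (∀ x y, u (x + y) = u x * u y) →
  ∃ (c : ℕ) (s : Fin r) (k : Fin f), ∀ j,
    (ρ (u (Pi.single s (ω k))) - 1) ^ p ^ j ∉ Esh ρ (p ^ (j + c) + 1)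

/-! ### the valuation -/

-- deps:
def S_ZS1 : Prop := ∀ (p : ℕ) [Fact p.Prime] (A : Type) [CommRing A] (I : ℕ → Ideal A) (y : A)
  (c : ℕ), I 0 = ⊤ → Antitone I → (∀ i j a b, a ∈ I i → b ∈ I j → a * b ∈ I (i + j)) →
  (∀ j, y ^ p ^ j ∉ I (p ^ (j + c) + 1)) →
  ∃ f : RingSeminorm A, IsPowMul f ∧ f 1 ≤ 1 ∧ f y ≠ 0 ∧ ∀ i a, a ∈ I i → f a ≤ (1 / 2) ^ i

-- deps:
def S_ZS2 : Prop := ∀ (A : Type) [CommRing A] (f : RingSeminorm A) (y : A), IsPowMul f →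
  f 1 ≤ 1 → f y ≠ 0 →
  ∃ g : RingSeminorm A, (∀ a, g a ≤ f a) ∧ g y ≠ 0 ∧ ∀ a b, g (a * b) = g a * g b

-- deps:
def S_FLD : Prop := ∀ (A : Type) [CommRing A] (g : A → ℝ), MSN g →
  ∃ (L : Type) (_ : NormedField L) (_ : IsUltrametricDist L) (_ : CompleteSpace L) (i : A →+* L),
    (∀ a, ‖i a‖ = g a) ∧ ∀ (z : L) (ε : ℝ), 0 < ε → ∃ x y, i y ≠ 0 ∧ ‖z - i x / i y‖ < ε

-- deps:
def S_ACL : Prop := ∀ (L : Type) [NormedField L] [IsUltrametricDist L] [CompleteSpace L],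
  (∃ x : L, x ≠ 0 ∧ ‖x‖ < 1) →
  ∃ (C : Type) (_ : NormedField C) (_ : IsUltrametricDist C) (_ : IsAlgClosed C) (j : L →+* C),
    ∀ x, ‖j x‖ = ‖x‖

-- deps: ZS1 ZS2 FLD ACL
def S_VAL : Prop := ∀ (p : ℕ) [Fact p.Prime] (A : Type) [CommRing A] (I : ℕ → Ideal A) (y : A)
  (c : ℕ), (p : A) = 0 → I 0 = ⊤ → Antitone I →
  (∀ i j a b, a ∈ I i → b ∈ I j → a * b ∈ I (i + j)) → y ∈ I 1 →
  (∀ j, y ^ p ^ j ∉ I (p ^ (j + c) + 1)) →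
  ∃ (C : Type) (_ : NormedField C) (_ : IsUltrametricDist C) (_ : IsAlgClosed C) (_ : CharP C p)
    (ψ : A →+* C), ψ y ≠ 0 ∧ ∀ i a, a ∈ I i → ‖ψ a‖ ≤ (1 / 2) ^ i

/-! ### approximation -/

-- deps:
def S_DP5 : Prop := ∀ (p : ℕ) [Fact p.Prime] (O : Type) [CommRing O] [IsDomain O]
  [Algebra ℤ_[p] O] [Module.Finite ℤ_[p] O] [Module.Free ℤ_[p] O] (C : Type) [NormedField C]
  [IsUltrametricDist C] [IsAlgClosed C] [CharP C p] (μ : O → C), μ 0 = 1 →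
  (∀ x y, μ (x + y) = μ x * μ y) → (∀ x, ‖μ x - 1‖ ≤ 1 / 2) → (∃ x, μ x ≠ 1) →
  ∀ (l : O →ₗ[ℤ_[p]] ℤ_[p]) (M : ℕ), ∃ T : ℝ, 1 < T ∧
    ∃ (n : ℕ) (th : Fin n → C) (s : Fin n → O), (∀ k, ‖th k‖ ≤ T) ∧
      ∀ x, ‖(ZMod.castHom (dvd_refl p) C) (PadicInt.toZMod (l x)) - ∑ k, th k * μ (s k * x)‖ ≤
        (T ^ M)⁻¹

-- deps:
def S_IN1 : Prop := ∀ (p : ℕ) [Fact p.Prime] (O C : Type) [CommRing O] [Algebra ℤ_[p] O]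
  [NormedField C] [IsUltrametricDist C] [CharP C p] (μ : O → C) (f : ℕ)
  (_ : Basis (Fin f) ℤ_[p] O), Chr (fun c : C => ‖c‖) μ → DP p μ →
  ∀ M : ℕ, ∃ T : ℝ, 1 < T ∧ ∃ Φ ∈ Sp (Ch μ 1) T, ∀ x, ‖Φ x - ind C (p : O) x‖ ≤ (T ^ M)⁻¹

-- deps:
def S_IN2 : Prop := ∀ (p : ℕ) [Fact p.Prime] (O C : Type) [CommRing O] [NormedField C]
  [IsUltrametricDist C] [CharP C p] (μ : O → C) (M e t : ℕ) (T : ℝ) (Φ : O → C),
  Chr (fun c : C => ‖c‖) μ → (∀ x : O, (p : O) * x = 0 → x = 0) → 1 ≤ M → 1 < T →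
  Φ ∈ Sp (Ch μ 1) T → (∀ x, ‖Φ x - ind C (p : O) x‖ ≤ (T ^ M)⁻¹) →
  ∃ κ : ℕ, ∃ Ψ ∈ Sp (Ch μ ((p : O) ^ e)) (T ^ κ),
    (κ : ℝ) + 1 ≤ (1 + (p : ℝ) / M) ^ t * (1 + t * (p : ℝ) ^ (e + t)) ∧
    ∀ x, ‖Ψ x - ind C ((p : O) ^ t) x‖ ≤ T⁻¹

-- deps: IN1 IN2
def S_IND : Prop := ∀ (p : ℕ) [Fact p.Prime] (O C : Type) [CommRing O] [Algebra ℤ_[p] O]
  [NormedField C] [IsUltrametricDist C] [CharP C p] (μ : O → C) (f : ℕ)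
  (_ : Basis (Fin f) ℤ_[p] O), Chr (fun c : C => ‖c‖) μ → DP p μ →
  ∀ γ e : ℕ, ∃ N : ℕ, ∀ s : ℕ, ∃ Ψ ∈ Sp (Ch μ ((p : O) ^ e)) (2 ^ p ^ ((γ + 2) * s + N)),
    ∀ x, ‖Ψ x - ind C ((p : O) ^ (γ * s)) x‖ < 1

-- deps:
def S_ANN : Prop := ∀ (F O C : Type) [Field F] [CommRing O] [NormedField C] [IsUltrametricDist C]
  (r : ℕ) (j : F →+* C) (lam : (Fin r → O) → C) (μ : O → C) (a b : O) (Ψ : O → C) (T η : ℝ)
  (z : (Fin r → O) →₀ F), (∀ c, ‖j c‖ ≤ 1) → Chr (fun c : C => ‖c‖) lam →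
  Chr (fun c : C => ‖c‖) μ → Ψ ∈ Sp (Ch μ a) T → (∀ x, ‖Ψ x - ind C b x‖ < 1) → 0 ≤ T →
  T ^ r * η < 1 →
  (∀ σ : Fin r → O, ‖z.sum fun x c => j c * (lam x * μ (a * ∑ i, σ i * x i))‖ ≤ η) →
  ∀ y : Fin r → O, (z.sum fun x c => c * ∏ i, ind F b (x i - y i)) = 0

-- deps:
def S_PRK : Prop := ∀ (p : ℕ) [Fact p.Prime] (O : Type) [CommRing O] [Algebra ℤ_[p] O] (f : ℕ)
  (ω : Basis (Fin f) ℤ_[p] O) (r t : ℕ), Function.Surjective (pr ω r t) ∧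
  (∀ x y, pr ω r t x = pr ω r t y ↔ ∀ i, (p : O) ^ t ∣ x i - y i) ∧
  ∀ (F : Type) [Field F] (z : (Fin r → O) →₀ F),
    (∀ y : Fin r → O, (z.sum fun x c => c * ∏ i, ind F ((p : O) ^ t) (x i - y i)) = 0) →
    Finsupp.linearCombination F (fun x => AddMonoidAlgebra.single (pr ω r t x) (1 : F)) z = 0

/-! ### the count -/

-- deps:
def S_JOS : Prop := ∀ (F E L H Ω : Type) [Field F] [Ring E] [Algebra F E] [FiniteDimensional F E]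
  [AddCommGroup L] [Fintype Ω] (ν : L → E) (act : H → L → L) (hat : H → Eˣ) (x x' : Ω → L)
  (d R : ℕ), (∀ a b, ν (a + b) = ν a * ν b) →
  (∀ h a, (hat h : E) * ν a = ν (act h a) * hat h) →
  finrank F (Submodule.span F (Set.range ν)) ≤ d →
  (∀ c : Ω → F, c ≠ 0 → ∃ h, R ≤ 2 * finrank F (orb ν c fun w => x w + act h (x' w))) →
  Fintype.card Ω * R ≤ 2 * d * finrank F E

-- deps:
def S_CMP : Prop := ∀ (F L E E' Ω : Type) [Field F] [AddCommGroup L] [AddCommGroup E] [Module F E]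
  [FiniteDimensional F E] [AddCommGroup E'] [Module F E'] [Fintype Ω] (ν : L → E) (ν' : L → E')
  (c : Ω → F) (z : Ω → L),
  (∀ a : L →₀ F, Finsupp.linearCombination F ν a = 0 → Finsupp.linearCombination F ν' a = 0) →
  finrank F (orb ν' c z) ≤ finrank F (orb ν c z)

-- deps:
def S_RANK : Prop := ∀ (p t : ℕ) [Fact p.Prime] (F Q Ω : Type) [Field F] [CharP F p]
  [AddCommGroup Q] [Fintype Q] [Fintype Ω] (l : Q →+ ZMod (p ^ t)) (e : Q) (c : Ω → F) (z : Ω → Q)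
  (n : Ω → ℕ) (k : ℕ), (∀ y : Q, p ^ t • y = 0) → l e = 1 → (∀ w, l (z w) = n w) →
  ¬ (X - 1 : F[X]) ^ k ∣ ∑ w, C (c w) * X ^ n w → 2 * k ≤ p ^ t →
  Fintype.card Q ≤ 2 * finrank F (orb (fun q : Q => AddMonoidAlgebra.single q (1 : F)) c z)

-- deps:
def S_VA1 : Prop := ∀ (R : Type) [CommRing R] [IsDomain R] (t : R) (κ Δ k : ℕ) (z c : Fin κ → R),
  t ≠ 0 → (∀ j, ∏ j' ∈ Finset.univ.erase j, (z j - z j') ∣ t ^ Δ) →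
  (∀ j, t ^ (k + Δ) ∣ ∑ w : Fin κ, c w * z j ^ (w : ℕ)) → ∀ w, t ^ k ∣ c w

-- deps:
def S_VA2 : Prop := ∀ (p : ℕ) [Fact p.Prime] (F : Type) [Field F] [CharP F p] (a e g : ℕ)
  (j : Fin (p ^ g)), ∏ j' ∈ Finset.univ.erase j,
    ((1 + PowerSeries.X : PowerSeries F) ^ (a + p ^ e * (j : ℕ)) -
      (1 + PowerSeries.X : PowerSeries F) ^ (a + p ^ e * (j' : ℕ))) ∣
    (PowerSeries.X : PowerSeries F) ^ (p ^ e * (g * p ^ g))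

-- deps: VA1
def S_VA3 : Prop := ∀ (R : Type) [CommRing R] [IsDomain R] (t : R) (κ Δ N : ℕ)
  (z : Fin N → Fin κ → R), t ≠ 0 →
  (∀ i j, ∏ j' ∈ Finset.univ.erase j, (z i j - z i j') ∣ t ^ Δ) →
  ∀ (k : ℕ) (c : (Fin N → Fin κ) → R),
  (∀ j : Fin N → Fin κ, t ^ (k + N * Δ) ∣ ∑ w : Fin N → Fin κ, c w * ∏ i, z i (j i) ^ (w i : ℕ)) →
  ∀ w, t ^ k ∣ c w

-- deps: VA2 VA3
def S_VAND : Prop := ∀ (p : ℕ) [Fact p.Prime] (F ι : Type) [Field F] [CharP F p] [Fintype ι]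
  [DecidableEq ι] (a : ι → ℕ) (e g : ℕ) (c : (ι → Fin (p ^ g)) → F), c ≠ 0 →
  ∃ j : ι → Fin (p ^ g), ¬ (X - 1 : F[X]) ^ (Fintype.card ι * (p ^ e * (g * p ^ g)) + 1) ∣
    ∑ w : ι → Fin (p ^ g), C (c w) * X ^ (∑ i, (a i + p ^ e * (j i : ℕ)) * (w i : ℕ))

-- deps:
def S_DUAL : Prop := ∀ (p : ℕ) [Fact p.Prime] (O : Type) [CommRing O] [IsDomain O]
  [Algebra ℤ_[p] O] [Module.Finite ℤ_[p] O] [Module.Free ℤ_[p] O] (l : O →ₗ[ℤ_[p]] ℤ_[p]), l ≠ 0 →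
  ∃ c : ℕ, ∀ l' : O →ₗ[ℤ_[p]] ℤ_[p], ∃ a : O, ∀ x, l (a * x) = (p : ℤ_[p]) ^ c * l' x

-- deps: UNIT DUAL
def S_TRN : Prop := ∀ (p : ℕ) [Fact p.Prime] (O : Type) [CommRing O] [IsDomain O]
  [Algebra ℤ_[p] O] (f : ℕ) (ω : Basis (Fin f) ℤ_[p] O) (r e : ℕ), 1 ≤ f → 1 ≤ r → 1 ≤ e →
  ∃ (c : ℕ) (a : Fin r × Fin f → ℕ), ∀ j j' : Fin r × Fin f → ℕ,
    ∃ h ∈ Cg O (Fin r) ((p : O) ^ e), ∃ l : (Fin r → O) →ₗ[ℤ_[p]] ℤ_[p], (∃ y, l y = 1) ∧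
      (∀ i, l (Pi.single i.1 (ω i.2)) = (a i + p ^ c * j i : ℕ)) ∧
      ∀ i, l ((h : Matrix (Fin r) (Fin r) O).mulVec (Pi.single i.1 (ω i.2))) =
        (a i + p ^ c * j' i : ℕ)

-- deps: TRN VAND RANK PRK
def S_DET : Prop := ∀ (p : ℕ) [Fact p.Prime] (O : Type) [CommRing O] [IsDomain O]
  [Algebra ℤ_[p] O] (f : ℕ) (ω : Basis (Fin f) ℤ_[p] O) (r e : ℕ) (F : Type) [Field F]
  [CharP F p], 1 ≤ f → 1 ≤ r → 1 ≤ e → ∃ c : ℕ, ∀ t g : ℕ,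
  2 * (2 * (r * f) * (p ^ c * (g * p ^ g)) + 1) ≤ p ^ t →
  ∃ (Ω : Type) (_ : Fintype Ω) (x x' : Ω → Fin r → O), Fintype.card Ω = p ^ (2 * (r * f) * g) ∧
    ∀ a : Ω → F, a ≠ 0 → ∃ h ∈ Cg O (Fin r) ((p : O) ^ e), p ^ (r * f * t) ≤ 2 * finrank F
      (orb (fun y => AddMonoidAlgebra.single (pr ω r t y) (1 : F)) a
        fun w => x w + (h : Matrix (Fin r) (Fin r) O).mulVec (x' w))

-- deps:
def S_NUM : Prop := ∀ p m D C c N : ℕ, 2 ≤ p → 1 ≤ m → ∃ s g n : ℕ,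
  2 * (2 * m * (p ^ c * (g * p ^ g)) + 1) ≤ p ^ (4 * m * s) ∧
  (D + 1) * p ^ ((4 * m + 2) * s + N) ≤ p ^ n ∧
  2 * p ^ (m * n) * (C * ((D + 1) * p ^ ((4 * m + 2) * s + N) + 1) ^ (m - 1)) ^ 2 <
    p ^ (2 * m * g) * p ^ (m * (4 * m * s))

/-! ### assembly -/

-- deps: VAL
def S_CO0 : Prop := ∀ (p : ℕ) [Fact p.Prime] (F V G L : Type) [Field F] [CharP F p]
  [AddCommGroup V] [Module F V] [Group G] [AddCommGroup L] (ρ : G →* Module.End F V) (u : L → G)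
  (y : L) (c : ℕ), u 0 = 1 → (∀ x x', u (x + x') = u x * u x') →
  (∀ j, (ρ (u y) - 1) ^ p ^ j ∉ Esh ρ (p ^ (j + c) + 1)) →
  ∃ (C : Type) (_ : NormedField C) (_ : IsUltrametricDist C) (_ : IsAlgClosed C) (_ : CharP C p)
    (j : F →+* C) (lam : L → C), (∀ a, ‖j a‖ ≤ 1) ∧ Chr (fun a : C => ‖a‖) lam ∧ lam y ≠ 1 ∧
    ∀ (i : ℕ) (z : L →₀ F) (h : L → L) (d : G), (∀ x, d * u x = u (h x) * d) →
      Finsupp.linearCombination F (fun x => ρ (u x)) z ∈ Esh ρ i →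
      ‖z.sum fun x a => j a * lam (h x)‖ ≤ (1 / 2) ^ i

-- deps: CO0 A5 DP5 IND ANN PRK UNIT
def S_CO1 : Prop := ∀ (p : ℕ) [Fact p.Prime] (O : Type) [CommRing O] [IsDomain O]
  [Algebra ℤ_[p] O] (f : ℕ) (ω : Basis (Fin f) ℤ_[p] O) (r e : ℕ) (F V G : Type) [Field F]
  [CharP F p] [AddCommGroup V] [Module F V] [Group G] (Γ : ℕ → Subgroup G) (D : ℕ)
  (g : Fin D → G) (ρ : G →* Module.End F V) (u : (Fin r → O) → G), WU p e Γ g → Sm Γ ρ →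
  u 0 = 1 → (∀ x y, u (x + y) = u x * u y) →
  (∀ h ∈ Cg O (Fin r) ((p : O) ^ e), ∃ d, ∀ x,
    d * u x = u ((h : Matrix (Fin r) (Fin r) O).mulVec x) * d) →
  (∃ (c : ℕ) (s : Fin r) (k : Fin f), ∀ j,
    (ρ (u (Pi.single s (ω k))) - 1) ^ p ^ j ∉ Esh ρ (p ^ (j + c) + 1)) →
  ∀ γ : ℕ, ∃ N : ℕ, ∀ (s : ℕ) (z : (Fin r → O) →₀ F),
    (∀ w ∈ fil ρ ((D + 1) * p ^ ((γ + 2) * s + N)),
      Finsupp.linearCombination F (fun x => ρ (u x)) z w = 0) →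
    Finsupp.linearCombination F
      (fun x => AddMonoidAlgebra.single (pr ω r (γ * s) x) (1 : F)) z = 0

-- deps: A1 JOS CMP DET PRK
def S_CO2 : Prop := ∀ (p : ℕ) [Fact p.Prime] (O : Type) [CommRing O] [IsDomain O]
  [Algebra ℤ_[p] O] (f : ℕ) (ω : Basis (Fin f) ℤ_[p] O) (r e : ℕ) (F V G : Type) [Field F]
  [CharP F p] [AddCommGroup V] [Module F V] [Group G] (Γ : ℕ → Subgroup G) (D : ℕ)
  (g : Fin D → G) (ρ : G →* Module.End F V) (u : (Fin r → O) → G), WU p e Γ g → Sm Γ ρ →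
  1 ≤ f → 1 ≤ r → (∀ x y, u (x + y) = u x * u y) → (∀ k x, u ((p : O) ^ k • x) ∈ Γ k) →
  (∀ h ∈ Cg O (Fin r) ((p : O) ^ e), ∃ d, ∀ x,
    d * u x = u ((h : Matrix (Fin r) (Fin r) O).mulVec x) * d) →
  ∃ c : ℕ, ∀ t γ j n : ℕ, 2 * (2 * (r * f) * (p ^ c * (γ * p ^ γ)) + 1) ≤ p ^ t → j ≤ p ^ n →
    FiniteDimensional F (fil ρ j) →
    (∀ z : (Fin r → O) →₀ F,
      (∀ w ∈ fil ρ j, Finsupp.linearCombination F (fun x => ρ (u x)) z w = 0) →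
      Finsupp.linearCombination F (fun x => AddMonoidAlgebra.single (pr ω r t x) (1 : F)) z = 0) →
    p ^ (2 * (r * f) * γ) * p ^ (r * f * t) ≤ 2 * p ^ (r * f * n) * finrank F (fil ρ j) ^ 2

-- deps: WUA NH SCA YEL DICH CO1 CO2 NUM
def S_CORE : Prop := ∀ (p : ℕ) [Fact p.Prime] (O : Type) [CommRing O] [IsDomain O]
  [Algebra ℤ_[p] O] [Module.Finite ℤ_[p] O] [Module.Free ℤ_[p] O] (r e : ℕ), 3 ≤ p ^ e →
  ∀ (F V : Type) [Field F] [CharP F p] [AddCommGroup V] [Module F V]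
  (ρ : Cg O (Fin (r + 1)) ((p : O) ^ e) →* Module.End F V), Sm (Gam p O (Fin (r + 1)) e) ρ →
  (∀ (z : Cg O (Fin (r + 1)) ((p : O) ^ e)) (c : O), z.1.1 = Matrix.scalar _ c →
    ∃ a : F, ∀ v, ρ z v = a • v) →
  FiniteDimensional F (fil ρ 1) → ¬ FiniteDimensional F V → ∀ j,
  (((j + finrank ℤ_[p] O * r).choose (finrank ℤ_[p] O * r) : ℕ) : Cardinal) ≤
    Module.rank F (fil ρ (j + 1))

-- deps:
def S_INT : Prop := ∀ (p : ℕ) [Fact p.Prime] (K : Type) [Field K] [Algebra ℚ_[p] K]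
  [FiniteDimensional ℚ_[p] K] [Algebra ℤ_[p] K] [IsScalarTower ℤ_[p] ℚ_[p] K],
  Module.Finite ℤ_[p] (integralClosure ℤ_[p] K) ∧ Module.Free ℤ_[p] (integralClosure ℤ_[p] K) ∧
    finrank ℤ_[p] (integralClosure ℤ_[p] K) = finrank ℚ_[p] K

end Pool.Agent.P.MP_7cb106_nt.BI
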